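import Mathlib

set_option autoImplicit false

/-!
# Reversible systems on the unit tangent bundle of a torus: basic facts

`x' = A cos θ`, `y' = B sin θ`, `θ' = C` with the flow `F`.
-/

open Set Filter Topology Real

namespace MP4c42bd.Mir

/-- states `(x, y, θ)` -/
abbrev St := ℝ × ℝ × ℝ

/-- the reflection in `y` -/
noncomputable def r1 (z : St) : St := (z.1, -z.2.1, π - z.2.2)

/-- the reflection in `x` -/
def r2 (z : St) : St := (-z.1, z.2.1, -z.2.2)

/-- The class of systems. -/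
structure Sys (A B : ℝ → ℝ → ℝ) (C : ℝ → ℝ → ℝ → ℝ) (F : ℝ → St → St) : Prop where
  cA : Continuous fun z : ℝ × ℝ => A z.1 z.2
  cB : Continuous fun z : ℝ × ℝ => B z.1 z.2
  cC : Continuous fun z : St => C z.1 z.2.1 z.2.2
  posA : ∀ x y, 0 < A x y
  posB : ∀ x y, 0 < B x y
  perx : ∀ x y θ, A (x + 1) y = A x y ∧ B (x + 1) y = B x y ∧ C (x + 1) y θ = C x y θ
  pery : ∀ x y θ, A x (y + 1) = A x y ∧ B x (y + 1) = B x y ∧ C x (y + 1) θ = C x y θ
  C0 : ∀ x y, 0 < C x y 0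
  Cpi : ∀ x y, 0 < C x y π
  Cb : ∀ y, 0 < C 0 y (π / 2)
  cF : Continuous fun p : ℝ × St => F p.1 p.2
  zero : ∀ z, F 0 z = z
  group : ∀ s t z, F s (F t z) = F (s + t) z
  dx : ∀ t z, HasDerivAt (fun s => (F s z).1)
    (A (F t z).1 (F t z).2.1 * cos (F t z).2.2) t
  dy : ∀ t z, HasDerivAt (fun s => (F s z).2.1)
    (B (F t z).1 (F t z).2.1 * sin (F t z).2.2) t
  dθ : ∀ t z, HasDerivAt (fun s => (F s z).2.2)
    (C (F t z).1 (F t z).2.1 (F t z).2.2) t
  trx : ∀ t z, F t (z + (1, 0, 0)) = F t z + (1, 0, 0)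
  tryy : ∀ t z, F t (z + (0, 1, 0)) = F t z + (0, 1, 0)
  trθ : ∀ t z, F t (z + (0, 0, 2 * π)) = F t z + (0, 0, 2 * π)
  hr1 : ∀ t z, F (-t) (r1 z) = r1 (F t z)
  hr2 : ∀ t z, F (-t) (r2 z) = r2 (F t z)

/-- Constants. -/
structure Cst (A B : ℝ → ℝ → ℝ) (C : ℝ → ℝ → ℝ → ℝ) (ε c M m : ℝ) : Prop where
  ε0 : 0 < ε
  ε1 : ε < π / 4
  c0 : 0 < c
  M0 : 0 < M
  m0 : 0 < m
  low : ∀ x y θ, |θ| ≤ ε → c ≤ C x y θ
  high : ∀ x y θ, |θ - π| ≤ ε → c ≤ C x y θ
  AM : ∀ x y, A x y ≤ M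
  BM : ∀ x y, B x y ≤ M
  Bm : ∀ x y, m ≤ B x y
  small : M * (2 * ε / c) < 1

/-- No closed orbits in the classes `(0, n)`, `|n| ≤ 1`. -/
def NoC (F : ℝ → St → St) : Prop :=
  ∀ (z : St) (t : ℝ) (n j : ℤ), 0 < t → |n| ≤ 1 → F t z ≠ z + (0, (n : ℝ), 2 * π * (j : ℝ))

section
variable {A B : ℝ → ℝ → ℝ} {C : ℝ → ℝ → ℝ → ℝ} {F : ℝ → St → St}

/-! ### Constants -/

theorem per_red {f : ℝ → ℝ} (h : ∀ x, f (x + 1) = f x) (x : ℝ) : f x = f (Int.fract x) := by
  have h1 : Function.Periodic f 1 := h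
  have h2 := h1.sub_zsmul_eq (x := x) ⌊x⌋
  rw [zsmul_eq_mul, mul_one] at h2
  exact h2.symm

theorem Sys.exists_cst (S : Sys A B C F) : ∃ ε c M m, Cst A B C ε c M m := by
  -- the compact set
  set K : Set (ℝ × ℝ) := Icc 0 1 ×ˢ Icc 0 1 with hK
  have hKc : IsCompact K := isCompact_Icc.prod isCompact_Icc
  have hfr : ∀ x y : ℝ, (Int.fract x, Int.fract y) ∈ K := fun x y =>
    ⟨⟨Int.fract_nonneg x, (Int.fract_lt_one x).le⟩, ⟨Int.fract_nonneg y, (Int.fract_lt_one y).le⟩⟩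
  have hne : K.Nonempty := ⟨_, hfr 0 0⟩
  have redA : ∀ x y, A x y = A (Int.fract x) (Int.fract y) := fun x y => by
    rw [per_red (f := fun x => A x y) (fun x => (S.perx x y 0).1) x,
      per_red (f := fun y => A (Int.fract x) y) (fun y => (S.pery _ y 0).1) y]
  have redB : ∀ x y, B x y = B (Int.fract x) (Int.fract y) := fun x y => by
    rw [per_red (f := fun x => B x y) (fun x => (S.perx x y 0).2.1) x,
      per_red (f := fun y => B (Int.fract x) y) (fun y => (S.pery _ y 0).2.1) y]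
  have redC : ∀ x y θ, C x y θ = C (Int.fract x) (Int.fract y) θ := fun x y θ => by
    rw [per_red (f := fun x => C x y θ) (fun x => (S.perx x y θ).2.2) x,
      per_red (f := fun y => C (Int.fract x) y θ) (fun y => (S.pery _ y θ).2.2) y]
  obtain ⟨zA, hzA, hA⟩ := hKc.exists_isMaxOn hne S.cA.continuousOn
  obtain ⟨zB, hzB, hB⟩ := hKc.exists_isMaxOn hne S.cB.continuousOn
  obtain ⟨zb, hzb, hb⟩ := hKc.exists_isMinOn hne S.cB.continuousOn
  -- near a level
  have key : ∀ θ₀ : ℝ, (∀ x y, 0 < C x y θ₀) → ∃ c δ : ℝ, 0 < c ∧ 0 < δ ∧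
      ∀ x y θ, |θ - θ₀| ≤ δ → c ≤ C x y θ := by
    intro θ₀ h0
    have hc0 : Continuous fun z : ℝ × ℝ => C z.1 z.2 θ₀ :=
      S.cC.comp (continuous_fst.prodMk (continuous_snd.prodMk continuous_const))
    obtain ⟨z0, hz0, hmin⟩ := hKc.exists_isMinOn hne hc0.continuousOn
    set c0 := C z0.1 z0.2 θ₀ with hc0'
    have hc0pos : 0 < c0 := h0 _ _
    set K' : Set St := (fun z : ℝ × ℝ => ((z.1, z.2, θ₀) : St)) '' K with hK'
    have hK'c : IsCompact K' := hKc.image (by fun_prop)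
    set O : Set St := {z | c0 / 2 < C z.1 z.2.1 z.2.2} with hO
    have hOo : IsOpen O := isOpen_lt continuous_const S.cC
    have hsub : K' ⊆ O := by
      rintro _ ⟨z, hz, rfl⟩
      have : c0 ≤ C z.1 z.2 θ₀ := hmin hz
      show c0 / 2 < C z.1 z.2 θ₀
      linarith
    obtain ⟨δ, hδ, hδO⟩ := hK'c.exists_cthickening_subset_open hOo hsub
    refine ⟨c0 / 2, δ, by positivity, hδ, ?_⟩
    intro x y θ hθ
    rw [redC]
    have hmem : ((Int.fract x, Int.fract y, θ) : St) ∈ O := by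
      apply hδO
      refine Metric.mem_cthickening_of_dist_le _ ((Int.fract x, Int.fract y, θ₀) : St) δ K'
        ⟨(Int.fract x, Int.fract y), hfr x y, rfl⟩ ?_
      rw [Prod.dist_eq, Prod.dist_eq]
      simp only [dist_self]
      rw [Real.dist_eq]
      exact max_le hδ.le (max_le hδ.le hθ)
    exact le_of_lt hmem
  obtain ⟨c1, δ1, hc1, hδ1, h1⟩ := key 0 S.C0
  obtain ⟨c2, δ2, hc2, hδ2, h2⟩ := key π S.Cpi
  set M := A zA.1 zA.2 + B zB.1 zB.2 with hM
  have hM0 : 0 < M := add_pos (S.posA _ _) (S.posB _ _)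
  set c := min c1 c2 with hc
  have hc0 : 0 < c := lt_min hc1 hc2
  set ε := min (min δ1 δ2) (min (π / 8) (c / (4 * M))) with hε
  have hε0 : 0 < ε := lt_min (lt_min hδ1 hδ2) (lt_min (by positivity) (by positivity))
  have he1 : ε ≤ δ1 := (min_le_left _ _).trans (min_le_left _ _)
  have he2 : ε ≤ δ2 := (min_le_left _ _).trans (min_le_right _ _)
  have he3 : ε ≤ π / 8 := (min_le_right _ _).trans (min_le_left _ _)
  have he4 : ε ≤ c / (4 * M) := (min_le_right _ _).trans (min_le_right _ _)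
  refine ⟨ε, c, M, B zb.1 zb.2, hε0, by linarith [Real.pi_pos], hc0, hM0, S.posB _ _, ?_, ?_, ?_,
    ?_, ?_, ?_⟩
  · intro x y θ hθ
    exact (min_le_left _ _).trans (h1 x y θ (by rw [sub_zero]; exact hθ.trans he1))
  · intro x y θ hθ
    exact (min_le_right _ _).trans (h2 x y θ (hθ.trans he2))
  · intro x y
    rw [redA]
    have : A (Int.fract x) (Int.fract y) ≤ A zA.1 zA.2 := hA (hfr x y)
    linarith [S.posB zB.1 zB.2]
  · intro x y
    rw [redB]
    have : B (Int.fract x) (Int.fract y) ≤ B zB.1 zB.2 := hB (hfr x y)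
    linarith [S.posA zA.1 zA.2]
  · intro x y
    rw [redB x y]
    exact hb (hfr x y)
  · have h4 : 2 * ε / c ≤ 2 * (c / (4 * M)) / c := by gcongr
    have h5 : M * (2 * (c / (4 * M)) / c) = 1 / 2 := by field_simp; ring
    calc M * (2 * ε / c) ≤ M * (2 * (c / (4 * M)) / c) := by gcongr
      _ < 1 := by rw [h5]; norm_num

/-! ### One-dimensional barriers -/

/-- a function which increases whenever it is equal to `a` stays above `a`. -/
theorem stay_ge {g g' : ℝ → ℝ} (hg : ∀ t, HasDerivAt g (g' t) t) {a : ℝ} (h0 : a ≤ g 0)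
    (h : ∀ t, 0 ≤ t → g t = a → 0 < g' t) {t : ℝ} (ht : 0 ≤ t) : a ≤ g t := by
  have := image_le_of_deriv_right_lt_deriv_boundary' (f := fun _ => a) (f' := fun _ => 0)
    (a := 0) (b := t) continuousOn_const (fun x _ => hasDerivWithinAt_const _ _ _) (B := g)
    (B' := g') h0 (fun x _ => (hg x).continuousAt.continuousWithinAt)
    (fun x _ => (hg x).hasDerivWithinAt) (fun x hx hx' => h x hx.1 hx'.symm)
  exact this ⟨ht, le_rfl⟩

/-- strict version. -/
theorem stay_gt {g g' : ℝ → ℝ} (hg : ∀ t, HasDerivAt g (g' t) t) {a : ℝ} (h0 : a ≤ g 0)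
    (h : ∀ t, 0 ≤ t → g t = a → 0 < g' t) {t : ℝ} (ht : 0 < t) : a < g t := by
  rcases (stay_ge hg h0 h ht.le).lt_or_eq with h1 | h1
  · exact h1
  · exfalso
    have h2 := h t ht.le h1.symm
    have h3 : HasDerivAt g (g' t) t := hg t
    -- just before `t` the function is below `a`
    have h4 := (hasDerivWithinAt_iff_tendsto_slope' (s := Iio t) (by simp)).1
      h3.hasDerivWithinAt
    have h5 : ∀ᶠ s in 𝓝[<] t, 0 < slope g t s := h4.eventually (lt_mem_nhds h2)
    have h6 : ∀ᶠ s in 𝓝[<] t, s ∈ Ioo 0 t := Ioo_mem_nhdsLT ht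
    obtain ⟨s, hs1, hs2⟩ := (h5.and h6).exists
    rw [slope_def_field] at hs1
    have h7 : g s - g t < 0 := by
      by_contra hcon
      push Not at hcon
      have : (g s - g t) / (s - t) ≤ 0 :=
        div_nonpos_of_nonneg_of_nonpos hcon (by linarith [hs2.2])
      linarith
    have h8 := stay_ge hg h0 h hs2.1.le
    rw [← h1] at h7
    linarith

/-- growth along a strip. -/
theorem grow {g g' : ℝ → ℝ} (hg : ∀ t, HasDerivAt g (g' t) t) {a b c : ℝ} (hc : 0 < c)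
    (h0 : a ≤ g 0) (h : ∀ t, 0 ≤ t → a ≤ g t → g t ≤ b → c ≤ g' t) {t : ℝ} (ht : 0 ≤ t)
    (htb : a + c / 2 * t ≤ b) : a + c / 2 * t ≤ g t := by
  have := image_le_of_deriv_right_lt_deriv_boundary' (f := fun s => a + c / 2 * s)
    (f' := fun _ => c / 2)
    (a := 0) (b := t) (by fun_prop) (fun x _ => by
      have h1 : HasDerivAt (fun s : ℝ => a + c / 2 * s) (c / 2) x := by
        simpa using ((hasDerivAt_id x).const_mul (c / 2)).const_add a
      exact h1.hasDerivWithinAt) (B := g)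
    (B' := g') (by simpa using h0) (fun x _ => (hg x).continuousAt.continuousWithinAt)
    (fun x _ => (hg x).hasDerivWithinAt) (fun x hx hx' => by
      have h1 : a ≤ g x := by
        rw [← hx']
        have : 0 ≤ c / 2 * x := mul_nonneg (by positivity) hx.1
        linarith
      have h2 : g x ≤ b := by
        rw [← hx']
        have : c / 2 * x ≤ c / 2 * t := by
          apply mul_le_mul_of_nonneg_left hx.2.le (by positivity)
        linarith
      have := h x hx.1 h1 h2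
      linarith)
  exact this ⟨ht, le_rfl⟩

end

end MP4c42bd.Mir
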