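import Mathlib
import Pool.Agent.Lib.MP_4c42bd_gt.Mir.Sys

set_option autoImplicit false

/-!
# Orbits as graphs over the height
-/

open Set Filter Topology Real

namespace MP4c42bd.Mir

/-- the orbit of `z` stays in `0 < θ < π` between the times `0` and `t` -/
def In (F : ℝ → St → St) (z : St) (t : ℝ) : Prop :=
  ∀ s ∈ uIcc 0 t, 0 < (F s z).2.2 ∧ (F s z).2.2 < π

/-- the orbit of `z` reaches the height `η` inside `0 < θ < π` -/
def Dom (F : ℝ → St → St) (z : St) (η : ℝ) : Prop := ∃ t, In F z t ∧ (F t z).2.1 = η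

open Classical in
/-- the time -/
noncomputable def Tm (F : ℝ → St → St) (z : St) (η : ℝ) : ℝ :=
  if h : Dom F z η then h.choose else 0

/-- the state at height `η` -/
noncomputable def gr (F : ℝ → St → St) (z : St) (η : ℝ) : St := F (Tm F z η) z

section
variable {A B : ℝ → ℝ → ℝ} {C : ℝ → ℝ → ℝ → ℝ} {F : ℝ → St → St} {ε c M m : ℝ}

theorem In.mono {z : St} {t s : ℝ} (h : In F z t) (hs : s ∈ uIcc 0 t) : In F z s :=
  fun r hr => h r (uIcc_subset_uIcc left_mem_uIcc hs hr)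

theorem In.start {z : St} {t : ℝ} (S : Sys A B C F) (h : In F z t) : 0 < z.2.2 ∧ z.2.2 < π := by
  have := h 0 left_mem_uIcc
  rwa [S.zero] at this

theorem In.last {z : St} {t : ℝ} (h : In F z t) : 0 < (F t z).2.2 ∧ (F t z).2.2 < π :=
  h t right_mem_uIcc

theorem mem_uIcc_of_mem_Icc {t t' s : ℝ} (hs : s ∈ Icc t t') : s ∈ uIcc 0 t ∨ s ∈ uIcc 0 t' := by
  rcases le_total s 0 with h | h
  · left
    rw [mem_uIcc]
    exact Or.inr ⟨hs.1, h⟩
  · right
    rw [mem_uIcc]
    exact Or.inl ⟨h, hs.2⟩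

theorem Sys.contY (S : Sys A B C F) (z : St) : Continuous fun s => (F s z).2.1 :=
  continuous_iff_continuousAt.2 fun t => (S.dy t z).continuousAt

theorem Sys.contθ (S : Sys A B C F) (z : St) : Continuous fun s => (F s z).2.2 :=
  continuous_iff_continuousAt.2 fun t => (S.dθ t z).continuousAt

theorem Sys.contF (S : Sys A B C F) (z : St) : Continuous fun s => F s z :=
  S.cF.comp (continuous_id.prodMk continuous_const)

/-- the height is strictly increasing while `0 < θ < π` -/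
theorem Sys.Y_strict (S : Sys A B C F) {z : St} {t t' : ℝ} (h : ∀ s ∈ Icc t t', 0 < (F s z).2.2 ∧
    (F s z).2.2 < π) : StrictMonoOn (fun s => (F s z).2.1) (Icc t t') := by
  apply strictMonoOn_of_deriv_pos (convex_Icc t t') (S.contY z).continuousOn
  intro s hs
  have hs' := h s (interior_subset hs)
  rw [(S.dy s z).deriv]
  exact mul_pos (S.posB _ _) (sin_pos_of_pos_of_lt_pi hs'.1 hs'.2)

theorem Sys.In_lt (S : Sys A B C F) {z : St} {t t' : ℝ} (h : In F z t) (h' : In F z t')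
    (htt : t < t') : (F t z).2.1 < (F t' z).2.1 := by
  apply S.Y_strict (z := z) (t := t) (t' := t')
  · intro s hs
    rcases mem_uIcc_of_mem_Icc hs with h1 | h1
    · exact h s h1
    · exact h' s h1
  · exact ⟨le_rfl, htt.le⟩
  · exact ⟨htt.le, le_rfl⟩
  · exact htt

theorem Sys.In_inj (S : Sys A B C F) {z : St} {t t' : ℝ} (h : In F z t) (h' : In F z t')
    (hy : (F t z).2.1 = (F t' z).2.1) : t = t' := by
  rcases lt_trichotomy t t' with h1 | h1 | h1
  · exact absurd hy (S.In_lt h h' h1).ne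
  · exact h1
  · exact absurd hy.symm (S.In_lt h' h h1).ne

theorem Dom.tm_In {z : St} {η : ℝ} (h : Dom F z η) : In F z (Tm F z η) := by
  rw [Tm, dif_pos h]
  exact h.choose_spec.1

theorem Dom.gr_y {z : St} {η : ℝ} (h : Dom F z η) : (gr F z η).2.1 = η := by
  rw [gr, Tm, dif_pos h]
  exact h.choose_spec.2

theorem Dom.gr_θ {z : St} {η : ℝ} (h : Dom F z η) : 0 < (gr F z η).2.2 ∧ (gr F z η).2.2 < π :=
  h.tm_In.last

theorem Sys.Tm_eq (S : Sys A B C F) {z : St} {t η : ℝ} (h : In F z t) (hη : (F t z).2.1 = η) :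
    Tm F z η = t := by
  have hd : Dom F z η := ⟨t, h, hη⟩
  have h2 := hd.gr_y
  rw [gr] at h2
  exact S.In_inj hd.tm_In h (h2.trans hη.symm)

theorem Sys.gr_eq (S : Sys A B C F) {z : St} {t η : ℝ} (h : In F z t) (hη : (F t z).2.1 = η) :
    gr F z η = F t z := by
  rw [gr, S.Tm_eq h hη]

theorem Sys.In_zero (S : Sys A B C F) {z : St} (h : 0 < z.2.2 ∧ z.2.2 < π) : In F z 0 := by
  intro s hs
  rw [uIcc_self, mem_singleton_iff] at hs
  rw [hs, S.zero]
  exact h

theorem Sys.dom_self (S : Sys A B C F) {z : St} (h : 0 < z.2.2 ∧ z.2.2 < π) :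
    Dom F z z.2.1 := ⟨0, S.In_zero h, by rw [S.zero]⟩

theorem Sys.gr_self (S : Sys A B C F) {z : St} (h : 0 < z.2.2 ∧ z.2.2 < π) :
    gr F z z.2.1 = z := by
  rw [S.gr_eq (S.In_zero h) (by rw [S.zero]), S.zero]

theorem Dom.start {z : St} {η : ℝ} (S : Sys A B C F) (h : Dom F z η) : 0 < z.2.2 ∧ z.2.2 < π :=
  h.tm_In.start S

/-- the time is negative below, positive above -/
theorem Sys.Tm_mono (S : Sys A B C F) {z : St} {η η' : ℝ} (h : Dom F z η) (h' : Dom F z η')
    (hη : η < η') : Tm F z η < Tm F z η' := by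
  by_contra hcon
  push Not at hcon
  rcases hcon.lt_or_eq with h1 | h1
  · have := S.In_lt h'.tm_In h.tm_In h1
    have e1 := h.gr_y
    have e2 := h'.gr_y
    rw [gr] at e1 e2
    linarith
  · have e1 := h.gr_y
    have e2 := h'.gr_y
    rw [gr] at e1 e2
    rw [h1] at e2
    linarith

theorem Sys.Tm_self (S : Sys A B C F) {z : St} (h : 0 < z.2.2 ∧ z.2.2 < π) :
    Tm F z z.2.1 = 0 := S.Tm_eq (S.In_zero h) (by rw [S.zero])

theorem Sys.Tm_nonneg (S : Sys A B C F) {z : St} {η : ℝ} (h : Dom F z η) (hη : z.2.1 ≤ η) :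
    0 ≤ Tm F z η := by
  have h0 := S.dom_self (h.start S)
  rw [← S.Tm_self (h.start S)]
  rcases hη.lt_or_eq with h1 | h1
  · exact (S.Tm_mono h0 h h1).le
  · rw [← h1]

theorem Sys.Tm_pos (S : Sys A B C F) {z : St} {η : ℝ} (h : Dom F z η) (hη : z.2.1 < η) :
    0 < Tm F z η := by
  have h0 := S.dom_self (h.start S)
  rw [← S.Tm_self (h.start S)]
  exact S.Tm_mono h0 h hη

theorem Sys.Tm_nonpos (S : Sys A B C F) {z : St} {η : ℝ} (h : Dom F z η) (hη : η ≤ z.2.1) :
    Tm F z η ≤ 0 := by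
  have h0 := S.dom_self (h.start S)
  rw [← S.Tm_self (h.start S)]
  rcases hη.lt_or_eq with h1 | h1
  · exact (S.Tm_mono h h0 h1).le
  · rw [h1]

/-- between the initial height and a reached height everything is reached -/
theorem Sys.dom_between (S : Sys A B C F) {z : St} {η η' : ℝ} (h : Dom F z η)
    (hη : η' ∈ uIcc z.2.1 η) : Dom F z η' := by
  obtain ⟨t, ht, rfl⟩ := h
  have h1 : uIcc ((fun s => (F s z).2.1) 0) ((fun s => (F s z).2.1) t) ⊆
      (fun s => (F s z).2.1) '' uIcc 0 t := intermediate_value_uIcc (S.contY z).continuousOn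
  have h2 : (F 0 z).2.1 = z.2.1 := by rw [S.zero]
  simp only [h2] at h1
  obtain ⟨s, hs, hs'⟩ := h1 hη
  exact ⟨s, ht.mono hs, hs'⟩

/-! ### Openness and continuity -/

theorem Sys.In_nhds (S : Sys A B C F) {z : St} {t : ℝ} (h : In F z t) :
    ∃ δ > 0, ∀ᶠ w in 𝓝 z, ∀ s ∈ Icc (min 0 t - δ) (max 0 t + δ),
      0 < (F s w).2.2 ∧ (F s w).2.2 < π := by
  -- a thickening of the compact interval for `z`
  have ho : IsOpen {s : ℝ | 0 < (F s z).2.2 ∧ (F s z).2.2 < π} :=
    (isOpen_lt continuous_const (S.contθ z)).inter (isOpen_lt (S.contθ z) continuous_const)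
  have hsub : uIcc 0 t ⊆ {s : ℝ | 0 < (F s z).2.2 ∧ (F s z).2.2 < π} := h
  obtain ⟨δ, hδ, hδ'⟩ := isCompact_uIcc.exists_cthickening_subset_open ho hsub
  refine ⟨δ, hδ, ?_⟩
  have hin : ∀ s ∈ Icc (min 0 t - δ) (max 0 t + δ), 0 < (F s z).2.2 ∧ (F s z).2.2 < π := by
    intro s hs
    apply hδ'
    -- the nearest point
    have hmm : min 0 t ≤ max 0 t := min_le_max
    rcases lt_or_ge s (min 0 t) with h1 | h1
    · refine Metric.mem_cthickening_of_dist_le s (min 0 t) δ _ ⟨le_rfl, hmm⟩ ?_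
      rw [Real.dist_eq, abs_le]
      constructor <;> linarith [hs.1]
    · rcases lt_or_ge (max 0 t) s with h2 | h2
      · refine Metric.mem_cthickening_of_dist_le s (max 0 t) δ _ ⟨hmm, le_rfl⟩ ?_
        rw [Real.dist_eq, abs_le]
        constructor <;> linarith [hs.2]
      · exact Metric.self_subset_cthickening _ ⟨h1, h2⟩
  apply isCompact_Icc.eventually_forall_of_forall_eventually
  intro s hs
  have hc : Continuous fun p : St × ℝ => (F p.2 p.1).2.2 :=
    (continuous_snd.comp continuous_snd).comp (S.cF.comp (continuous_snd.prodMk continuous_fst))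
  have ho2 : IsOpen {p : St × ℝ | 0 < (F p.2 p.1).2.2 ∧ (F p.2 p.1).2.2 < π} :=
    (isOpen_lt continuous_const hc).inter (isOpen_lt hc continuous_const)
  exact ho2.mem_nhds (hin s hs)

theorem Sys.tm_near (S : Sys A B C F) {z : St} {η : ℝ} (h : Dom F z η) {δ : ℝ} (hδ : 0 < δ) :
    ∀ᶠ p : St × ℝ in 𝓝 (z, η), Dom F p.1 p.2 ∧ |Tm F p.1 p.2 - Tm F z η| < δ := by
  set t := Tm F z η with ht
  obtain ⟨δ₁, hδ₁, hev⟩ := S.In_nhds h.tm_In
  set d := min δ₁ (δ / 2) with hd
  have hd0 : 0 < d := lt_min hδ₁ (by positivity)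
  have hd1 : d ≤ δ₁ := min_le_left _ _
  have hd2 : d < δ := lt_of_le_of_lt (min_le_right _ _) (by linarith)
  have hIn : ∀ w : St, (∀ s ∈ Icc (min 0 t - δ₁) (max 0 t + δ₁),
      0 < (F s w).2.2 ∧ (F s w).2.2 < π) → ∀ r, |r - t| ≤ d → In F w r := by
    intro w hw r hr s hs
    apply hw
    rw [abs_le] at hr
    have hs1 := hs.1
    have hs2 := hs.2
    constructor
    · refine le_trans ?_ hs1
      rw [le_min_iff]
      constructor
      · linarith [min_le_left (0 : ℝ) t]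
      · linarith [min_le_right (0 : ℝ) t]
    · refine hs2.trans ?_
      rw [max_le_iff]
      constructor
      · linarith [le_max_left (0 : ℝ) t]
      · linarith [le_max_right (0 : ℝ) t]
  have hz := hev.self_of_nhds
  have h1 : (F (t - d) z).2.1 < η := by
    have := S.In_lt (hIn z hz (t - d) (by rw [abs_le]; constructor <;> linarith)) h.tm_In
      (by linarith)
    rwa [show (F (Tm F z η) z).2.1 = η from h.gr_y] at this
  have h2 : η < (F (t + d) z).2.1 := by
    have := S.In_lt h.tm_In (hIn z hz (t + d) (by rw [abs_le]; constructor <;> linarith))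
      (by linarith)
    rwa [show (F (Tm F z η) z).2.1 = η from h.gr_y] at this
  have hcY : ∀ r : ℝ, Continuous fun p : St × ℝ => (F r p.1).2.1 := fun r =>
    (continuous_fst.comp continuous_snd).comp (S.cF.comp (continuous_const.prodMk continuous_fst))
  have e1 : ∀ᶠ p : St × ℝ in 𝓝 (z, η), (F (t - d) p.1).2.1 < p.2 :=
    (isOpen_lt (hcY _) continuous_snd).mem_nhds h1
  have e2 : ∀ᶠ p : St × ℝ in 𝓝 (z, η), p.2 < (F (t + d) p.1).2.1 :=
    (isOpen_lt continuous_snd (hcY _)).mem_nhds h2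
  have e3 : ∀ᶠ p : St × ℝ in 𝓝 (z, η), ∀ s ∈ Icc (min 0 t - δ₁) (max 0 t + δ₁),
      0 < (F s p.1).2.2 ∧ (F s p.1).2.2 < π :=
    (continuousAt_fst (p := ((z, η) : St × ℝ))).eventually hev
  filter_upwards [e1, e2, e3] with p h3 h4 h5
  have h6 := intermediate_value_Icc (by linarith : t - d ≤ t + d)
    (S.contY p.1).continuousOn ⟨h3.le, h4.le⟩
  obtain ⟨r, hr, hr'⟩ := h6
  have hrd : |r - t| ≤ d := by rw [abs_le]; constructor <;> linarith [hr.1, hr.2]
  have hInr := hIn p.1 h5 r hrd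
  refine ⟨⟨r, hInr, hr'⟩, ?_⟩
  rw [S.Tm_eq hInr hr']
  exact lt_of_le_of_lt hrd hd2

theorem Sys.dom_open (S : Sys A B C F) : IsOpen {p : St × ℝ | Dom F p.1 p.2} := by
  rw [isOpen_iff_mem_nhds]
  rintro ⟨z, η⟩ h
  exact (S.tm_near h one_pos).mono fun p hp => hp.1

theorem Sys.tm_cont (S : Sys A B C F) {z : St} {η : ℝ} (h : Dom F z η) :
    ContinuousAt (fun p : St × ℝ => Tm F p.1 p.2) (z, η) := by
  rw [Metric.continuousAt_iff']
  intro δ hδ
  exact (S.tm_near h hδ).mono fun p hp => hp.2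

theorem Sys.gr_cont (S : Sys A B C F) {z : St} {η : ℝ} (h : Dom F z η) :
    ContinuousAt (fun p : St × ℝ => gr F p.1 p.2) (z, η) :=
  S.cF.continuousAt.comp ((S.tm_cont h).prodMk continuousAt_fst)

/-! ### Derivatives in the height -/

theorem Sys.tm_deriv (S : Sys A B C F) {z : St} {η : ℝ} (h : Dom F z η) :
    HasDerivAt (Tm F z) (B (gr F z η).1 η * sin (gr F z η).2.2)⁻¹ η := by
  have h1 : ContinuousAt (Tm F z) η :=
    (S.tm_cont h).comp (f := fun r : ℝ => (z, r)) (by fun_prop)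
  have h2 := S.dy (Tm F z η) z
  have h3 : (F (Tm F z η) z).2.1 = η := h.gr_y
  rw [h3] at h2
  refine HasDerivAt.of_local_left_inverse h1 h2 ?_ ?_
  · exact (mul_pos (S.posB _ _) (sin_pos_of_pos_of_lt_pi h.gr_θ.1 h.gr_θ.2)).ne'
  · have h4 : ∀ᶠ r in 𝓝 η, Dom F z r := by
      have : ContinuousAt (fun r : ℝ => (z, r)) η := by fun_prop
      exact this.eventually (S.dom_open.mem_nhds h)
    filter_upwards [h4] with r hr
    exact hr.gr_y

theorem Sys.gr_x_deriv (S : Sys A B C F) {z : St} {η : ℝ} (h : Dom F z η) :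
    HasDerivAt (fun r => (gr F z r).1)
      (A (gr F z η).1 η * cos (gr F z η).2.2 / (B (gr F z η).1 η * sin (gr F z η).2.2)) η := by
  have h1 := S.dx (Tm F z η) z
  have h3 : (F (Tm F z η) z).2.1 = η := h.gr_y
  rw [h3] at h1
  exact h1.comp η (S.tm_deriv h)

theorem Sys.gr_θ_deriv (S : Sys A B C F) {z : St} {η : ℝ} (h : Dom F z η) :
    HasDerivAt (fun r => (gr F z r).2.2)
      (C (gr F z η).1 η (gr F z η).2.2 / (B (gr F z η).1 η * sin (gr F z η).2.2)) η := by
  have h1 := S.dθ (Tm F z η) z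
  have h3 : (F (Tm F z η) z).2.1 = η := h.gr_y
  rw [h3] at h1
  exact h1.comp η (S.tm_deriv h)

/-! ### Concatenation and symmetries -/

theorem Sys.In_add (S : Sys A B C F) {z : St} {t s : ℝ} (h : In F z t) (h' : In F (F t z) s) :
    In F z (s + t) := by
  intro r hr
  have h1 : r ∈ uIcc 0 t ∨ r - t ∈ uIcc 0 s := by
    rw [mem_uIcc] at hr
    rw [mem_uIcc, mem_uIcc]
    rcases le_total 0 t with ht | ht <;> rcases le_total r t with h2 | h2 <;>
      rcases le_total 0 r with h3 | h3 <;> rcases hr with ⟨a1, a2⟩ | ⟨a1, a2⟩ <;>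
      first
        | (left; left; constructor <;> linarith)
        | (left; right; constructor <;> linarith)
        | (right; left; constructor <;> linarith)
        | (right; right; constructor <;> linarith)
  rcases h1 with h1 | h1
  · exact h r h1
  · have := h' _ h1
    rwa [S.group, sub_add_cancel] at this

theorem Sys.In_sub (S : Sys A B C F) {z : St} {t t' : ℝ} (h : In F z t) (h' : In F z t') :
    In F (F t z) (t' - t) := by
  intro r hr
  rw [S.group]
  have h1 : r + t ∈ uIcc 0 t ∨ r + t ∈ uIcc 0 t' := by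
    rcases le_total t t' with htt | htt
    · apply mem_uIcc_of_mem_Icc
      rw [uIcc_of_le (by linarith)] at hr
      constructor <;> linarith [hr.1, hr.2]
    · rw [or_comm]
      apply mem_uIcc_of_mem_Icc
      rw [uIcc_of_ge (by linarith)] at hr
      constructor <;> linarith [hr.1, hr.2]
  rcases h1 with h1 | h1
  · exact h _ h1
  · exact h' _ h1

theorem Sys.gr_trans (S : Sys A B C F) {z : St} {η η' : ℝ} (h : Dom F z η)
    (h' : Dom F (gr F z η) η') : Dom F z η' ∧ gr F z η' = gr F (gr F z η) η' := by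
  have h1 := S.In_add h.tm_In h'.tm_In
  have h2 : (F (Tm F (gr F z η) η' + Tm F z η) z) = gr F (gr F z η) η' := by
    rw [← S.group]; rfl
  have h3 : (F (Tm F (gr F z η) η' + Tm F z η) z).2.1 = η' := by
    rw [h2]; exact h'.gr_y
  exact ⟨⟨_, h1, h3⟩, (S.gr_eq h1 h3).trans h2⟩

theorem Sys.gr_trans' (S : Sys A B C F) {z : St} {η η' : ℝ} (h : Dom F z η)
    (h' : Dom F z η') : Dom F (gr F z η) η' ∧ gr F (gr F z η) η' = gr F z η' := by
  have h1 := S.In_sub h.tm_In h'.tm_In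
  have h2 : F (Tm F z η' - Tm F z η) (gr F z η) = gr F z η' := by
    rw [gr, S.group, sub_add_cancel]; rfl
  have h3 : (F (Tm F z η' - Tm F z η) (gr F z η)).2.1 = η' := by
    rw [h2]; exact h'.gr_y
  exact ⟨⟨_, h1, h3⟩, (S.gr_eq h1 h3).trans h2⟩

/-- invariance under a map which commutes with the flow -/
theorem Sys.gr_equiv (S : Sys A B C F) (f : St → St) (n : ℝ)
    (hf : ∀ t z, F t (f z) = f (F t z)) (hθ : ∀ z, (f z).2.2 = z.2.2)
    (hy : ∀ z, (f z).2.1 = z.2.1 + n) {z : St} {η : ℝ} (h : Dom F z η) :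
    Dom F (f z) (η + n) ∧ gr F (f z) (η + n) = f (gr F z η) := by
  have h1 : In F (f z) (Tm F z η) := by
    intro s hs
    rw [hf, hθ]
    exact h.tm_In s hs
  have h2 : (F (Tm F z η) (f z)).2.1 = η + n := by
    rw [hf, hy]
    rw [show (F (Tm F z η) z).2.1 = η from h.gr_y]
  exact ⟨⟨_, h1, h2⟩, by rw [S.gr_eq h1 h2, hf]; rfl⟩

theorem Sys.gr_r1 (S : Sys A B C F) {z : St} {η : ℝ} (h : Dom F z η) :
    Dom F (r1 z) (-η) ∧ gr F (r1 z) (-η) = r1 (gr F z η) := by
  have h1 : In F (r1 z) (-(Tm F z η)) := by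
    intro s hs
    have hs' : -s ∈ uIcc 0 (Tm F z η) := by
      rw [mem_uIcc] at hs ⊢
      rcases hs with hs | hs
      · right; constructor <;> linarith [hs.1, hs.2]
      · left; constructor <;> linarith [hs.1, hs.2]
    have h2 := S.hr1 (-s) z
    rw [neg_neg] at h2
    rw [h2]
    have h3 := h.tm_In _ hs'
    show 0 < π - (F (-s) z).2.2 ∧ π - (F (-s) z).2.2 < π
    constructor <;> linarith [h3.1, h3.2]
  have h2 : (F (-(Tm F z η)) (r1 z)).2.1 = -η := by
    rw [S.hr1]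
    show -(F (Tm F z η) z).2.1 = -η
    rw [show (F (Tm F z η) z).2.1 = η from h.gr_y]
  exact ⟨⟨_, h1, h2⟩, by rw [S.gr_eq h1 h2, S.hr1]; rfl⟩

end

end MP4c42bd.Mir
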