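import Mathlib
import Pool.Agent.Lib.MP_4c42bd_gt.Mir.Graph

set_option autoImplicit false

/-!
# Barriers for the angle and closedness
-/

open Set Filter Topology Real

namespace MP4c42bd.Mir

section
variable {A B : ℝ → ℝ → ℝ} {C : ℝ → ℝ → ℝ → ℝ} {F : ℝ → St → St} {ε c M m : ℝ}

theorem Cst.ε2 (K : Cst A B C ε c M m) : ε < 1 := by
  have := K.ε1
  have := Real.pi_lt_d2
  linarith

theorem Sys.zlow (S : Sys A B C F) (K : Cst A B C ε c M m) {z : St} {a : ℝ} (ha : |a| ≤ ε)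
    (h : a ≤ z.2.2) {t : ℝ} (ht : 0 ≤ t) : a ≤ (F t z).2.2 := by
  apply stay_ge (fun t => S.dθ t z) (by rw [S.zero]; exact h) _ ht
  intro t _ hta
  rw [hta]
  exact K.c0.trans_le (K.low _ _ _ ha)

theorem Sys.zlow' (S : Sys A B C F) (K : Cst A B C ε c M m) {z : St} {a : ℝ} (ha : |a| ≤ ε)
    (h : a ≤ z.2.2) {t : ℝ} (ht : 0 < t) : a < (F t z).2.2 := by
  apply stay_gt (fun t => S.dθ t z) (by rw [S.zero]; exact h) _ ht
  intro t _ hta
  rw [hta]
  exact K.c0.trans_le (K.low _ _ _ ha)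

theorem Sys.zhigh (S : Sys A B C F) (K : Cst A B C ε c M m) {z : St} {a : ℝ}
    (ha : |a - π| ≤ ε) (h : a ≤ z.2.2) {t : ℝ} (ht : 0 ≤ t) : a ≤ (F t z).2.2 := by
  apply stay_ge (fun t => S.dθ t z) (by rw [S.zero]; exact h) _ ht
  intro t _ hta
  rw [hta]
  exact K.c0.trans_le (K.high _ _ _ ha)

theorem Sys.zhigh' (S : Sys A B C F) (K : Cst A B C ε c M m) {z : St} {a : ℝ}
    (ha : |a - π| ≤ ε) (h : a ≤ z.2.2) {t : ℝ} (ht : 0 < t) : a < (F t z).2.2 := by
  apply stay_gt (fun t => S.dθ t z) (by rw [S.zero]; exact h) _ ht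
  intro t _ hta
  rw [hta]
  exact K.c0.trans_le (K.high _ _ _ ha)

theorem Sys.zexit (S : Sys A B C F) (K : Cst A B C ε c M m) {z : St}
    (h : π - ε ≤ z.2.2) {t : ℝ} (ht : 2 * ε / c ≤ t) : π ≤ (F t z).2.2 := by
  have hc := K.c0
  have hε := K.ε0
  have h0 : 0 ≤ 2 * ε / c := by positivity
  have h1 : π - ε + c / 2 * (2 * ε / c) = π := by field_simp; ring
  have h2 := grow (fun t => S.dθ t z) (a := π - ε) (b := π + ε) K.c0 (by rw [S.zero]; exact h)
    (fun t _ h1 h2 => K.high _ _ _ (by rw [abs_le]; constructor <;> linarith)) h0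
    (by rw [h1]; linarith)
  rw [h1] at h2
  have h3 := S.zhigh K (z := F (2 * ε / c) z) (a := π) (by simpa using K.ε0.le) h2
    (t := t - 2 * ε / c) (by linarith)
  rwa [S.group, sub_add_cancel] at h3

theorem Sys.Y_le (S : Sys A B C F) (K : Cst A B C ε c M m) (z : St) {t : ℝ} (ht : 0 ≤ t) :
    (F t z).2.1 - z.2.1 ≤ M * t := by
  have h1 : ∀ s, deriv (fun s => (F s z).2.1) s ≤ M := by
    intro s
    rw [(S.dy s z).deriv]
    have h2 := K.BM (F s z).1 (F s z).2.1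
    have h3 := S.posB (F s z).1 (F s z).2.1
    have h4 := sin_le_one (F s z).2.2
    nlinarith
  have h2 := image_sub_le_mul_sub_of_deriv_le (f := fun s => (F s z).2.1)
    (fun s => (S.dy s z).differentiableAt) h1 ht
  simp only [S.zero, sub_zero] at h2
  exact h2

theorem Sys.gr_low (S : Sys A B C F) (K : Cst A B C ε c M m) {z : St} {η : ℝ} (h : Dom F z η)
    (hη : z.2.1 ≤ η) {a : ℝ} (ha : |a| ≤ ε) (h0 : a ≤ z.2.2) : a ≤ (gr F z η).2.2 :=
  S.zlow K ha h0 (S.Tm_nonneg h hη)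

theorem Sys.gr_low' (S : Sys A B C F) (K : Cst A B C ε c M m) {z : St} {η : ℝ} (h : Dom F z η)
    (hη : z.2.1 < η) {a : ℝ} (ha : |a| ≤ ε) (h0 : a ≤ z.2.2) : a < (gr F z η).2.2 :=
  S.zlow' K ha h0 (S.Tm_pos h hη)

theorem Sys.gr_high' (S : Sys A B C F) (K : Cst A B C ε c M m) {z : St} {η η' : ℝ}
    (h : Dom F z η) (h' : Dom F z η') (hη : η < η') {a : ℝ} (ha : |a - π| ≤ ε)
    (h0 : a ≤ (gr F z η).2.2) : a < (gr F z η').2.2 := by
  have h1 := S.gr_trans' h h'
  rw [← h1.2]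
  refine S.zhigh' K ha h0 (S.Tm_pos h1.1 ?_)
  rw [h.gr_y]
  exact hη

theorem Sys.gr_high_le (S : Sys A B C F) (K : Cst A B C ε c M m) {z : St} {η η' : ℝ}
    (h : Dom F z η) (h' : Dom F z η') (hη : η ≤ η') {a : ℝ} (ha : |a - π| ≤ ε)
    (h0 : (gr F z η').2.2 ≤ a) : (gr F z η).2.2 ≤ a := by
  rcases hη.lt_or_eq with h1 | h1
  · by_contra hcon
    push Not at hcon
    have := S.gr_high' K h h' h1 ha hcon.le
    linarith
  · rw [h1]; exact h0

theorem Sys.gr_lt_of_succ (S : Sys A B C F) (K : Cst A B C ε c M m) {z : St} {η : ℝ}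
    (h : Dom F z η) (h' : Dom F z (η + 1)) : (gr F z η).2.2 < π - ε := by
  by_contra hcon
  push Not at hcon
  obtain ⟨h1, h2⟩ := S.gr_trans' h h'
  have h3 := S.Tm_pos h1 (by rw [h.gr_y]; linarith)
  have h4 : Tm F (gr F z η) (η + 1) < 2 * ε / c := by
    by_contra hc
    push Not at hc
    have h5 := S.zexit K hcon hc
    have h6 := h1.gr_θ.2
    rw [gr] at h6
    linarith
  have h5 := S.Y_le K (gr F z η) h3.le
  have h6 := h1.gr_y
  rw [gr] at h6
  rw [h6, h.gr_y] at h5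
  have h7 : M * Tm F (gr F z η) (η + 1) ≤ M * (2 * ε / c) :=
    mul_le_mul_of_nonneg_left h4.le K.M0.le
  linarith [K.small]

/-- closedness of the domain -/
theorem Sys.dom_lim (S : Sys A B C F) (K : Cst A B C ε c M m) {z : ℕ → St} {η : ℕ → ℝ} {z0 : St}
    {η0 : ℝ} (hz : Tendsto z atTop (𝓝 z0)) (hη : Tendsto η atTop (𝓝 η0)) {e : ℝ} (he0 : 0 < e)
    (he : e ≤ ε) (h0 : ∀ n, e ≤ (z n).2.2) (hle : ∀ n, (z n).2.1 ≤ η n)
    (hD : ∀ n, Dom F (z n) (η n)) (hang : ∀ n, (gr F (z n) (η n)).2.2 ≤ π - e) :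
    Dom F z0 η0 := by
  have hε := K.ε1
  set T : ℕ → ℝ := fun n => Tm F (z n) (η n) with hT
  have hT0 : ∀ n, 0 ≤ T n := fun n => S.Tm_nonneg (hD n) (hle n)
  have hlow : ∀ n, ∀ s, 0 ≤ s → e ≤ (F s (z n)).2.2 := fun n s hs =>
    S.zlow K (by rw [abs_of_pos he0]; exact he) (h0 n) hs
  have hhigh : ∀ n, ∀ s, 0 ≤ s → s ≤ T n → (F s (z n)).2.2 ≤ π - e := by
    intro n s hs hsT
    rcases hsT.lt_or_eq with h1 | h1
    · by_contra hcon
      push Not at hcon
      have h2 := S.zhigh' K (z := F s (z n)) (a := π - e)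
        (by rw [show π - e - π = -e by ring, abs_neg, abs_of_pos he0]; exact he) hcon.le
        (t := T n - s) (by linarith)
      rw [S.group, sub_add_cancel] at h2
      have h3 := hang n
      rw [gr] at h3
      linarith
    · rw [h1]
      exact hang n
  -- the times are bounded
  have hsin : 0 < sin e := sin_pos_of_pos_of_lt_pi he0 (by linarith [Real.pi_pos])
  have hTb : ∀ n, m * sin e * T n ≤ η n - (z n).2.1 := by
    intro n
    have h1 := (convex_Icc 0 (T n)).mul_sub_le_image_sub_of_le_deriv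
      (f := fun s => (F s (z n)).2.1) (S.contY (z n)).continuousOn
      (fun s _ => (S.dy s (z n)).differentiableAt.differentiableWithinAt) (C := m * sin e)
      (by
        intro s hs
        have hs' := interior_subset hs
        rw [(S.dy s (z n)).deriv]
        have a1 := hlow n s hs'.1
        have a2 := hhigh n s hs'.1 hs'.2
        have a3 : sin e ≤ sin (F s (z n)).2.2 := by
          rcases le_total (F s (z n)).2.2 (π / 2) with h3 | h3
          · exact sin_le_sin_of_le_of_le_pi_div_two (by linarith [Real.pi_pos]) h3 a1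
          · rw [← sin_pi_sub (F s (z n)).2.2]
            exact sin_le_sin_of_le_of_le_pi_div_two (by linarith [Real.pi_pos]) (by linarith)
              (by linarith)
        exact mul_le_mul (K.Bm _ _) a3 hsin.le (S.posB _ _).le) 0 ⟨le_rfl, hT0 n⟩ (T n)
      ⟨hT0 n, le_rfl⟩ (hT0 n)
    simp only [S.zero, sub_zero] at h1
    have h2 := (hD n).gr_y
    rw [gr] at h2
    rw [h2] at h1
    exact h1
  have hcv : Tendsto (fun n => η n - (z n).2.1) atTop (𝓝 (η0 - z0.2.1)) :=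
    hη.sub ((continuous_fst.comp continuous_snd).continuousAt.tendsto.comp hz)
  obtain ⟨R, hR⟩ := hcv.bddAbove_range
  have hms : 0 < m * sin e := mul_pos K.m0 hsin
  have hTR : ∀ n, T n ∈ Icc 0 (R / (m * sin e)) := by
    intro n
    refine ⟨hT0 n, ?_⟩
    rw [le_div_iff₀ hms, mul_comm]
    exact (hTb n).trans (hR ⟨n, rfl⟩)
  obtain ⟨T0, hT0', φ, hφ, hlim⟩ := isCompact_Icc.tendsto_subseq hTR
  have hzφ : Tendsto (fun n => z (φ n)) atTop (𝓝 z0) := hz.comp hφ.tendsto_atTop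
  have hFl : ∀ l : ℝ, Tendsto (fun n => F (l * T (φ n)) (z (φ n))) atTop (𝓝 (F (l * T0) z0)) := by
    intro l
    exact (S.cF.tendsto (l * T0, z0)).comp ((hlim.const_mul l).prodMk_nhds hzφ)
  refine ⟨T0, ?_, ?_⟩
  · intro s hs
    rw [uIcc_of_le hT0'.1] at hs
    obtain ⟨l, hl, hls⟩ : ∃ l ∈ Icc (0 : ℝ) 1, s = l * T0 := by
      rcases hT0'.1.lt_or_eq with h1 | h1
      · refine ⟨s / T0, ⟨div_nonneg hs.1 h1.le, (div_le_one h1).2 hs.2⟩, ?_⟩
        field_simp
      · refine ⟨0, ⟨le_rfl, zero_le_one⟩, ?_⟩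
        rw [← h1] at hs
        rw [zero_mul]
        exact le_antisymm hs.2 hs.1
    rw [hls]
    have hcθ : Tendsto (fun n => (F (l * T (φ n)) (z (φ n))).2.2) atTop
        (𝓝 (F (l * T0) z0).2.2) :=
      (continuous_snd.comp continuous_snd).continuousAt.tendsto.comp (hFl l)
    have g1 : e ≤ (F (l * T0) z0).2.2 := by
      apply ge_of_tendsto' hcθ
      intro n
      exact hlow _ _ (mul_nonneg hl.1 (hT0 _))
    have g2 : (F (l * T0) z0).2.2 ≤ π - e := by
      apply le_of_tendsto' hcθ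
      intro n
      apply hhigh _ _ (mul_nonneg hl.1 (hT0 _))
      calc l * T (φ n) ≤ 1 * T (φ n) := mul_le_mul_of_nonneg_right hl.2 (hT0 _)
        _ = T (φ n) := one_mul _
    constructor <;> linarith
  · have h1 := hFl 1
    have h2 : Tendsto (fun n => (F (1 * T (φ n)) (z (φ n))).2.1) atTop
        (𝓝 (F (1 * T0) z0).2.1) :=
      (continuous_fst.comp continuous_snd).continuousAt.tendsto.comp h1
    have h3 : (fun n => (F (1 * T (φ n)) (z (φ n))).2.1) = fun n => η (φ n) := by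
      funext n
      rw [one_mul]
      exact (hD (φ n)).gr_y
    rw [h3, one_mul] at h2
    exact tendsto_nhds_unique h2 (hη.comp hφ.tendsto_atTop)

end

end MP4c42bd.Mir
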