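import Mathlib
import Pool.Agent.Lib.MP_4c42bd_gt.Mir.Angle

set_option autoImplicit false

/-!
# The family of the symmetric orbits
-/

open Set Filter Topology Real

namespace MP4c42bd.Mir

/-- the central states -/
noncomputable def zz (u : ℝ) : St := (u, 0, π / 2)

/-- reached heights -/
def dm (F : ℝ → St → St) (u η : ℝ) : Prop := Dom F (zz u) η

/-- the coordinate `x` at the height `η` -/
noncomputable def X (F : ℝ → St → St) (u η : ℝ) : ℝ := (gr F (zz u) η).1

/-- the angle at the height `η` -/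
noncomputable def Ph (F : ℝ → St → St) (u η : ℝ) : ℝ := (gr F (zz u) η).2.2

/-- the slope -/
noncomputable def sl (A B : ℝ → ℝ → ℝ) (x y φ : ℝ) : ℝ := A x y * cos φ / (B x y * sin φ)

section
variable {A B : ℝ → ℝ → ℝ} {C : ℝ → ℝ → ℝ → ℝ} {F : ℝ → St → St} {ε c M m : ℝ}

theorem tr_int {v : St} (h : ∀ t z, F t (z + v) = F t z + v) (n : ℤ) :
    ∀ t z, F t (z + n • v) = F t z + n • v := by
  induction n using Int.induction_on with
  | zero => intro t z; simp
  | succ n ih =>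
    intro t z
    rw [add_zsmul, one_zsmul, ← add_assoc, h, ih, add_assoc]
  | pred n ih =>
    intro t z
    have e : (-(n : ℤ) - 1) • v = (-(n : ℤ)) • v - v := by
      rw [sub_eq_add_neg, add_zsmul, neg_one_zsmul, sub_eq_add_neg]
    have h1 := h t (z + ((-(n : ℤ)) • v - v))
    rw [add_assoc, sub_add_cancel, ih] at h1
    rw [e, ← add_sub_assoc (F t z), h1, add_sub_cancel_right]

theorem Sys.tr_x (S : Sys A B C F) (n : ℤ) (t : ℝ) (z : St) :
    F t (z + ((n : ℝ), 0, 0)) = F t z + ((n : ℝ), 0, 0) := by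
  have h := tr_int S.trx n t z
  have e : n • ((1 : ℝ), (0 : ℝ), (0 : ℝ)) = ((n : ℝ), 0, 0) := by
    simp
  rwa [e] at h

theorem Sys.tr_y (S : Sys A B C F) (n : ℤ) (t : ℝ) (z : St) :
    F t (z + (0, (n : ℝ), 0)) = F t z + (0, (n : ℝ), 0) := by
  have h := tr_int S.tryy n t z
  have e : n • ((0 : ℝ), (1 : ℝ), (0 : ℝ)) = (0, (n : ℝ), 0) := by
    simp
  rwa [e] at h

theorem zz_θ (u : ℝ) : 0 < (zz u).2.2 ∧ (zz u).2.2 < π :=
  ⟨by show 0 < π / 2; positivity, by show π / 2 < π; linarith [Real.pi_pos]⟩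

theorem r1_zz (u : ℝ) : r1 (zz u) = zz u := by
  simp only [r1, zz, neg_zero]
  congr 2
  ring

theorem Sys.fam_self (S : Sys A B C F) (u : ℝ) :
    dm F u 0 ∧ X F u 0 = u ∧ Ph F u 0 = π / 2 := by
  have h1 := S.dom_self (zz_θ u)
  have h2 := S.gr_self (zz_θ u)
  have e : (zz u).2.1 = 0 := rfl
  rw [e] at h1 h2
  exact ⟨h1, by rw [X, h2]; rfl, by rw [Ph, h2]; rfl⟩

theorem Sys.fam_neg (S : Sys A B C F) {u η : ℝ} (h : dm F u η) :
    dm F u (-η) ∧ X F u (-η) = X F u η ∧ Ph F u (-η) = π - Ph F u η := by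
  have h1 := S.gr_r1 h
  rw [r1_zz] at h1
  refine ⟨h1.1, ?_, ?_⟩
  · rw [X, h1.2]; rfl
  · rw [Ph, h1.2]; rfl

theorem Sys.fam_abs (S : Sys A B C F) {u η η' : ℝ} (h : dm F u η) (hη : |η'| ≤ |η|) :
    dm F u η' := by
  have h1 : dm F u |η| := by
    rcases abs_choice η with h2 | h2
    · rw [h2]; exact h
    · rw [h2]; exact (S.fam_neg h).1
  have h3 : dm F u |η'| := by
    apply S.dom_between h1
    show |η'| ∈ uIcc 0 |η|
    rw [uIcc_of_le (abs_nonneg _)]
    exact ⟨abs_nonneg _, hη⟩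
  rcases abs_choice η' with h2 | h2
  · rw [h2] at h3; exact h3
  · rw [h2] at h3
    have := (S.fam_neg h3).1
    rwa [neg_neg] at this

theorem Sys.fam_tr (S : Sys A B C F) {u η : ℝ} (n : ℤ) (h : dm F u η) :
    dm F (u + n) η ∧ X F (u + n) η = X F u η + n ∧ Ph F (u + n) η = Ph F u η := by
  have h1 := S.gr_equiv (fun z => z + ((n : ℝ), 0, 0)) 0 (fun t z => S.tr_x n t z)
    (fun z => by simp) (fun z => by simp) h
  have e : zz u + ((n : ℝ), 0, 0) = zz (u + n) := by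
    simp [zz]
  simp only [e, add_zero] at h1
  refine ⟨h1.1, ?_, ?_⟩
  · rw [X, h1.2]; rfl
  · rw [Ph, h1.2]; simp [Ph]

theorem Sys.fam_open (S : Sys A B C F) : IsOpen {p : ℝ × ℝ | dm F p.1 p.2} := by
  have hc : Continuous fun p : ℝ × ℝ => (zz p.1, p.2) := by
    unfold zz; fun_prop
  exact S.dom_open.preimage hc

theorem Sys.fam_X_cont (S : Sys A B C F) {u η : ℝ} (h : dm F u η) :
    ContinuousAt (fun p : ℝ × ℝ => X F p.1 p.2) (u, η) := by
  have hc : ContinuousAt (fun p : ℝ × ℝ => (zz p.1, p.2)) (u, η) := by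
    have : Continuous fun p : ℝ × ℝ => (zz p.1, p.2) := by
      unfold zz; fun_prop
    exact this.continuousAt
  have h1 : ContinuousAt (fun p : St × ℝ => gr F p.1 p.2) (zz u, η) := S.gr_cont h
  have h2 := ContinuousAt.comp (f := fun p : ℝ × ℝ => (zz p.1, p.2)) (x := (u, η)) h1 hc
  exact (continuous_fst.continuousAt).comp h2

theorem Sys.fam_Ph_cont (S : Sys A B C F) {u η : ℝ} (h : dm F u η) :
    ContinuousAt (fun p : ℝ × ℝ => Ph F p.1 p.2) (u, η) := by
  have hc : ContinuousAt (fun p : ℝ × ℝ => (zz p.1, p.2)) (u, η) := by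
    have : Continuous fun p : ℝ × ℝ => (zz p.1, p.2) := by
      unfold zz; fun_prop
    exact this.continuousAt
  have h1 : ContinuousAt (fun p : St × ℝ => gr F p.1 p.2) (zz u, η) := S.gr_cont h
  have h2 := ContinuousAt.comp (f := fun p : ℝ × ℝ => (zz p.1, p.2)) (x := (u, η)) h1 hc
  exact ((continuous_snd.comp continuous_snd).continuousAt).comp h2

theorem Sys.fam_X_cont1 (S : Sys A B C F) {u η : ℝ} (h : dm F u η) :
    ContinuousAt (fun r => X F u r) η :=
  (S.fam_X_cont h).comp (f := fun r : ℝ => (u, r)) (by fun_prop)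

theorem Sys.fam_Ph_cont1 (S : Sys A B C F) {u η : ℝ} (h : dm F u η) :
    ContinuousAt (fun r => Ph F u r) η :=
  (S.fam_Ph_cont h).comp (f := fun r : ℝ => (u, r)) (by fun_prop)

theorem Sys.fam_open1 (S : Sys A B C F) {u η : ℝ} (h : dm F u η) : ∀ᶠ r in 𝓝 η, dm F u r := by
  have : ContinuousAt (fun r : ℝ => (u, r)) η := by fun_prop
  exact this.eventually (S.fam_open.mem_nhds h)

theorem Sys.fam_X_deriv (S : Sys A B C F) {u η : ℝ} (h : dm F u η) :
    HasDerivAt (fun r => X F u r) (sl A B (X F u η) η (Ph F u η)) η := S.gr_x_deriv h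

theorem Sys.fam_Ph_pos (_ : Sys A B C F) {u η : ℝ} (h : dm F u η) :
    0 < Ph F u η ∧ Ph F u η < π := Dom.gr_θ h

theorem Sys.fam_low (S : Sys A B C F) (K : Cst A B C ε c M m) {u η : ℝ} (h : dm F u η)
    (hη : 0 ≤ η) : ε ≤ Ph F u η := by
  apply S.gr_low K h hη (by rw [abs_of_pos K.ε0])
  show ε ≤ π / 2
  linarith [K.ε1, Real.pi_pos]

theorem Sys.fam_succ (S : Sys A B C F) (K : Cst A B C ε c M m) {u η : ℝ} (h : dm F u (η + 1))
    (hη : 0 ≤ η) : Ph F u η < π - ε := by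
  apply S.gr_lt_of_succ K _ h
  apply S.fam_abs h
  rw [abs_of_nonneg hη, abs_of_nonneg (by linarith)]
  linarith

theorem Sys.fam_high_le (S : Sys A B C F) (K : Cst A B C ε c M m) {u η η' : ℝ}
    (h' : dm F u η') (h0 : 0 ≤ η) (hη : η ≤ η') {a : ℝ} (ha : |a - π| ≤ ε)
    (h1 : Ph F u η' ≤ a) : Ph F u η ≤ a := by
  apply S.gr_high_le K _ h' hη ha h1
  apply S.fam_abs h'
  rw [abs_of_nonneg h0, abs_of_nonneg (h0.trans hη)]
  exact hη

theorem Sys.fam_lim (S : Sys A B C F) (K : Cst A B C ε c M m) {u η : ℕ → ℝ} {u0 η0 : ℝ}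
    (hu : Tendsto u atTop (𝓝 u0)) (hη : Tendsto η atTop (𝓝 η0)) (h0 : ∀ n, 0 ≤ η n)
    (hD : ∀ n, dm F (u n) (η n)) (hang : ∀ n, Ph F (u n) (η n) ≤ π - ε) : dm F u0 η0 := by
  have hc : Continuous zz := by unfold zz; fun_prop
  refine S.dom_lim K (z := fun n => zz (u n)) ((hc.tendsto u0).comp hu) hη K.ε0 le_rfl ?_ h0 hD
    hang
  intro n
  show ε ≤ π / 2
  linarith [K.ε1, Real.pi_pos]

/-! ### No closed orbits -/

theorem Sys.noc_gr (S : Sys A B C F) (hN : NoC F) {z : St} {η : ℝ} (h : Dom F z η)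
    (h' : Dom F z (η + 1)) (hx : (gr F z (η + 1)).1 = (gr F z η).1) :
    (gr F z (η + 1)).2.2 ≠ (gr F z η).2.2 := by
  intro hθ
  obtain ⟨h1, h2⟩ := S.gr_trans' h h'
  have h3 := S.Tm_pos h1 (by rw [h.gr_y]; linarith)
  apply hN (gr F z η) (Tm F (gr F z η) (η + 1)) 1 0 h3 (by norm_num)
  have h4 : F (Tm F (gr F z η) (η + 1)) (gr F z η) = gr F z (η + 1) := h2
  rw [h4]
  have e1 := h.gr_y
  have e2 := h'.gr_y
  ext
  · simpa using hx
  · simp [e1, e2]
  · simpa using hθ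

theorem Sys.fam_noc (S : Sys A B C F) (hN : NoC F) {u η : ℝ} (h : dm F u η)
    (h' : dm F u (η + 1)) (hx : X F u (η + 1) = X F u η) : Ph F u (η + 1) ≠ Ph F u η :=
  S.noc_gr hN h h' hx

/-! ### Slopes -/

theorem sl_lt (S : Sys A B C F) (x y : ℝ) {φ φ' : ℝ} (h0 : 0 < φ) (h : φ < φ') (hπ : φ' < π) :
    sl A B x y φ' < sl A B x y φ := by
  have hs : 0 < sin φ := sin_pos_of_pos_of_lt_pi h0 (h.trans hπ)
  have hs' : 0 < sin φ' := sin_pos_of_pos_of_lt_pi (h0.trans h) hπ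
  have hA := S.posA x y
  have hB := S.posB x y
  have h1 : 0 < sin (φ' - φ) := sin_pos_of_pos_of_lt_pi (by linarith) (by linarith)
  rw [sin_sub] at h1
  unfold sl
  rw [div_lt_div_iff₀ (by positivity) (by positivity)]
  have h2 : 0 < A x y * B x y * (sin φ' * cos φ - cos φ' * sin φ) := by positivity
  nlinarith

theorem sl_inj (S : Sys A B C F) (x y : ℝ) {φ φ' : ℝ} (h0 : 0 < φ) (h0' : 0 < φ') (hπ : φ < π)
    (hπ' : φ' < π) (h : sl A B x y φ = sl A B x y φ') : φ = φ' := by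
  rcases lt_trichotomy φ φ' with h1 | h1 | h1
  · exact absurd h (sl_lt S x y h0 h1 hπ').ne'
  · exact h1
  · exact absurd h (sl_lt S x y h0' h1 hπ).ne

theorem sl_half (x y : ℝ) : sl A B x y (π / 2) = 0 := by
  simp [sl]

theorem sl_neg (S : Sys A B C F) (x y : ℝ) {φ : ℝ} (h : π / 2 < φ) (hπ : φ < π) :
    sl A B x y φ < 0 := by
  rw [← sl_half (A := A) (B := B) x y]
  exact sl_lt S x y (by positivity) h hπ

theorem sl_pos (S : Sys A B C F) (x y : ℝ) {φ : ℝ} (h0 : 0 < φ) (h : φ < π / 2) :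
    0 < sl A B x y φ := by
  rw [← sl_half (A := A) (B := B) x y]
  exact sl_lt S x y h0 h (by linarith [Real.pi_pos])

theorem sl_eq_zero (S : Sys A B C F) (x y : ℝ) {φ : ℝ} (h0 : 0 < φ) (hπ : φ < π)
    (h : sl A B x y φ = 0) : φ = π / 2 := by
  rw [← sl_half (A := A) (B := B) x y] at h
  exact sl_inj S x y h0 (by positivity) hπ (by linarith [Real.pi_pos]) h

theorem sl_pery (S : Sys A B C F) (x y φ : ℝ) : sl A B x (y + 1) φ = sl A B x y φ := by
  unfold sl
  rw [(S.pery x y 0).1, (S.pery x y 0).2.1]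

/-- comparison of slopes at heights which differ by one -/
theorem Sys.fam_noc' (S : Sys A B C F) (hN : NoC F) {u η : ℝ} (h : dm F u η)
    (h' : dm F u (η + 1)) (hx : X F u (η + 1) = X F u η) :
    sl A B (X F u (η + 1)) (η + 1) (Ph F u (η + 1)) ≠ sl A B (X F u η) η (Ph F u η) := by
  intro h1
  rw [hx, sl_pery S] at h1
  exact S.fam_noc hN h h' hx (sl_inj S _ _ (S.fam_Ph_pos h').1 (S.fam_Ph_pos h).1
    (S.fam_Ph_pos h').2 (S.fam_Ph_pos h).2 h1)

/-! ### The barrier `x = 0` -/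

theorem sign_near {g : ℝ → ℝ} {g' a : ℝ} (hg : HasDerivAt g g' a) (h : 0 < g') :
    ∃ δ > 0, (∀ r, a < r → r < a + δ → g a < g r) ∧ (∀ r, a - δ < r → r < a → g r < g a) := by
  have h1 := hasDerivAt_iff_tendsto_slope.1 hg
  have h2 : ∀ᶠ r in 𝓝[≠] a, 0 < slope g a r := h1.eventually (lt_mem_nhds h)
  rw [eventually_nhdsWithin_iff, Metric.eventually_nhds_iff] at h2
  obtain ⟨δ, hδ, h3⟩ := h2
  refine ⟨δ, hδ, ?_, ?_⟩
  · intro r hr1 hr2
    have h4 := h3 (y := r) (by rw [Real.dist_eq, abs_lt]; constructor <;> linarith)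
      (by simp only [mem_compl_iff, mem_singleton_iff]; exact hr1.ne')
    rw [slope_def_field] at h4
    have h5 := (div_pos_iff_of_pos_right (by linarith : 0 < r - a)).1 h4
    linarith
  · intro r hr1 hr2
    have h4 := h3 (y := r) (by rw [Real.dist_eq, abs_lt]; constructor <;> linarith)
      (by simp only [mem_compl_iff, mem_singleton_iff]; exact hr2.ne)
    rw [slope_def_field] at h4
    by_contra hcon
    push Not at hcon
    have h5 := div_nonpos_of_nonneg_of_nonpos (by linarith : 0 ≤ g r - g a)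
      (by linarith : r - a ≤ 0)
    linarith

theorem Sys.barrier (S : Sys A B C F) {u η : ℝ} (h : dm F u η) (hx : X F u η = 0)
    (hφ : Ph F u η = π / 2) :
    ∃ δ > 0, (∀ r, η < r → r < η + δ → X F u r < 0) ∧ (∀ r, η - δ < r → r < η → X F u r < 0) := by
  have h1 := S.gr_θ_deriv h
  have hd : 0 < C (gr F (zz u) η).1 η (gr F (zz u) η).2.2 /
      (B (gr F (zz u) η).1 η * sin (gr F (zz u) η).2.2) := by
    have e1 : (gr F (zz u) η).1 = 0 := hx
    have e2 : (gr F (zz u) η).2.2 = π / 2 := hφ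
    rw [e1, e2, sin_pi_div_two, mul_one]
    exact div_pos (S.Cb η) (S.posB _ _)
  obtain ⟨δ1, hδ1, h2, h3⟩ := sign_near h1 hd
  obtain ⟨δ2, hδ2, h4⟩ := Metric.eventually_nhds_iff.1 (S.fam_open1 h)
  have hdm : ∀ r, |r - η| < δ2 → dm F u r := fun r hr => h4 (by rwa [Real.dist_eq])
  set δ := min δ1 δ2 with hδ
  have hδ0 : 0 < δ := lt_min hδ1 hδ2
  have d1 : δ ≤ δ1 := min_le_left _ _
  have d2 : δ ≤ δ2 := min_le_right _ _
  have hφ' : (gr F (zz u) η).2.2 = π / 2 := hφ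
  refine ⟨δ, hδ0, ?_, ?_⟩
  · intro r hr1 hr2
    have hdm' : ∀ s ∈ Icc η r, dm F u s := by
      intro s hs
      apply hdm
      rw [abs_lt]
      constructor <;> linarith [hs.1, hs.2]
    have h5 : StrictAntiOn (fun s => X F u s) (Icc η r) := by
      apply strictAntiOn_of_deriv_neg (convex_Icc η r)
      · intro s hs
        exact (S.fam_X_cont1 (hdm' s hs)).continuousWithinAt
      · intro s hs
        rw [interior_Icc] at hs
        have hs' := hdm' s ⟨hs.1.le, hs.2.le⟩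
        rw [(S.fam_X_deriv hs').deriv]
        apply sl_neg S _ _ _ (S.fam_Ph_pos hs').2
        have := h2 s hs.1 (by linarith [hs.2])
        rw [hφ'] at this
        exact this
    have := h5 ⟨le_rfl, hr1.le⟩ ⟨hr1.le, le_rfl⟩ hr1
    simp only [hx] at this
    exact this
  · intro r hr1 hr2
    have hdm' : ∀ s ∈ Icc r η, dm F u s := by
      intro s hs
      apply hdm
      rw [abs_lt]
      constructor <;> linarith [hs.1, hs.2]
    have h5 : StrictMonoOn (fun s => X F u s) (Icc r η) := by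
      apply strictMonoOn_of_deriv_pos (convex_Icc r η)
      · intro s hs
        exact (S.fam_X_cont1 (hdm' s hs)).continuousWithinAt
      · intro s hs
        rw [interior_Icc] at hs
        have hs' := hdm' s ⟨hs.1.le, hs.2.le⟩
        rw [(S.fam_X_deriv hs').deriv]
        apply sl_pos S _ _ (S.fam_Ph_pos hs').1
        have := h3 s (by linarith [hs.1]) hs.2
        rw [hφ'] at this
        exact this
    have := h5 ⟨le_rfl, hr2.le⟩ ⟨hr2.le, le_rfl⟩ hr2
    simp only [hx] at this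
    exact this

end

end MP4c42bd.Mir
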