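import Mathlib
import Pool.Agent.Lib.MP_4c42bd_gt.Mir.Fam

set_option autoImplicit false

/-!
# The angle at the height `1/2`, trapped orbits
-/

open Set Filter Topology Real

namespace MP4c42bd.Mir

section
variable {A B : ℝ → ℝ → ℝ} {C : ℝ → ℝ → ℝ → ℝ} {F : ℝ → St → St} {ε c M m : ℝ}

/-- touching the line `x = 0` from the right -/
theorem Sys.touch (S : Sys A B C F) {u p q η : ℝ} (hpq : p < q)
    (hdm : ∀ r ∈ Icc p q, dm F u r) (h0 : ∀ r ∈ Icc p q, 0 ≤ X F u r) (hη : η ∈ Icc p q)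
    (hx : X F u η = 0) : (η = p ∧ Ph F u η < π / 2) ∨ (η = q ∧ π / 2 < Ph F u η) := by
  have hd := hdm η hη
  have hder := S.fam_X_deriv hd
  rcases lt_trichotomy (Ph F u η) (π / 2) with h1 | h1 | h1
  · left
    refine ⟨?_, h1⟩
    by_contra hcon
    have hlt : p < η := lt_of_le_of_ne hη.1 (Ne.symm hcon)
    have h2 := sl_pos S (X F u η) η (S.fam_Ph_pos hd).1 h1
    obtain ⟨δ, hδ, -, h3⟩ := sign_near hder h2
    have h4 := h3 (max p (η - δ / 2)) (by
      refine lt_of_lt_of_le ?_ (le_max_right _ _); linarith) (max_lt hlt (by linarith))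
    have h5 := h0 (max p (η - δ / 2)) ⟨le_max_left _ _, max_le hpq.le (by linarith [hη.2])⟩
    linarith
  · exfalso
    obtain ⟨δ, hδ, h2, h3⟩ := S.barrier hd hx h1
    rcases hη.2.lt_or_eq with h4 | h4
    · have h5 := h2 (min q (η + δ / 2)) (lt_min h4 (by linarith))
        (lt_of_le_of_lt (min_le_right _ _) (by linarith))
      have h6 := h0 (min q (η + δ / 2)) ⟨le_min hpq.le (by linarith [hη.1]), min_le_left _ _⟩
      linarith
    · have hlt : p < η := by rw [h4]; exact hpq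
      have h5 := h3 (max p (η - δ / 2)) (by
        refine lt_of_lt_of_le ?_ (le_max_right _ _); linarith) (max_lt hlt (by linarith))
      have h6 := h0 (max p (η - δ / 2)) ⟨le_max_left _ _, max_le hpq.le (by linarith [hη.2])⟩
      linarith
  · right
    refine ⟨?_, h1⟩
    by_contra hcon
    have hlt : η < q := lt_of_le_of_ne hη.2 hcon
    have h2 := sl_neg S (X F u η) η h1 (S.fam_Ph_pos hd).2
    have hder' : HasDerivAt (fun r => - X F u r) (-sl A B (X F u η) η (Ph F u η)) η := hder.neg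
    obtain ⟨δ, hδ, h3, -⟩ := sign_near hder' (by linarith)
    have h4 := h3 (min q (η + δ / 2)) (lt_min hlt (by linarith))
      (lt_of_le_of_lt (min_le_right _ _) (by linarith))
    have h5 := h0 (min q (η + δ / 2)) ⟨le_min hpq.le (by linarith [hη.1]), min_le_left _ _⟩
    linarith

theorem Sys.X_bound (S : Sys A B C F) {u p q : ℝ} (hdm : ∀ r ∈ Icc p q, dm F u r) :
    ∃ N : ℕ, ∀ r ∈ Icc p q, |X F u r| < N := by
  have hc : ContinuousOn (fun r => X F u r) (Icc p q) := fun r hr =>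
    (S.fam_X_cont1 (hdm r hr)).continuousWithinAt
  obtain ⟨R, hR⟩ := isCompact_Icc.exists_bound_of_continuousOn hc
  obtain ⟨N, hN⟩ := exists_nat_gt R
  exact ⟨N, fun r hr => lt_of_le_of_lt (hR r hr) hN⟩

theorem Sys.ev_X (S : Sys A B C F) {u p q : ℝ} (hdm : ∀ r ∈ Icc p q, dm F u r)
    (h0 : ∀ r ∈ Icc p q, 0 < X F u r) :
    ∀ᶠ v in 𝓝 u, ∀ r ∈ Icc p q, dm F v r ∧ 0 < X F v r := by
  apply isCompact_Icc.eventually_forall_of_forall_eventually
  intro r hr
  have h1 := S.fam_X_cont (hdm r hr)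
  have h2 : ∀ᶠ z : ℝ × ℝ in 𝓝 (u, r), 0 < X F z.1 z.2 := h1.eventually (lt_mem_nhds (h0 r hr))
  have h3 : ∀ᶠ z : ℝ × ℝ in 𝓝 (u, r), dm F z.1 z.2 := S.fam_open.mem_nhds (hdm r hr)
  exact h3.and h2

theorem Sys.ev_X' (S : Sys A B C F) {u p q : ℝ} (hdm : ∀ r ∈ Icc p q, dm F u r)
    (h0 : ∀ r ∈ Icc p q, X F u r < 0) :
    ∀ᶠ v in 𝓝 u, ∀ r ∈ Icc p q, dm F v r ∧ X F v r < 0 := by
  apply isCompact_Icc.eventually_forall_of_forall_eventually
  intro r hr
  have h1 := S.fam_X_cont (hdm r hr)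
  have h2 : ∀ᶠ z : ℝ × ℝ in 𝓝 (u, r), X F z.1 z.2 < 0 := h1.eventually (gt_mem_nhds (h0 r hr))
  have h3 : ∀ᶠ z : ℝ × ℝ in 𝓝 (u, r), dm F z.1 z.2 := S.fam_open.mem_nhds (hdm r hr)
  exact h3.and h2

theorem Sys.fam_X_contu (S : Sys A B C F) {u η : ℝ} (h : dm F u η) :
    ContinuousAt (fun v => X F v η) u :=
  (S.fam_X_cont h).comp (f := fun v : ℝ => (v, η)) (by fun_prop)

theorem Sys.fam_Ph_contu (S : Sys A B C F) {u η : ℝ} (h : dm F u η) :
    ContinuousAt (fun v => Ph F v η) u :=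
  (S.fam_Ph_cont h).comp (f := fun v : ℝ => (v, η)) (by fun_prop)

theorem Sys.fam_openu (S : Sys A B C F) {u η : ℝ} (h : dm F u η) : ∀ᶠ v in 𝓝 u, dm F v η := by
  have : ContinuousAt (fun v : ℝ => (v, η)) u := by fun_prop
  exact this.eventually (S.fam_open.mem_nhds h)

/-- Lemma N: the orbits of the central states arrive at the height `1/2` from the left. -/
theorem Sys.lemN (S : Sys A B C F) (K : Cst A B C ε c M m) (hN : NoC F) {u : ℝ}
    (hu : dm F u (1 / 2)) : π / 2 < Ph F u (1 / 2) := by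
  have hne : ∀ v, dm F v (1 / 2) → Ph F v (1 / 2) ≠ π / 2 := by
    intro v hv h1
    obtain ⟨a1, a2, a3⟩ := S.fam_neg hv
    have e : -(1 / 2 : ℝ) + 1 = 1 / 2 := by norm_num
    refine S.fam_noc hN a1 (by rw [e]; exact hv) (by rw [e]; exact a2.symm) ?_
    rw [e, a3, h1]
    ring
  by_contra hcon
  push Not at hcon
  have hlt : Ph F u (1 / 2) < π / 2 := lt_of_le_of_ne hcon (hne u hu)
  have hπε : π / 2 ≤ π - ε := by linarith [K.ε1, Real.pi_pos]
  -- every orbit arrives with a small angle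
  have hG : {v | dm F v (1 / 2) ∧ Ph F v (1 / 2) < π / 2} = univ := by
    refine IsClopen.eq_univ ?_ ⟨u, hu, hlt⟩
    constructor
    · apply IsSeqClosed.isClosed
      intro v v0 hv hv0
      have h1 : dm F v0 (1 / 2) := S.fam_lim K hv0 (tendsto_const_nhds (x := (1 / 2 : ℝ)))
        (fun _ => by norm_num) (fun n => (hv n).1) (fun n => (hv n).2.le.trans hπε)
      refine ⟨h1, lt_of_le_of_ne ?_ (hne v0 h1)⟩
      exact le_of_tendsto' ((S.fam_Ph_contu h1).tendsto.comp hv0) fun n => (hv n).2.le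
    · rw [isOpen_iff_mem_nhds]
      rintro v ⟨h1, h2⟩
      exact (S.fam_openu h1).and ((S.fam_Ph_contu h1).eventually (gt_mem_nhds h2))
  have hall : ∀ v, dm F v (1 / 2) ∧ Ph F v (1 / 2) < π / 2 := fun v => by
    have : v ∈ {v | dm F v (1 / 2) ∧ Ph F v (1 / 2) < π / 2} := by rw [hG]; trivial
    exact this
  have hdm : ∀ v, ∀ r ∈ Icc (0 : ℝ) (1 / 2), dm F v r := by
    intro v r hr
    apply S.fam_abs (hall v).1
    rw [abs_of_nonneg hr.1, abs_of_nonneg (by norm_num)]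
    exact hr.2
  have hQ : {v | ∀ r ∈ Icc (0 : ℝ) (1 / 2), 0 < X F v r} = univ := by
    apply IsClopen.eq_univ
    · constructor
      · apply IsSeqClosed.isClosed
        intro v v0 hv hv0
        have h1 : ∀ r ∈ Icc (0 : ℝ) (1 / 2), 0 ≤ X F v0 r := by
          intro r hr
          exact ge_of_tendsto' ((S.fam_X_contu (hdm v0 r hr)).tendsto.comp hv0)
            (fun n => (hv n r hr).le)
        intro r hr
        refine lt_of_le_of_ne (h1 r hr) ?_
        intro h2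
        rcases S.touch (p := 0) (q := 1 / 2) (by norm_num) (hdm v0) h1 hr h2.symm with
          ⟨h3, h4⟩ | ⟨h3, h4⟩
        · rw [h3, (S.fam_self v0).2.2] at h4
          exact lt_irrefl _ h4
        · rw [h3] at h4
          linarith [(hall v0).2]
      · rw [isOpen_iff_mem_nhds]
        intro v hv
        exact (S.ev_X (hdm v) hv).mono fun w hw r hr => (hw r hr).2
    · obtain ⟨N, hN'⟩ := S.X_bound (hdm 0)
      refine ⟨0 + ((N : ℤ) : ℝ), ?_⟩
      intro r hr
      rw [(S.fam_tr (N : ℤ) (hdm 0 r hr)).2.1]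
      have := hN' r hr
      rw [abs_lt] at this
      push_cast
      linarith [this.1]
  have h0 : (0 : ℝ) ∈ {v | ∀ r ∈ Icc (0 : ℝ) (1 / 2), 0 < X F v r} := by rw [hQ]; trivial
  have := h0 0 (show (0 : ℝ) ∈ Icc (0 : ℝ) (1 / 2) from ⟨le_rfl, by norm_num⟩)
  rw [(S.fam_self 0).2.1] at this
  exact lt_irrefl _ this

/-! ### Trapped orbits -/

theorem Sys.sl_bound (S : Sys A B C F) (K : Cst A B C ε c M m) (x y : ℝ) {φ : ℝ} (h1 : ε ≤ φ)
    (h2 : φ ≤ π - ε) : |sl A B x y φ| ≤ M / (m * sin ε) := by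
  have he : ε < π / 4 := K.ε1
  have hε := K.ε0
  have hsin : 0 < sin ε := sin_pos_of_pos_of_lt_pi hε (by linarith [Real.pi_pos])
  have a3 : sin ε ≤ sin φ := by
    rcases le_total φ (π / 2) with h3 | h3
    · exact sin_le_sin_of_le_of_le_pi_div_two (by linarith [Real.pi_pos]) h3 h1
    · rw [← sin_pi_sub φ]
      exact sin_le_sin_of_le_of_le_pi_div_two (by linarith [Real.pi_pos]) (by linarith)
        (by linarith)
  have hA := S.posA x y
  have hB := S.posB x y
  have hm := K.m0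
  unfold sl
  rw [abs_div, abs_mul, abs_mul, abs_of_pos hA, abs_of_pos hB, abs_of_pos (hsin.trans_le a3)]
  have h4 := abs_cos_le_one φ
  have h5 : m * sin ε ≤ B x y * sin φ := mul_le_mul (K.Bm _ _) a3 hsin.le hB.le
  have h6 : A x y * |cos φ| ≤ M := by
    have := K.AM x y
    have h7 := abs_nonneg (cos φ)
    nlinarith
  exact div_le_div₀ K.M0.le h6 (by positivity) h5

/-- A trapped orbit which moves to the left goes to `-∞`. -/
theorem Sys.lemLim (S : Sys A B C F) (K : Cst A B C ε c M m) (hN : NoC F) {u : ℝ}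
    (htrap : ∀ η, 0 ≤ η → dm F u η) (hdec : ∀ a, 0 ≤ a → X F u (a + 1) < X F u a) :
    ∃ η₀, 0 ≤ η₀ ∧ ∀ η ∈ Icc η₀ (η₀ + 1), X F u η < 0 := by
  by_contra hcon
  push Not at hcon
  set L := M / (m * sin ε) with hL
  have hang : ∀ η, 0 ≤ η → ε ≤ Ph F u η ∧ Ph F u η ≤ π - ε := fun η hη =>
    ⟨S.fam_low K (htrap η hη) hη, (S.fam_succ K (htrap (η + 1) (by linarith)) hη).le⟩
  have hsl : ∀ η, 0 ≤ η → |sl A B (X F u η) η (Ph F u η)| ≤ L := fun η hη =>
    S.sl_bound K _ _ (hang η hη).1 (hang η hη).2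
  have hlip : ∀ a b, 0 ≤ a → a ≤ b → |X F u b - X F u a| ≤ L * (b - a) := by
    intro a b ha hab
    have h1 := (convex_Icc a b).norm_image_sub_le_of_norm_hasDerivWithin_le
      (f := fun r => X F u r) (f' := fun r => sl A B (X F u r) r (Ph F u r)) (C := L)
      (fun r hr => (S.fam_X_deriv (htrap r (ha.trans hr.1))).hasDerivWithinAt)
      (fun r hr => hsl r (ha.trans hr.1)) (x := a) (y := b) ⟨le_rfl, hab⟩ ⟨hab, le_rfl⟩
    rw [Real.norm_eq_abs, Real.norm_eq_abs, abs_of_nonneg (by linarith : 0 ≤ b - a)] at h1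
    exact h1
  have hL0 : 0 ≤ L := (abs_nonneg _).trans (hsl 0 le_rfl)
  have hlow : ∀ y, 0 ≤ y → -L ≤ X F u y := by
    intro y hy
    obtain ⟨η, hη, hη'⟩ := hcon y hy
    have h1 := hlip y η hy hη.1
    rw [abs_le] at h1
    have h2 : L * (η - y) ≤ L * 1 := mul_le_mul_of_nonneg_left (by linarith [hη.2]) hL0
    linarith [h1.2]
  -- the limits
  have hanti : ∀ y, 0 ≤ y → Antitone fun n : ℕ => X F u (y + n) := by
    intro y hy
    apply antitone_nat_of_succ_le
    intro n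
    have h1 := hdec (y + n) (by positivity)
    rw [show y + ((n + 1 : ℕ) : ℝ) = y + n + 1 by push_cast; ring]
    exact h1.le
  have hbdd : ∀ y, 0 ≤ y → BddBelow (range fun n : ℕ => X F u (y + n)) := by
    intro y hy
    refine ⟨-L, ?_⟩
    rintro _ ⟨n, rfl⟩
    exact hlow _ (by positivity)
  set ℓ : ℝ → ℝ := fun y => ⨅ n : ℕ, X F u (y + n) with hℓ
  have hlim : ∀ y, 0 ≤ y → Tendsto (fun n : ℕ => X F u (y + n)) atTop (𝓝 (ℓ y)) :=
    fun y hy => tendsto_atTop_ciInf (hanti y hy) (hbdd y hy)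
  have hper : ∀ y, 0 ≤ y → ℓ (y + 1) = ℓ y := by
    intro y hy
    have h1 := hlim (y + 1) (by linarith)
    have h2 := (hlim y hy).comp (tendsto_add_atTop_nat 1)
    have e : (fun n : ℕ => X F u (y + 1 + n)) = (fun n : ℕ => X F u (y + n)) ∘ fun a => a + 1 := by
      funext n
      simp only [Function.comp]
      congr 1
      push_cast; ring
    rw [e] at h1
    exact tendsto_nhds_unique h1 h2
  -- the limit orbit
  obtain ⟨p, hp, φ, hφ, hpl⟩ := isCompact_Icc.tendsto_subseq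
    (x := fun n : ℕ => Ph F u n) (fun n => hang n (by positivity))
  set w : ℕ → St := fun n => gr F (zz u) n + (0, ((-(n : ℤ) : ℤ) : ℝ), 0) with hw
  have hwy : ∀ n, (w n).2.1 = 0 := by
    intro n
    have h1 : (gr F (zz u) (n : ℝ)).2.1 = n := (htrap n (by positivity)).gr_y
    simp [hw, h1]
  have hwx : ∀ n, (w n).1 = X F u n := fun n => by simp [hw, X]
  have hwθ : ∀ n, (w n).2.2 = Ph F u n := fun n => by simp [hw, Ph]
  set w0 : St := (ℓ 0, 0, p) with hw0
  have hwl : Tendsto (fun n => w (φ n)) atTop (𝓝 w0) := by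
    have h1 : Tendsto (fun n => X F u (φ n)) atTop (𝓝 (ℓ 0)) := by
      have := (hlim 0 le_rfl).comp hφ.tendsto_atTop
      simpa [Function.comp_def] using this
    have h2 : (fun n => w (φ n)) = fun n => (X F u (φ n), (0 : ℝ), Ph F u (φ n)) := by
      funext n
      ext
      · exact hwx _
      · exact hwy _
      · exact hwθ _
    rw [h2]
    exact h1.prodMk_nhds (tendsto_const_nhds.prodMk_nhds hpl)
  have hwd : ∀ (n : ℕ) (y : ℝ), 0 ≤ y → Dom F (w n) y ∧
      gr F (w n) y = gr F (zz u) (n + y) + (0, ((-(n : ℤ) : ℤ) : ℝ), 0) := by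
    intro n y hy
    have h1 := S.gr_trans' (htrap n (by positivity)) (htrap (n + y) (by positivity))
    have h2 := S.gr_equiv (fun z => z + (0, ((-(n : ℤ) : ℤ) : ℝ), 0)) ((-(n : ℤ) : ℤ) : ℝ)
      (fun t z => S.tr_y _ t z) (fun z => by simp) (fun z => by simp) h1.1
    have e : (n : ℝ) + y + ((-(n : ℤ) : ℤ) : ℝ) = y := by push_cast; ring
    rw [e] at h2
    exact ⟨h2.1, by rw [h2.2, h1.2]⟩
  have hdom0 : ∀ y, 0 ≤ y → Dom F w0 y := by
    intro y hy
    refine S.dom_lim K hwl (tendsto_const_nhds (x := y)) K.ε0 le_rfl ?_ ?_ ?_ ?_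
    · intro n
      rw [hwθ]
      exact (hang _ (by positivity)).1
    · intro n
      rw [hwy]
      exact hy
    · intro n
      exact (hwd (φ n) y hy).1
    · intro n
      rw [(hwd (φ n) y hy).2]
      have := (hang ((φ n : ℝ) + y) (by positivity)).2
      simpa [Ph] using this
  have hx0 : ∀ y, 0 ≤ y → (gr F w0 y).1 = ℓ y := by
    intro y hy
    have h1 := S.gr_cont (hdom0 y hy)
    have h2 : Tendsto (fun n => gr F (w (φ n)) y) atTop (𝓝 (gr F w0 y)) :=
      h1.tendsto.comp (hwl.prodMk_nhds tendsto_const_nhds)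
    have h3 : Tendsto (fun n => (gr F (w (φ n)) y).1) atTop (𝓝 (gr F w0 y).1) :=
      (continuous_fst.tendsto _).comp h2
    have h4 : (fun n => (gr F (w (φ n)) y).1) = (fun n : ℕ => X F u (y + n)) ∘ φ := by
      funext n
      rw [(hwd (φ n) y hy).2]
      simp [X, add_comm]
    rw [h4] at h3
    exact tendsto_nhds_unique h3 ((hlim y hy).comp hφ.tendsto_atTop)
  -- compare the slopes
  have d1 := S.gr_x_deriv (hdom0 1 zero_le_one)
  have d2 := S.gr_x_deriv (hdom0 (1 + 1) (by norm_num))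
  have d3 : HasDerivAt (fun r => (gr F w0 (r + 1)).1) (A (gr F w0 (1 + 1)).1 (1 + 1) *
      cos (gr F w0 (1 + 1)).2.2 / (B (gr F w0 (1 + 1)).1 (1 + 1) *
      sin (gr F w0 (1 + 1)).2.2)) 1 := by
    have := d2.comp_add_const 1 1
    exact this
  have hev : (fun r => (gr F w0 (r + 1)).1) =ᶠ[𝓝 1] fun r => (gr F w0 r).1 := by
    filter_upwards [lt_mem_nhds (zero_lt_one : (0 : ℝ) < 1)] with r hr
    rw [hx0 _ (by linarith), hx0 _ hr.le, hper _ hr.le]
  have d4 := d3.congr_of_eventuallyEq hev.symm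
  have h5 := d4.unique d1
  have h6 : (gr F w0 (1 + 1)).1 = (gr F w0 1).1 := by
    rw [hx0 _ (by norm_num), hx0 _ zero_le_one, hper _ zero_le_one]
  have h7 : sl A B (gr F w0 1).1 1 (gr F w0 (1 + 1)).2.2 = sl A B (gr F w0 1).1 1
      (gr F w0 1).2.2 := by
    rw [← sl_pery S, ← h6]
    rw [h6] at h5 ⊢
    exact h5
  have g1 := (hdom0 (1 + 1) (by norm_num)).gr_θ
  have g2 := (hdom0 1 zero_le_one).gr_θ
  exact S.noc_gr hN (hdom0 1 zero_le_one) (hdom0 (1 + 1) (by norm_num)) h6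
    (sl_inj S _ _ g1.1 g2.1 g1.2 g2.2 h7)

end

end MP4c42bd.Mir
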