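import Mathlib
import Pool.Agent.Lib.MP_4c42bd_gt.Mir.Lim

set_option autoImplicit false

/-!
# The symmetric orbits move to the left
-/

open Set Filter Topology Real

namespace MP4c42bd.Mir

section
variable {A B : ℝ → ℝ → ℝ} {C : ℝ → ℝ → ℝ → ℝ} {F : ℝ → St → St} {ε c M m : ℝ}

/-- the slope along the family -/
noncomputable def sF (A B : ℝ → ℝ → ℝ) (F : ℝ → St → St) (u a : ℝ) : ℝ :=
  sl A B (X F u a) a (Ph F u a)

theorem Sys.sF_cont (S : Sys A B C F) {u a : ℝ} (h : dm F u a) :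
    ContinuousAt (fun p : ℝ × ℝ => sF A B F p.1 p.2) (u, a) := by
  have h1 := S.fam_X_cont h
  have h2 := S.fam_Ph_cont h
  have h3 : ContinuousAt (fun p : ℝ × ℝ => A (X F p.1 p.2) p.2) (u, a) :=
    ContinuousAt.comp (g := fun z : ℝ × ℝ => A z.1 z.2)
      (f := fun p : ℝ × ℝ => (X F p.1 p.2, p.2)) (x := (u, a)) S.cA.continuousAt
      (h1.prodMk continuousAt_snd)
  have h4 : ContinuousAt (fun p : ℝ × ℝ => B (X F p.1 p.2) p.2) (u, a) :=
    ContinuousAt.comp (g := fun z : ℝ × ℝ => B z.1 z.2)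
      (f := fun p : ℝ × ℝ => (X F p.1 p.2, p.2)) (x := (u, a)) S.cB.continuousAt
      (h1.prodMk continuousAt_snd)
  unfold sF sl
  refine ContinuousAt.div (h3.mul (continuous_cos.continuousAt.comp h2))
    (h4.mul (continuous_sin.continuousAt.comp h2)) ?_
  exact (mul_pos (S.posB _ _)
    (sin_pos_of_pos_of_lt_pi (S.fam_Ph_pos h).1 (S.fam_Ph_pos h).2)).ne'

theorem abs_le_succ {a : ℝ} (h : -(1 / 2) ≤ a) : |a| ≤ |a + 1| := by
  rw [abs_of_nonneg (by linarith : 0 ≤ a + 1), abs_le]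
  constructor <;> linarith

theorem Sys.dm_pred (S : Sys A B C F) {u a : ℝ} (h : dm F u (a + 1)) (ha : -(1 / 2) ≤ a) :
    dm F u a := S.fam_abs h (abs_le_succ ha)

theorem Sys.dm_half (S : Sys A B C F) {u a : ℝ} (h : dm F u (a + 1)) (ha : -(1 / 2) ≤ a) :
    dm F u (1 / 2) := by
  apply S.fam_abs h
  rw [abs_of_nonneg (by linarith : 0 ≤ a + 1), abs_of_nonneg (by norm_num)]
  linarith

theorem Sys.dm_le (S : Sys A B C F) {u a b : ℝ} (h : dm F u (a + 1)) (hb : -(1 / 2) ≤ b)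
    (hba : b ≤ a) : dm F u (b + 1) := by
  apply S.fam_abs h
  rw [abs_of_nonneg (by linarith : 0 ≤ a + 1), abs_of_nonneg (by linarith)]
  linarith

/-- the difference -/
noncomputable def Df (F : ℝ → St → St) (u a : ℝ) : ℝ := X F u (a + 1) - X F u a

theorem Sys.Df_cont (S : Sys A B C F) {u a : ℝ} (h : dm F u (a + 1)) (ha : -(1 / 2) ≤ a) :
    ContinuousAt (fun p : ℝ × ℝ => Df F p.1 p.2) (u, a) := by
  have h1 := S.fam_X_cont (S.dm_pred h ha)
  have h2 : ContinuousAt (fun p : ℝ × ℝ => X F p.1 (p.2 + 1)) (u, a) :=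
    ContinuousAt.comp (g := fun p : ℝ × ℝ => X F p.1 p.2)
      (f := fun p : ℝ × ℝ => (p.1, p.2 + 1)) (x := (u, a)) (S.fam_X_cont h) (by fun_prop)
  exact h2.sub h1

theorem Sys.Df_deriv (S : Sys A B C F) {u a : ℝ} (h : dm F u (a + 1)) (ha : -(1 / 2) ≤ a) :
    HasDerivAt (fun r => Df F u r) (sF A B F u (a + 1) - sF A B F u a) a := by
  have h1 := S.fam_X_deriv (S.dm_pred h ha)
  have h2 : HasDerivAt (fun r => X F u (r + 1)) (sF A B F u (a + 1)) a :=
    (S.fam_X_deriv h).comp_add_const a 1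
  exact h2.sub h1

/-- near the height `-1/2` the difference is negative -/
theorem Sys.w1 (S : Sys A B C F) (K : Cst A B C ε c M m) (hN : NoC F) {u : ℝ}
    (hu : dm F u (1 / 2)) : ∃ δ > 0, ∀ v a, |v - u| < δ → -(1 / 2) < a → a < -(1 / 2) + δ →
      dm F v (a + 1) ∧ Df F v a < 0 := by
  have hneg := (S.fam_neg hu)
  have hlem := S.lemN K hN hu
  have e1 : -(1 / 2 : ℝ) + 1 = 1 / 2 := by norm_num
  have hu' : dm F u (-(1 / 2) + 1) := by rw [e1]; exact hu
  -- the derivative is negative nearby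
  have hd : ContinuousAt (fun p : ℝ × ℝ => sF A B F p.1 (p.2 + 1) - sF A B F p.1 p.2)
      (u, -(1 / 2)) := by
    have h2 : ContinuousAt (fun p : ℝ × ℝ => sF A B F p.1 (p.2 + 1)) (u, -(1 / 2)) :=
      ContinuousAt.comp (g := fun p : ℝ × ℝ => sF A B F p.1 p.2)
        (f := fun p : ℝ × ℝ => (p.1, p.2 + 1)) (x := (u, -(1 / 2))) (S.sF_cont hu')
        (by fun_prop)
    exact h2.sub (S.sF_cont hneg.1)
  have hlt : sF A B F u (-(1 / 2) + 1) - sF A B F u (-(1 / 2)) < 0 := by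
    have h1 : sF A B F u (1 / 2) < 0 := sl_neg S _ _ hlem (S.fam_Ph_pos hu).2
    have h2 : 0 < sF A B F u (-(1 / 2)) := by
      apply sl_pos S _ _ (S.fam_Ph_pos hneg.1).1
      rw [hneg.2.2]
      linarith
    rw [e1]
    linarith
  have hev1 := hd.eventually (gt_mem_nhds hlt)
  have hev2 : ∀ᶠ p : ℝ × ℝ in 𝓝 (u, -(1 / 2)), dm F p.1 (p.2 + 1) := by
    have : ContinuousAt (fun p : ℝ × ℝ => (p.1, p.2 + 1)) (u, -(1 / 2)) := by fun_prop
    exact this.eventually (S.fam_open.mem_nhds hu')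
  obtain ⟨δ, hδ, hball⟩ := Metric.eventually_nhds_iff.1 (hev1.and hev2)
  refine ⟨δ, hδ, ?_⟩
  intro v a hv ha1 ha2
  have hin : ∀ r ∈ Icc (-(1 / 2)) a, sF A B F v (r + 1) - sF A B F v r < 0 ∧
      dm F v (r + 1) := by
    intro r hr
    apply hball (y := (v, r))
    rw [Prod.dist_eq, Real.dist_eq, Real.dist_eq]
    apply max_lt hv
    rw [abs_lt]
    constructor <;> linarith [hr.1, hr.2]
  have hanti : StrictAntiOn (fun r => Df F v r) (Icc (-(1 / 2)) a) := by
    apply strictAntiOn_of_deriv_neg (convex_Icc _ _)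
    · intro r hr
      exact ((S.Df_deriv (hin r hr).2 hr.1).continuousAt).continuousWithinAt
    · intro r hr
      rw [interior_Icc] at hr
      have hr' : r ∈ Icc (-(1 / 2)) a := ⟨hr.1.le, hr.2.le⟩
      rw [(S.Df_deriv (hin r hr').2 hr.1.le).deriv]
      exact (hin r hr').1
  refine ⟨(hin a ⟨ha1.le, le_rfl⟩).2, ?_⟩
  have h1 := hanti ⟨le_rfl, ha1.le⟩ ⟨ha1.le, le_rfl⟩ ha1
  have h2 : Df F v (-(1 / 2)) = 0 := by
    have h3 := (hin _ ⟨le_rfl, ha1.le⟩).2
    rw [e1] at h3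
    rw [Df, e1, (S.fam_neg h3).2.1, sub_self]
  simp only [h2] at h1
  exact h1

/-- first zero of the difference -/
structure FZ (F : ℝ → St → St) (u a : ℝ) : Prop where
  lt : -(1 / 2) < a
  dm : dm F u (a + 1)
  zero : Df F u a = 0
  neg : ∀ b, -(1 / 2) < b → b < a → Df F u b < 0

theorem FZ.uniq {u a a' : ℝ} (h : FZ F u a) (h' : FZ F u a') : a = a' := by
  rcases lt_trichotomy a a' with h1 | h1 | h1
  · have := h'.neg a h.lt h1
    rw [h.zero] at this
    exact absurd this (lt_irrefl _)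
  · exact h1
  · have := h.neg a' h'.lt h1
    rw [h'.zero] at this
    exact absurd this (lt_irrefl _)

theorem Sys.fz_exists (S : Sys A B C F) (K : Cst A B C ε c M m) (hN : NoC F) {u a : ℝ}
    (ha : -(1 / 2) < a) (hd : dm F u (a + 1)) (h0 : 0 ≤ Df F u a) : ∃ b ≤ a, FZ F u b := by
  obtain ⟨δ, hδ, h1⟩ := S.w1 K hN (S.dm_half hd ha.le)
  have h1' : ∀ b, -(1 / 2) < b → b < -(1 / 2) + δ → Df F u b < 0 := fun b hb1 hb2 =>
    (h1 u b (by simpa using hδ) hb1 hb2).2
  have haδ : -(1 / 2) + δ ≤ a := by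
    by_contra hcon
    push Not at hcon
    linarith [h1' a ha hcon]
  set s : Set ℝ := {b | b ∈ Icc (-(1 / 2) + δ / 2) a ∧ 0 ≤ Df F u b} with hs
  have hcont : ContinuousOn (fun b => Df F u b) (Icc (-(1 / 2) + δ / 2) a) := by
    intro b hb
    have hb1 : -(1 / 2) ≤ b := by linarith [hb.1]
    exact ((S.Df_deriv (S.dm_le hd hb1 hb.2) hb1).continuousAt).continuousWithinAt
  have hsc : IsCompact s := by
    have hcl : IsClosed s := hcont.preimage_isClosed_of_isClosed isClosed_Icc isClosed_Ici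
    exact isCompact_Icc.of_isClosed_subset hcl fun b hb => hb.1
  have hsn : s.Nonempty := ⟨a, ⟨by linarith, le_rfl⟩, h0⟩
  obtain ⟨b, hb, hmin⟩ := hsc.exists_isLeast hsn
  have hneg : ∀ r, -(1 / 2) < r → r < b → Df F u r < 0 := by
    intro r hr1 hr2
    rcases lt_or_ge r (-(1 / 2) + δ / 2) with h2 | h2
    · exact h1' r hr1 (by linarith)
    · by_contra hcon
      push Not at hcon
      have : b ≤ r := hmin ⟨⟨h2, by linarith [hb.1.2]⟩, hcon⟩
      linarith
  have hbl : -(1 / 2) < b := by linarith [hb.1.1]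
  have hbd : dm F u (b + 1) := S.dm_le hd hbl.le hb.1.2
  refine ⟨b, hb.1.2, hbl, hbd, le_antisymm ?_ hb.2, hneg⟩
  -- the value is a limit of negative values
  have h3 : ContinuousAt (fun r => Df F u r) b := (S.Df_deriv hbd hbl.le).continuousAt
  have h4 : Tendsto (fun r => Df F u r) (𝓝[<] b) (𝓝 (Df F u b)) :=
    h3.tendsto.mono_left nhdsWithin_le_nhds
  refine le_of_tendsto h4 ?_
  filter_upwards [Ioo_mem_nhdsLT hbl] with r hr
  exact (hneg r hr.1 hr.2).le

theorem Sys.fz_deriv (S : Sys A B C F) (hN : NoC F) {u a : ℝ} (h : FZ F u a) :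
    sF A B F u a < sF A B F u (a + 1) := by
  have hx : X F u (a + 1) = X F u a := by
    have := h.zero
    rw [Df] at this
    linarith
  have hd := S.dm_pred h.dm h.lt.le
  have hne : sF A B F u (a + 1) ≠ sF A B F u a := S.fam_noc' hN hd h.dm hx
  by_contra hcon
  push Not at hcon
  have hlt : sF A B F u (a + 1) < sF A B F u a := lt_of_le_of_ne hcon hne
  have h1 : HasDerivAt (fun r => - Df F u r) (-(sF A B F u (a + 1) - sF A B F u a)) a :=
    (S.Df_deriv h.dm h.lt.le).neg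
  obtain ⟨δ, hδ, -, h2⟩ := sign_near h1 (by linarith)
  have hlt' := h.lt
  have h3 := h2 (max ((a - 1 / 2) / 2) (a - δ / 2))
    (by refine lt_of_lt_of_le ?_ (le_max_right _ _); linarith)
    (max_lt (by linarith) (by linarith))
  have h4 := h.neg (max ((a - 1 / 2) / 2) (a - δ / 2))
    (by refine lt_of_lt_of_le ?_ (le_max_left _ _); linarith)
    (max_lt (by linarith) (by linarith))
  rw [h.zero] at h3
  linarith

/-- just after the first zero the difference is positive -/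
theorem Sys.fz_pos (S : Sys A B C F) (hN : NoC F) {u a : ℝ} (h : FZ F u a) :
    ∃ δ > 0, ∀ r, a < r → r < a + δ → 0 < Df F u r := by
  obtain ⟨δ, hδ, h2, -⟩ := sign_near (S.Df_deriv h.dm h.lt.le)
    (by linarith [S.fz_deriv hN h])
  refine ⟨δ, hδ, fun r h3 h4 => ?_⟩
  have := h2 r h3 h4
  rwa [h.zero] at this

/-- a nonpositive difference is negative -/
theorem Sys.Df_strict (S : Sys A B C F) (K : Cst A B C ε c M m) (hN : NoC F) {u a : ℝ}
    (hd : dm F u (a + 1)) (h : ∀ b, -(1 / 2) < b → b < a → Df F u b ≤ 0) :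
    ∀ b, -(1 / 2) < b → b < a → Df F u b < 0 := by
  intro b hb1 hb2
  by_contra hcon
  push Not at hcon
  obtain ⟨b', hb', hfz⟩ := S.fz_exists K hN hb1 (S.dm_le hd hb1.le hb2.le) hcon
  obtain ⟨δ, hδ, h2⟩ := S.fz_pos hN hfz
  have h3 := h2 (min ((b' + a) / 2) (b' + δ / 2)) (lt_min (by linarith) (by linarith))
    (lt_of_le_of_lt (min_le_right _ _) (by linarith))
  have h4 := h (min ((b' + a) / 2) (b' + δ / 2)) (lt_min (by linarith [hfz.lt])
    (by linarith [hfz.lt])) (lt_of_le_of_lt (min_le_left _ _) (by linarith))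
  linarith

theorem Sys.fz_angle (S : Sys A B C F) (K : Cst A B C ε c M m) (hN : NoC F) {u a : ℝ}
    (h : FZ F u a) : Ph F u (a + 1) ≤ π - ε := by
  have hd := S.dm_pred h.dm h.lt.le
  have hx : X F u (a + 1) = X F u a := by
    have := h.zero
    rw [Df] at this
    linarith
  have h1 := S.fz_deriv hN h
  have h2 : Ph F u (a + 1) < Ph F u a := by
    by_contra hcon
    push Not at hcon
    have h3 : sl A B (X F u a) a (Ph F u (a + 1)) ≤ sl A B (X F u a) a (Ph F u a) := by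
      rcases hcon.lt_or_eq with h4 | h4
      · exact (sl_lt S _ _ (S.fam_Ph_pos hd).1 h4 (S.fam_Ph_pos h.dm).2).le
      · rw [h4]
    unfold sF at h1
    rw [hx, sl_pery S] at h1
    linarith
  refine h2.le.trans ?_
  rcases le_total 0 a with h3 | h3
  · exact (S.fam_succ K h.dm h3).le
  · have h4 := (S.fam_neg hd).1
    have h5 := S.fam_low K h4 (by linarith)
    rw [(S.fam_neg hd).2.2] at h5
    linarith

/-- the set of the parameters with a first zero and a loop on the right of `x = 0` -/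
def NN (F : ℝ → St → St) : Set ℝ :=
  {u | ∃ a, FZ F u a ∧ ∀ r ∈ Icc a (a + 1), 0 < X F u r}

theorem Sys.fz_dm (S : Sys A B C F) {u a : ℝ} (h : FZ F u a) : ∀ r ∈ Icc a (a + 1), dm F u r := by
  intro r hr
  apply S.fam_abs h.dm
  have := h.lt
  rw [abs_of_nonneg (by linarith : 0 ≤ a + 1), abs_le]
  constructor <;> linarith [hr.1, hr.2]

theorem Sys.NN_open (S : Sys A B C F) (K : Cst A B C ε c M m) (hN : NoC F) :
    IsOpen (NN F) := by
  rw [isOpen_iff_mem_nhds]
  rintro u ⟨a, hfz, hpos⟩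
  have hdm := S.fz_dm hfz
  have hlt := hfz.lt
  -- a thicker interval
  have ho : IsOpen {r : ℝ | dm F u r ∧ 0 < X F u r} := by
    rw [isOpen_iff_mem_nhds]
    rintro r ⟨h1, h2⟩
    exact (S.fam_open1 h1).and ((S.fam_X_cont1 h1).eventually (lt_mem_nhds h2))
  obtain ⟨δ₁, hδ₁, hthick⟩ := isCompact_Icc.exists_cthickening_subset_open ho
    (fun r hr => ⟨hdm r hr, hpos r hr⟩ : Icc a (a + 1) ⊆ {r : ℝ | dm F u r ∧ 0 < X F u r})
  obtain ⟨δ₂, hδ₂, hright⟩ := S.fz_pos hN hfz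
  obtain ⟨δ₃, hδ₃, hw1⟩ := S.w1 K hN (S.dm_half hfz.dm hfz.lt.le)
  set δ := min (min δ₁ (δ₂ / 2)) ((a + 1 / 2) / 2) with hδ
  have hδ0 : 0 < δ := lt_min (lt_min hδ₁ (by positivity)) (by linarith)
  have d1 : δ ≤ δ₁ := (min_le_left _ _).trans (min_le_left _ _)
  have d2 : δ ≤ δ₂ / 2 := (min_le_left _ _).trans (min_le_right _ _)
  have d3 : δ ≤ (a + 1 / 2) / 2 := min_le_right _ _
  have hbig : ∀ r ∈ Icc (a - δ) (a + 1 + δ), dm F u r ∧ 0 < X F u r := by
    intro r hr
    apply hthick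
    rcases lt_or_ge r a with h1 | h1
    · refine Metric.mem_cthickening_of_dist_le r a δ₁ _ ⟨le_rfl, by linarith⟩ ?_
      rw [Real.dist_eq, abs_le]
      constructor <;> linarith [hr.1]
    · rcases lt_or_ge (a + 1) r with h2 | h2
      · refine Metric.mem_cthickening_of_dist_le r (a + 1) δ₁ _ ⟨by linarith, le_rfl⟩ ?_
        rw [Real.dist_eq, abs_le]
        constructor <;> linarith [hr.2]
      · exact Metric.self_subset_cthickening _ ⟨h1, h2⟩
  have ev1 := S.ev_X (p := a - δ) (q := a + 1 + δ) (fun r hr => (hbig r hr).1)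
    (fun r hr => (hbig r hr).2)
  -- positivity at `a + δ`
  have hdm2 : dm F u (a + δ + 1) := (hbig _ ⟨by linarith, by linarith⟩).1
  have hpos2 : 0 < Df F u (a + δ) := hright _ (by linarith) (by linarith)
  have hcu : ∀ b, -(1 / 2) ≤ b → dm F u (b + 1) → ContinuousAt (fun v => Df F v b) u := by
    intro b hb hb'
    exact (S.Df_cont hb' hb).comp (f := fun v : ℝ => (v, b)) (by fun_prop)
  have ev2 : ∀ᶠ v in 𝓝 u, 0 < Df F v (a + δ) :=
    (hcu _ (by linarith) hdm2).eventually (lt_mem_nhds hpos2)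
  -- negativity before
  have ev3 : ∀ᶠ v in 𝓝 u, ∀ b ∈ Icc (-(1 / 2) + δ₃ / 2) (a - δ), Df F v b < 0 := by
    apply isCompact_Icc.eventually_forall_of_forall_eventually
    intro b hb
    have hb1 : -(1 / 2) < b := by linarith [hb.1]
    have hb2 := hfz.neg b hb1 (by linarith [hb.2])
    exact (S.Df_cont (S.dm_le hfz.dm hb1.le (by linarith [hb.2])) hb1.le).eventually
      (gt_mem_nhds hb2)
  have ev4 : ∀ᶠ v in 𝓝 u, |v - u| < δ₃ := by
    filter_upwards [Metric.ball_mem_nhds u hδ₃] with v hv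
    rwa [Metric.mem_ball, Real.dist_eq] at hv
  filter_upwards [ev1, ev2, ev3, ev4] with v h1 h2 h3 h4
  have hdv : dm F v (a + δ + 1) := (h1 _ ⟨by linarith, by linarith⟩).1
  obtain ⟨b, hb, hfb⟩ := S.fz_exists K hN (by linarith : -(1 / 2) < a + δ) hdv h2.le
  refine ⟨b, hfb, ?_⟩
  have hba : a - δ < b := by
    by_contra hcon
    push Not at hcon
    have hneg : Df F v b < 0 := by
      rcases lt_or_ge b (-(1 / 2) + δ₃ / 2) with h5 | h5
      · exact (hw1 v b h4 hfb.lt (by linarith)).2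
      · exact h3 b ⟨h5, hcon⟩
    rw [hfb.zero] at hneg
    exact lt_irrefl _ hneg
  intro r hr
  exact (h1 r ⟨by linarith [hr.1], by linarith [hr.2]⟩).2

/-- a contradiction for sequences with long negative differences which end on the right -/
theorem Sys.long_seq (S : Sys A B C F) (K : Cst A B C ε c M m) (hN : NoC F) {u : ℕ → ℝ}
    {u0 : ℝ} {a : ℕ → ℝ} (hu : Tendsto u atTop (𝓝 u0)) (ha : Tendsto a atTop atTop)
    (hdm : ∀ n, ∀ b, 0 ≤ b → b < a n → dm F (u n) (b + 1))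
    (hDf : ∀ n, ∀ b, -(1 / 2) < b → b < a n → Df F (u n) b < 0) :
    ∃ η₀, 0 ≤ η₀ ∧ ∀ᶠ n in atTop, ∀ η, η₀ ≤ η → η < a n + 1 → dm F (u n) η →
      X F (u n) η < 0 := by
  have hev : ∀ R : ℝ, ∃ N : ℕ, ∀ n, R < a (n + N) := by
    intro R
    obtain ⟨N, hN'⟩ := eventually_atTop.1 (ha.eventually_gt_atTop R)
    exact ⟨N, fun n => hN' _ (Nat.le_add_left _ _)⟩
  have hush : ∀ N : ℕ, Tendsto (fun n => u (n + N)) atTop (𝓝 u0) := fun N =>
    hu.comp (tendsto_add_atTop_nat N)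
  have htrap : ∀ η, 0 ≤ η → dm F u0 η := by
    intro η hη
    obtain ⟨N, hN'⟩ := hev η
    have hd : ∀ n, dm F (u (n + N)) (η + 1) := fun n => hdm _ η hη (hN' n)
    refine S.fam_lim K (hush N) (tendsto_const_nhds (x := η)) (fun _ => hη) ?_ ?_
    · intro n
      exact S.dm_pred (hd n) (by linarith)
    · intro n
      exact (S.fam_succ K (hd n) hη).le
  have hDf0 : ∀ b, -(1 / 2) < b → Df F u0 b ≤ 0 := by
    intro b hb
    obtain ⟨N, hN'⟩ := hev b
    have hdb : dm F u0 (b + 1) := htrap _ (by linarith)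
    have hc : ContinuousAt (fun v => Df F v b) u0 :=
      (S.Df_cont hdb hb.le).comp (f := fun v : ℝ => (v, b)) (by fun_prop)
    exact le_of_tendsto' (hc.tendsto.comp (hush N)) fun n => (hDf _ b hb (hN' n)).le
  have hdec : ∀ b, 0 ≤ b → X F u0 (b + 1) < X F u0 b := by
    intro b hb
    have := S.Df_strict K hN (u := u0) (a := b + 1) (htrap _ (by linarith))
      (fun r hr _ => hDf0 r hr) b (by linarith) (by linarith)
    rw [Df] at this
    linarith
  obtain ⟨η₀, hη₀, hX⟩ := S.lemLim K hN htrap hdec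
  refine ⟨η₀, hη₀, ?_⟩
  have ev1 : ∀ᶠ n in atTop, ∀ r ∈ Icc η₀ (η₀ + 1), dm F (u n) r ∧ X F (u n) r < 0 :=
    hu.eventually (S.ev_X' (fun r hr => htrap r (hη₀.trans hr.1)) hX)
  filter_upwards [ev1] with n hn
  have step : ∀ k : ℕ, ∀ η ∈ Icc η₀ (η₀ + 1), η + k < a n + 1 → X F (u n) (η + k) < 0 := by
    intro k
    induction k with
    | zero =>
      intro η hη _
      rw [Nat.cast_zero, add_zero]
      exact (hn η hη).2
    | succ k ih =>
      intro η hη hlt
      push_cast at hlt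
      have h0 : 0 ≤ η + k := by
        have := hη.1
        have h5 : (0 : ℝ) ≤ k := Nat.cast_nonneg k
        linarith
      have h1 := ih η hη (by linarith)
      have h2 := hDf n (η + k) (by linarith) (by linarith)
      rw [Df] at h2
      rw [show η + ((k + 1 : ℕ) : ℝ) = η + k + 1 by push_cast; ring]
      linarith
  intro η hη hlt _
  have hfl := Nat.floor_le (by linarith : 0 ≤ η - η₀)
  have hfl2 := Nat.lt_floor_add_one (η - η₀)
  have h3 := step ⌊η - η₀⌋₊ (η - ⌊η - η₀⌋₊) ⟨by linarith, by linarith⟩ (by simpa using hlt)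
  simpa using h3

theorem Sys.NN_closed (S : Sys A B C F) (K : Cst A B C ε c M m) (hN : NoC F) :
    IsClosed (NN F) := by
  apply IsSeqClosed.isClosed
  intro u u0 hu hu0
  choose a hfz hpos using hu
  by_cases hbd : ∃ R : ℝ, ∃ᶠ n in atTop, a n ≤ R
  · obtain ⟨R, hR⟩ := hbd
    obtain ⟨φ, hφ, hφR⟩ := extraction_of_frequently_atTop hR
    have hmem : ∀ n, a (φ n) ∈ Icc (-(1 / 2)) R := fun n => ⟨(hfz _).lt.le, hφR n⟩
    obtain ⟨b, hb, ψ, hψ, hlim⟩ := isCompact_Icc.tendsto_subseq hmem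
    set v : ℕ → ℝ := fun n => u (φ (ψ n)) with hv
    set d : ℕ → ℝ := fun n => a (φ (ψ n)) with hd
    have hvl : Tendsto v atTop (𝓝 u0) := (hu0.comp hφ.tendsto_atTop).comp hψ.tendsto_atTop
    have hdl : Tendsto d atTop (𝓝 b) := hlim
    have hfv : ∀ n, FZ F (v n) (d n) := fun n => hfz _
    have hpv : ∀ n, ∀ r ∈ Icc (d n) (d n + 1), 0 < X F (v n) r := fun n => hpos _
    have hdm1 : dm F u0 (b + 1) := by
      refine S.fam_lim K hvl (hdl.add_const 1) ?_ (fun n => (hfv n).dm)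
        (fun n => S.fz_angle K hN (hfv n))
      intro n
      linarith [(hfv n).lt]
    have hpair : Tendsto (fun n => (v n, d n)) atTop (𝓝 (u0, b)) := hvl.prodMk_nhds hdl
    have hb1 : -(1 / 2) < b := by
      refine lt_of_le_of_ne hb.1 ?_
      intro hbe
      obtain ⟨δ, hδ, h1⟩ := S.w1 K hN (S.dm_half hdm1 hb.1)
      have e1 : ∀ᶠ n in atTop, |v n - u0| < δ := by
        filter_upwards [hvl.eventually (Metric.ball_mem_nhds u0 hδ)] with n hn
        rwa [Real.dist_eq] at hn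
      have e2 : ∀ᶠ n in atTop, d n < -(1 / 2) + δ := hdl.eventually (gt_mem_nhds (by linarith))
      obtain ⟨n, h2, h3⟩ := (e1.and e2).exists
      have h4 := (h1 (v n) (d n) h2 (hfv n).lt h3).2
      rw [(hfv n).zero] at h4
      exact lt_irrefl _ h4
    have hzero : Df F u0 b = 0 := by
      have h1 := (S.Df_cont hdm1 hb.1).tendsto.comp hpair
      have h2 : ((fun p : ℝ × ℝ => Df F p.1 p.2) ∘ fun n => (v n, d n)) = fun _ => (0 : ℝ) := by
        funext n
        exact (hfv n).zero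
      rw [h2] at h1
      exact (tendsto_nhds_unique h1 tendsto_const_nhds)
    have hneg0 : ∀ r, -(1 / 2) < r → r < b → Df F u0 r ≤ 0 := by
      intro r hr1 hr2
      have hc : ContinuousAt (fun w => Df F w r) u0 :=
        (S.Df_cont (S.dm_le hdm1 hr1.le hr2.le) hr1.le).comp (f := fun w : ℝ => (w, r))
          (by fun_prop)
      refine le_of_tendsto (hc.tendsto.comp hvl) ?_
      filter_upwards [hdl.eventually (lt_mem_nhds hr2)] with n hn
      exact ((hfv n).neg r hr1 hn).le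
    have hneg := S.Df_strict K hN hdm1 hneg0
    have hf : FZ F u0 b := ⟨hb1, hdm1, hzero, hneg⟩
    have hdmI := S.fz_dm hf
    have hX0 : ∀ r ∈ Icc b (b + 1), 0 ≤ X F u0 r := by
      intro r hr
      have hp2 : Tendsto (fun n => (v n, d n + (r - b))) atTop (𝓝 (u0, r)) := by
        have := hdl.add_const (r - b)
        rw [add_sub_cancel] at this
        exact hvl.prodMk_nhds this
      refine ge_of_tendsto' ((S.fam_X_cont (hdmI r hr)).tendsto.comp hp2) fun n => ?_
      exact (hpv n _ ⟨by linarith [hr.1], by linarith [hr.2]⟩).le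
    refine ⟨b, hf, ?_⟩
    intro r hr
    refine lt_of_le_of_ne (hX0 r hr) ?_
    intro hr0
    have hxx : X F u0 (b + 1) = X F u0 b := by
      have := hzero
      rw [Df] at this
      linarith
    have hb0 : X F u0 b = 0 := by
      rcases S.touch (by linarith) hdmI hX0 hr hr0.symm with ⟨h3, _⟩ | ⟨h3, _⟩
      · rw [← h3]; exact hr0.symm
      · rw [← hxx, ← h3]; exact hr0.symm
    have t1 : Ph F u0 b < π / 2 := by
      rcases S.touch (by linarith) hdmI hX0 (⟨le_rfl, by linarith⟩ : b ∈ Icc b (b + 1)) hb0 with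
        ⟨_, h4⟩ | ⟨h3, _⟩
      · exact h4
      · linarith
    have t2 : π / 2 < Ph F u0 (b + 1) := by
      rcases S.touch (by linarith) hdmI hX0 (⟨by linarith, le_rfl⟩ : b + 1 ∈ Icc b (b + 1))
        (by rw [hxx]; exact hb0) with ⟨h3, _⟩ | ⟨_, h4⟩
      · linarith
      · exact h4
    have t3 := S.fz_deriv hN hf
    have t4 : 0 < sF A B F u0 b :=
      sl_pos S _ _ (S.fam_Ph_pos (hdmI b ⟨le_rfl, by linarith⟩)).1 t1
    have t5 : sF A B F u0 (b + 1) < 0 := sl_neg S _ _ t2 (S.fam_Ph_pos hdm1).2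
    linarith
  · exfalso
    push Not at hbd
    have ha : Tendsto a atTop atTop := by
      rw [tendsto_atTop]
      intro R
      exact (hbd R).mono fun n hn => hn.le
    obtain ⟨η₀, hη₀, hev⟩ := S.long_seq K hN hu0 ha
      (fun n b hb hb' => S.dm_le (hfz n).dm (by linarith) hb'.le) (fun n => (hfz n).neg)
    obtain ⟨n, h1, h2⟩ := (hev.and (ha.eventually_ge_atTop η₀)).exists
    have h3 := h1 (a n) h2 (by linarith) (S.dm_pred (hfz n).dm (hfz n).lt.le)
    have h4 := hpos n (a n) ⟨le_rfl, by linarith⟩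
    linarith

/-- The symmetric orbits move to the left. -/
theorem Sys.lemW (S : Sys A B C F) (K : Cst A B C ε c M m) (hN : NoC F) {u a : ℝ}
    (ha : -(1 / 2) < a) (hd : dm F u (a + 1)) : Df F u a < 0 := by
  by_contra hcon
  push Not at hcon
  obtain ⟨b, -, hf⟩ := S.fz_exists K hN ha hd hcon
  obtain ⟨N, hNb⟩ := S.X_bound (S.fz_dm hf)
  -- translation of first zeros
  have htr : ∀ n : ℤ, FZ F (u + n) b := by
    intro n
    have hDf : ∀ r, -(1 / 2) < r → r ≤ b → Df F (u + n) r = Df F u r := by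
      intro r hr1 hr2
      have h1 := S.dm_le hf.dm hr1.le hr2
      have h2 := S.dm_pred h1 hr1.le
      rw [Df, Df, (S.fam_tr n h1).2.1, (S.fam_tr n h2).2.1]
      ring
    exact ⟨hf.lt, (S.fam_tr n hf.dm).1, by rw [hDf b hf.lt le_rfl]; exact hf.zero,
      fun r hr1 hr2 => by rw [hDf r hr1 hr2.le]; exact hf.neg r hr1 hr2⟩
  have hpos : u + ((N : ℤ) : ℝ) ∈ NN F := by
    refine ⟨b, htr N, ?_⟩
    intro r hr
    rw [(S.fam_tr (N : ℤ) (S.fz_dm hf r hr)).2.1]
    have := hNb r hr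
    rw [abs_lt] at this
    push_cast
    linarith [this.1]
  have hneg : u + ((-(N : ℤ) : ℤ) : ℝ) ∉ NN F := by
    rintro ⟨b', hf', hp⟩
    have h1 : b = b' := (htr (-(N : ℤ))).uniq hf'
    subst h1
    have hr : b ∈ Icc b (b + 1) := ⟨le_rfl, by linarith⟩
    have h2 := hp b hr
    rw [(S.fam_tr (-(N : ℤ)) (S.fz_dm hf b hr)).2.1] at h2
    have := hNb b hr
    rw [abs_lt] at this
    push_cast at h2
    linarith [this.2]
  have huniv : NN F = univ := IsClopen.eq_univ ⟨S.NN_closed K hN, S.NN_open K hN⟩ ⟨_, hpos⟩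
  exact hneg (by rw [huniv]; trivial)

end

end MP4c42bd.Mir
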