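import Mathlib
import Pool.Agent.Lib.MP_4c42bd_gt.Mir.Wind

set_option autoImplicit false

/-!
# No symmetric orbit leaves the region `0 < θ < π`
-/

open Set Filter Topology Real

namespace MP4c42bd.Mir

section
variable {A B : ℝ → ℝ → ℝ} {C : ℝ → ℝ → ℝ → ℝ} {F : ℝ → St → St} {ε c M m : ℝ}

/-- the orbit of the central state leaves at the time `t` over `x` -/
structure Ex (F : ℝ → St → St) (u x t : ℝ) : Prop where
  pos : 0 < t
  bef : ∀ s, 0 ≤ s → s < t → 0 < (F s (zz u)).2.2 ∧ (F s (zz u)).2.2 < π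
  ang : (F t (zz u)).2.2 = π
  x_eq : (F t (zz u)).1 = x

theorem Ex.uniq {u x t x' t' : ℝ} (h : Ex F u x t) (h' : Ex F u x' t') : t = t' ∧ x = x' := by
  have ht : t = t' := by
    rcases lt_trichotomy t t' with h1 | h1 | h1
    · have := (h'.bef t h.pos.le h1).2
      rw [h.ang] at this
      exact absurd this (lt_irrefl _)
    · exact h1
    · have := (h.bef t' h'.pos.le h1).2
      rw [h'.ang] at this
      exact absurd this (lt_irrefl _)
  subst ht
  exact ⟨rfl, h.x_eq.symm.trans h'.x_eq⟩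

theorem Sys.zz_low (S : Sys A B C F) (K : Cst A B C ε c M m) (u : ℝ) {t : ℝ} (ht : 0 ≤ t) :
    ε ≤ (F t (zz u)).2.2 := by
  apply S.zlow K (by rw [abs_of_pos K.ε0]) _ ht
  show ε ≤ π / 2
  linarith [K.ε1, Real.pi_pos]

theorem Sys.first_exit (S : Sys A B C F) (K : Cst A B C ε c M m) {u t : ℝ} (ht : 0 ≤ t)
    (h : π ≤ (F t (zz u)).2.2) : ∃ r ≤ t, Ex F u (F r (zz u)).1 r := by
  set s : Set ℝ := {r | r ∈ Icc 0 t ∧ π ≤ (F r (zz u)).2.2} with hs
  have hsc : IsCompact s := by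
    apply isCompact_Icc.of_isClosed_subset _ (fun b hb => hb.1)
    exact isClosed_Icc.inter (isClosed_le continuous_const (S.contθ (zz u)))
  obtain ⟨r, hr, hmin⟩ := hsc.exists_isLeast ⟨t, ⟨ht, le_rfl⟩, h⟩
  have hr0 : 0 < r := by
    rcases hr.1.1.lt_or_eq with h1 | h1
    · exact h1
    · exfalso
      have h2 := hr.2
      rw [← h1, S.zero] at h2
      have h3 : π ≤ π / 2 := h2
      linarith [Real.pi_pos]
  have hbef : ∀ q, 0 ≤ q → q < r → 0 < (F q (zz u)).2.2 ∧ (F q (zz u)).2.2 < π := by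
    intro q hq0 hqr
    refine ⟨K.ε0.trans_le (S.zz_low K u hq0), ?_⟩
    by_contra hcon
    push Not at hcon
    have : r ≤ q := hmin ⟨⟨hq0, by linarith [hr.1.2]⟩, hcon⟩
    linarith
  refine ⟨r, hr.1.2, hr0, hbef, le_antisymm ?_ hr.2, rfl⟩
  have h4 : Tendsto (fun q => (F q (zz u)).2.2) (𝓝[<] r) (𝓝 (F r (zz u)).2.2) :=
    (S.contθ (zz u)).continuousAt.tendsto.mono_left nhdsWithin_le_nhds
  refine le_of_tendsto h4 ?_
  filter_upwards [Ioo_mem_nhdsLT hr0] with q hq
  exact (hbef q hq.1.le hq.2).2.le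

theorem Sys.trap_of_noexit (S : Sys A B C F) (K : Cst A B C ε c M m) {u : ℝ}
    (h : ¬ ∃ x t, Ex F u x t) : ∀ η, 0 ≤ η → dm F u η := by
  have hin : ∀ t, 0 ≤ t → (F t (zz u)).2.2 < π := by
    intro t ht
    by_contra hcon
    push Not at hcon
    obtain ⟨r, -, hr⟩ := S.first_exit K ht hcon
    exact h ⟨_, _, hr⟩
  have hup : ∀ t, 0 ≤ t → (F t (zz u)).2.2 ≤ π - ε := by
    intro t ht
    by_contra hcon
    push Not at hcon
    have hc := K.c0
    have hε := K.ε0
    have h1 := S.zexit K hcon.le (t := 2 * ε / c) le_rfl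
    rw [S.group] at h1
    have h2 := hin (2 * ε / c + t) (by positivity)
    linarith
  have hε := K.ε0
  have hε1 := K.ε1
  have hsin : 0 < sin ε := sin_pos_of_pos_of_lt_pi hε (by linarith [Real.pi_pos])
  have hms : 0 < m * sin ε := mul_pos K.m0 hsin
  have hY : ∀ T, 0 ≤ T → m * sin ε * T ≤ (F T (zz u)).2.1 := by
    intro T hT
    have h1 := (convex_Icc 0 T).mul_sub_le_image_sub_of_le_deriv
      (f := fun s => (F s (zz u)).2.1) (S.contY (zz u)).continuousOn
      (fun s _ => (S.dy s (zz u)).differentiableAt.differentiableWithinAt) (C := m * sin ε)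
      (by
        intro s hs
        have hs' := interior_subset hs
        rw [(S.dy s (zz u)).deriv]
        have a1 := S.zz_low K u hs'.1
        have a2 := hup s hs'.1
        have a3 : sin ε ≤ sin (F s (zz u)).2.2 := by
          rcases le_total (F s (zz u)).2.2 (π / 2) with h3 | h3
          · exact sin_le_sin_of_le_of_le_pi_div_two (by linarith [Real.pi_pos]) h3 a1
          · rw [← sin_pi_sub (F s (zz u)).2.2]
            exact sin_le_sin_of_le_of_le_pi_div_two (by linarith [Real.pi_pos]) (by linarith)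
              (by linarith)
        exact mul_le_mul (K.Bm _ _) a3 hsin.le (S.posB _ _).le) 0 ⟨le_rfl, hT⟩ T
      ⟨hT, le_rfl⟩ hT
    simp only [S.zero, sub_zero] at h1
    have h2 : (zz u).2.1 = 0 := rfl
    rw [h2, sub_zero] at h1
    exact h1
  intro η hη
  set T := η / (m * sin ε) with hT
  have hT0 : 0 ≤ T := div_nonneg hη hms.le
  have h1 := hY T hT0
  have hm0 := K.m0.ne'
  have h2 : m * sin ε * T = η := by rw [hT]; field_simp
  rw [h2] at h1
  have hInT : In F (zz u) T := by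
    intro s hs
    rw [uIcc_of_le hT0] at hs
    exact ⟨hε.trans_le (S.zz_low K u hs.1), hin s hs.1⟩
  apply S.dom_between (⟨T, hInT, rfl⟩ : Dom F (zz u) (F T (zz u)).2.1)
  show η ∈ uIcc 0 _
  rw [uIcc_of_le (hη.trans h1)]
  exact ⟨hη, h1⟩

theorem Sys.exit_near (S : Sys A B C F) (K : Cst A B C ε c M m) {u0 x0 t0 : ℝ}
    (h : Ex F u0 x0 t0) {κ : ℝ} (hκ : 0 < κ) :
    ∀ᶠ u in 𝓝 u0, ∃ x t, Ex F u x t ∧ |x - x0| < κ := by
  have hczz : Continuous zz := by unfold zz; fun_prop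
  have hcF : Continuous fun p : ℝ × ℝ => F p.2 (zz p.1) :=
    S.cF.comp (continuous_snd.prodMk (hczz.comp continuous_fst))
  have hcx : ContinuousAt (fun p : ℝ × ℝ => (F p.2 (zz p.1)).1) (u0, t0) :=
    (continuous_fst.comp hcF).continuousAt
  rw [Metric.continuousAt_iff] at hcx
  obtain ⟨δ₁, hδ₁, h1⟩ := hcx κ hκ
  set δ := min (δ₁ / 2) (t0 / 2) with hδ
  have ht0 := h.pos
  have hδ0 : 0 < δ := lt_min (by positivity) (by positivity)
  have d1 : δ < δ₁ := lt_of_le_of_lt (min_le_left _ _) (by linarith)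
  have d2 : δ ≤ t0 / 2 := min_le_right _ _
  have hcθ : Continuous fun p : ℝ × ℝ => (F p.2 (zz p.1)).2.2 :=
    (continuous_snd.comp continuous_snd).comp hcF
  -- after
  have hafter : π < (F (t0 + δ) (zz u0)).2.2 := by
    have := S.zhigh' K (z := F t0 (zz u0)) (a := π) (by simpa using K.ε0.le) h.ang.ge hδ0
    rw [S.group, add_comm] at this
    exact this
  have ev1 : ∀ᶠ u in 𝓝 u0, π < (F (t0 + δ) (zz u)).2.2 := by
    have hc : Continuous fun u : ℝ => (F (t0 + δ) (zz u)).2.2 :=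
      hcθ.comp (continuous_id.prodMk continuous_const)
    exact hc.continuousAt.eventually (lt_mem_nhds hafter)
  -- before
  have ev2 : ∀ᶠ u in 𝓝 u0, ∀ s ∈ Icc 0 (t0 - δ), (F s (zz u)).2.2 < π := by
    apply isCompact_Icc.eventually_forall_of_forall_eventually
    intro s hs
    exact hcθ.continuousAt.eventually (gt_mem_nhds (h.bef s hs.1 (by linarith [hs.2])).2)
  have ev3 : ∀ᶠ u in 𝓝 u0, |u - u0| < δ₁ := by
    filter_upwards [Metric.ball_mem_nhds u0 hδ₁] with v hv
    rwa [Metric.mem_ball, Real.dist_eq] at hv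
  filter_upwards [ev1, ev2, ev3] with u h2 h3 h4
  obtain ⟨r, hr, hex⟩ := S.first_exit K (by linarith : 0 ≤ t0 + δ) h2.le
  refine ⟨_, r, hex, ?_⟩
  have hr2 : t0 - δ < r := by
    by_contra hcon
    push Not at hcon
    have := h3 r ⟨hex.pos.le, hcon⟩
    rw [hex.ang] at this
    exact lt_irrefl _ this
  have h5 := @h1 (u, r) (by
    rw [Prod.dist_eq, Real.dist_eq, Real.dist_eq]
    apply max_lt h4
    rw [abs_lt]
    constructor <;> linarith)
  rw [Real.dist_eq, h.x_eq] at h5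
  exact h5

theorem Sys.exit_tr (S : Sys A B C F) {u x t : ℝ} (h : Ex F u x t) (n : ℤ) :
    Ex F (u + n) (x + n) t := by
  have e : ∀ s, F s (zz (u + n)) = F s (zz u) + ((n : ℝ), 0, 0) := by
    intro s
    rw [← S.tr_x n s (zz u)]
    congr 1
    simp [zz]
  refine ⟨h.pos, ?_, ?_, ?_⟩
  · intro s hs hst
    rw [e]
    simpa using h.bef s hs hst
  · rw [e]
    simpa using h.ang
  · rw [e]
    simp [h.x_eq]

theorem Sys.exit_zero (S : Sys A B C F) (hN : NoC F) {u t : ℝ} (h : Ex F u 0 t) : False := by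
  set w : St := F t (zz u) with hw
  have hw1 : w.1 = 0 := h.x_eq
  have hw3 : w.2.2 = π := h.ang
  have back : F (-t) w = zz u := by rw [hw, S.group, neg_add_cancel, S.zero]
  have tr2 : ∀ s z, F s (z + (0, 0, 2 * π)) = F s z + (0, 0, 2 * π) := S.trθ
  -- reflection in `x`
  have hfix : r2 w + (0, 0, 2 * π) = w := by
    ext
    · simp [r2, hw1]
    · simp [r2]
    · simp [r2, hw3]; ring
  have h1 : F t w = (-u, 0, 3 * π / 2) := by
    have e1 := S.hr2 (-t) w
    rw [neg_neg, back] at e1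
    have e2 := tr2 t (r2 w)
    rw [hfix, e1] at e2
    rw [e2]
    ext
    · simp [r2, zz]
    · simp [r2, zz]
    · simp [r2, zz]; ring
  set v : St := (-u, 0, 3 * π / 2) with hv
  have h2 : F (2 * t) (zz u) = v := by
    rw [two_mul, ← S.group, ← hw, h1]
  have back2 : F (-(2 * t)) v = zz u := by rw [← h2, S.group, neg_add_cancel, S.zero]
  have hfix2 : r1 v + (0, 0, 2 * π) = v := by
    ext
    · simp [r1, hv]
    · simp [r1, hv]
    · simp [r1, hv]; ring
  have h3 : F (2 * t) v = zz u + (0, 0, 2 * π) := by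
    have e1 := S.hr1 (-(2 * t)) v
    rw [neg_neg, back2, r1_zz] at e1
    have e2 := tr2 (2 * t) (r1 v)
    rw [hfix2, e1] at e2
    exact e2
  have h4 : F (2 * t + 2 * t) (zz u) = zz u + (0, 0, 2 * π) := by
    rw [← S.group, h2, h3]
  apply hN (zz u) (2 * t + 2 * t) 0 1 (by linarith [h.pos]) (by norm_num)
  rw [h4]
  simp

theorem Sys.exit_mono (S : Sys A B C F) {u x t : ℝ} (h : Ex F u x t) :
    StrictMonoOn (fun s => (F s (zz u)).2.1) (Icc 0 t) := by
  apply strictMonoOn_of_deriv_pos (convex_Icc 0 t) (S.contY (zz u)).continuousOn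
  intro s hs
  rw [interior_Icc] at hs
  have hs' := h.bef s hs.1.le hs.2
  rw [(S.dy s (zz u)).deriv]
  exact mul_pos (S.posB _ _) (sin_pos_of_pos_of_lt_pi hs'.1 hs'.2)

theorem Sys.exit_In (_ : Sys A B C F) {u x t s : ℝ} (h : Ex F u x t) (h0 : 0 ≤ s) (hs : s < t) :
    In F (zz u) s := by
  intro r hr
  rw [uIcc_of_le h0] at hr
  exact h.bef r hr.1 (lt_of_le_of_lt hr.2 hs)

theorem Sys.exit_lt (S : Sys A B C F) {u x t η : ℝ} (h : Ex F u x t) (h0 : 0 ≤ η)
    (hd : dm F u η) : η < (F t (zz u)).2.1 := by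
  have hT0 : 0 ≤ Tm F (zz u) η := S.Tm_nonneg hd h0
  have hTt : Tm F (zz u) η < t := by
    by_contra hcon
    push Not at hcon
    have := (hd.tm_In t (by rw [uIcc_of_le hT0]; exact ⟨h.pos.le, hcon⟩)).2
    rw [h.ang] at this
    exact lt_irrefl _ this
  have h1 := S.exit_mono h ⟨hT0, hTt.le⟩ ⟨h.pos.le, le_rfl⟩ hTt
  have h2 : (F (Tm F (zz u) η) (zz u)).2.1 = η := hd.gr_y
  simp only [h2] at h1
  exact h1

theorem Sys.exit_dm (S : Sys A B C F) {u x t η : ℝ} (h : Ex F u x t) (h0 : 0 ≤ η)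
    (hη : η < (F t (zz u)).2.1) : dm F u η := by
  have h1 := intermediate_value_Icc h.pos.le (S.contY (zz u)).continuousOn
  have h2 : (F 0 (zz u)).2.1 = 0 := by rw [S.zero]; rfl
  obtain ⟨s, hs, hs'⟩ := h1 (⟨by rw [h2]; exact h0, hη.le⟩ :
    η ∈ Icc ((F 0 (zz u)).2.1) ((F t (zz u)).2.1))
  have hst : s < t := by
    refine lt_of_le_of_ne hs.2 ?_
    rintro rfl
    exact absurd hs' hη.ne'
  exact ⟨s, S.exit_In h hs.1 hst, hs'⟩

theorem Sys.exit_nonpos (S : Sys A B C F) {u x t η₀ : ℝ} (h : Ex F u x t)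
    (hη : η₀ < (F t (zz u)).2.1)
    (hX : ∀ η, η₀ ≤ η → η < (F t (zz u)).2.1 → dm F u η → X F u η < 0) : x ≤ 0 := by
  have h1 : Tendsto (fun s => (F s (zz u)).1) (𝓝[<] t) (𝓝 (F t (zz u)).1) :=
    ((continuous_fst.comp (S.contF (zz u))).continuousAt.tendsto).mono_left nhdsWithin_le_nhds
  rw [← h.x_eq]
  refine le_of_tendsto h1 ?_
  have h2 : ∀ᶠ s in 𝓝[<] t, η₀ < (F s (zz u)).2.1 :=
    ((S.contY (zz u)).continuousAt.eventually (lt_mem_nhds hη)).filter_mono nhdsWithin_le_nhds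
  filter_upwards [h2, Ioo_mem_nhdsLT h.pos] with s h3 h4
  have hIn := S.exit_In h h4.1.le h4.2
  have h5 := S.exit_mono h ⟨h4.1.le, h4.2.le⟩ ⟨h.pos.le, le_rfl⟩ h4.2
  have h6 := hX _ h3.le h5 ⟨s, hIn, rfl⟩
  rw [X, S.gr_eq hIn rfl] at h6
  exact h6.le

/-- No symmetric orbit leaves the region. -/
theorem Sys.lemE (S : Sys A B C F) (K : Cst A B C ε c M m) (hN : NoC F) {u : ℝ} :
    ∀ η, 0 ≤ η → dm F u η := by
  apply S.trap_of_noexit K
  rintro ⟨x, t, hex⟩
  set P : Set ℝ := {v | ∃ x t, Ex F v x t ∧ 0 < x} with hP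
  have hopen : IsOpen P := by
    rw [isOpen_iff_mem_nhds]
    rintro v ⟨y, s, h1, h2⟩
    filter_upwards [S.exit_near K h1 h2] with w hw
    obtain ⟨y', s', h3, h4⟩ := hw
    refine ⟨y', s', h3, ?_⟩
    rw [abs_lt] at h4
    linarith [h4.1]
  have hclosed : IsClosed P := by
    apply IsSeqClosed.isClosed
    intro v v0 hv hv0
    choose y s hexv hyv using hv
    by_cases h0 : ∃ x t, Ex F v0 x t
    · obtain ⟨x0, t0, h1⟩ := h0
      refine ⟨x0, t0, h1, ?_⟩
      rcases lt_trichotomy x0 0 with h2 | h2 | h2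
      · exfalso
        obtain ⟨n, hn⟩ := (hv0.eventually (S.exit_near K h1 (κ := -x0) (by linarith))).exists
        obtain ⟨y', s', h3, h4⟩ := hn
        have h5 := (h3.uniq (hexv n)).2
        have h6 := hyv n
        rw [abs_lt] at h4
        linarith [h4.2]
      · exfalso
        rw [h2] at h1
        exact S.exit_zero hN h1
      · exact h2
    · exfalso
      have htrap := S.trap_of_noexit K h0
      set a : ℕ → ℝ := fun n => (F (s n) (zz (v n))).2.1 - 1 with ha
      have hat : Tendsto a atTop atTop := by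
        rw [tendsto_atTop]
        intro R
        have hd := htrap (max (R + 1) 0) (le_max_right _ _)
        filter_upwards [hv0.eventually (S.fam_openu hd)] with n hn
        have h1 := S.exit_lt (hexv n) (le_max_right _ _) hn
        have h2 := le_max_left (R + 1) 0
        simp only [ha]
        linarith
      obtain ⟨η₀, hη₀, hev⟩ := S.long_seq K hN hv0 hat
        (fun n b hb hb' => S.exit_dm (hexv n) (by linarith) (by simp only [ha] at hb'; linarith))
        (fun n b hb hb' => S.lemW K hN hb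
          (S.exit_dm (hexv n) (by linarith) (by simp only [ha] at hb'; linarith)))
      obtain ⟨n, h1, h2⟩ := (hev.and (hat.eventually_gt_atTop η₀)).exists
      have h3 : x ≤ x := le_rfl
      have h4 := S.exit_nonpos (hexv n) (η₀ := η₀) (by simp only [ha] at h2; linarith)
        (fun η hη hη' hd => h1 η hη (by simp only [ha]; linarith) hd)
      linarith [hyv n]
  obtain ⟨N, hN'⟩ := exists_nat_gt |x|
  rw [abs_lt] at hN'
  have hpos : u + ((N : ℤ) : ℝ) ∈ P := by
    refine ⟨_, t, S.exit_tr hex (N : ℤ), ?_⟩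
    push_cast
    linarith [hN'.1]
  have hneg : u + ((-(N : ℤ) : ℤ) : ℝ) ∉ P := by
    rintro ⟨y, s, h1, h2⟩
    have h3 := (h1.uniq (S.exit_tr hex (-(N : ℤ)))).2
    push_cast at h3
    linarith [hN'.2]
  have huniv : P = univ := IsClopen.eq_univ ⟨hclosed, hopen⟩ ⟨_, hpos⟩
  exact hneg (by rw [huniv]; trivial)

end

end MP4c42bd.Mir
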