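import Mathlib
import Pool.Agent.Lib.MP_4c42bd_gt.Mir.Exit

set_option autoImplicit false

/-!
# All orbits which enter the region `0 < θ < π` stay there forever
-/

open Set Filter Topology Real

namespace MP4c42bd.Mir

section
variable {A B : ℝ → ℝ → ℝ} {C : ℝ → ℝ → ℝ → ℝ} {F : ℝ → St → St} {ε c M m : ℝ}

theorem Sys.low0 (S : Sys A B C F) (K : Cst A B C ε c M m) (hN : NoC F) (x θ : ℝ) (h0 : 0 < θ)
    (h1 : θ ≤ ε) {b : ℝ} (hb : 0 ≤ b) : Dom F (x, -b, θ) 0 := by
  have hε1 := K.ε1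
  have hpi := Real.pi_pos
  set s : Set ℝ := {r | Dom F (x, -r, θ) 0 ∧ (gr F (x, -r, θ) 0).2.2 < π / 2} with hs
  have hmap : Continuous fun r : ℝ => (((x, -r, θ) : St), (0 : ℝ)) := by fun_prop
  have hopen : IsOpen s := by
    rw [isOpen_iff_mem_nhds]
    rintro r ⟨h2, h3⟩
    have e1 : ∀ᶠ q in 𝓝 r, Dom F (x, -q, θ) 0 :=
      hmap.continuousAt.eventually (S.dom_open.mem_nhds h2)
    have e2 : ContinuousAt (fun q : ℝ => (gr F (x, -q, θ) 0).2.2) r := by
      have h4 := ContinuousAt.comp (g := fun p : St × ℝ => gr F p.1 p.2)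
        (f := fun r : ℝ => (((x, -r, θ) : St), (0 : ℝ))) (x := r) (S.gr_cont h2)
        hmap.continuousAt
      exact ((continuous_snd.comp continuous_snd).continuousAt).comp h4
    exact e1.and (e2.eventually (gt_mem_nhds h3))
  have h0s : (0 : ℝ) ∈ s := by
    have hθ : 0 < ((x, -0, θ) : St).2.2 ∧ ((x, -0, θ) : St).2.2 < π :=
      ⟨h0, by show θ < π; linarith⟩
    have h2 := S.dom_self hθ
    have h3 := S.gr_self hθ
    have e : ((x, -0, θ) : St).2.1 = 0 := neg_zero
    rw [e] at h2 h3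
    refine ⟨h2, ?_⟩
    rw [h3]
    show θ < π / 2
    linarith
  have hclosed : IsClosed (s ∩ Icc 0 b) := by
    apply IsSeqClosed.isClosed
    intro r r0 hr hr0
    have hr0I : r0 ∈ Icc 0 b := isClosed_Icc.mem_of_tendsto hr0 (Eventually.of_forall
      fun n => (hr n).2)
    have hz : Tendsto (fun n => ((x, -(r n), θ) : St)) atTop (𝓝 (x, -r0, θ)) := by
      have hc : Continuous fun q : ℝ => ((x, -q, θ) : St) := by fun_prop
      exact (hc.tendsto r0).comp hr0
    have hd : Dom F (x, -r0, θ) 0 := by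
      refine S.dom_lim K hz (tendsto_const_nhds (x := (0 : ℝ))) h0 h1 (fun _ => le_rfl) ?_
        (fun n => (hr n).1.1) ?_
      · intro n
        show -(r n) ≤ 0
        linarith [(hr n).2.1]
      · intro n
        have := (hr n).1.2
        linarith
    refine ⟨⟨hd, ?_⟩, hr0I⟩
    have hle : (gr F (x, -r0, θ) 0).2.2 ≤ π / 2 := by
      have h4 : Tendsto (fun n => gr F (x, -(r n), θ) 0) atTop (𝓝 (gr F (x, -r0, θ) 0)) :=
        (S.gr_cont hd).tendsto.comp (hz.prodMk_nhds tendsto_const_nhds)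
      have h5 : Tendsto (fun n => (gr F (x, -(r n), θ) 0).2.2) atTop
          (𝓝 (gr F (x, -r0, θ) 0).2.2) :=
        ((continuous_snd.comp continuous_snd).tendsto _).comp h4
      exact le_of_tendsto' h5 fun n => (hr n).1.2.le
    refine lt_of_le_of_ne hle ?_
    intro he
    -- the state at height `0` is central
    have hw : gr F (x, -r0, θ) 0 = zz (gr F (x, -r0, θ) 0).1 := by
      ext
      · rfl
      · exact hd.gr_y
      · exact he
    have hθ : 0 < ((x, -r0, θ) : St).2.2 ∧ ((x, -r0, θ) : St).2.2 < π :=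
      ⟨h0, by show θ < π; linarith⟩
    have h2 := S.dom_self hθ
    have h3 := S.gr_self hθ
    have e : ((x, -r0, θ) : St).2.1 = -r0 := rfl
    rw [e] at h2 h3
    obtain ⟨h6, h7⟩ := S.gr_trans' hd h2
    rw [hw] at h6 h7
    rw [h3] at h7
    have h8 := S.fam_neg (show dm F _ (-r0) from h6)
    rw [neg_neg] at h8
    have h9 := S.fam_succ K (S.lemE K hN (u := (gr F (x, -r0, θ) 0).1) (r0 + 1)
      (by linarith [hr0I.1])) hr0I.1
    rw [h8.2.2, Ph, h7] at h9
    have h10 : π - θ < π - ε := h9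
    linarith
  have hsub : Icc 0 b ⊆ s :=
    hclosed.Icc_subset_of_forall_mem_nhdsWithin h0s fun r hr =>
      mem_nhdsWithin_of_mem_nhds (hopen.mem_nhds hr.1)
  exact (hsub ⟨hb, le_rfl⟩).1

/-- every state with a small positive angle is trapped -/
theorem Sys.low (S : Sys A B C F) (K : Cst A B C ε c M m) (hN : NoC F) {z : St}
    (h0 : 0 < z.2.2) (h1 : z.2.2 ≤ ε) {t : ℝ} (ht : 0 ≤ t) : In F z t := by
  have hM := K.M0
  obtain ⟨N, hN'⟩ := exists_nat_gt (max z.2.1 (z.2.1 + M * t))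
  have hN1 : z.2.1 < N := lt_of_le_of_lt (le_max_left _ _) hN'
  have hN2 : z.2.1 + M * t < N := lt_of_le_of_lt (le_max_right _ _) hN'
  have h2 := S.low0 K hN z.1 z.2.2 h0 h1 (b := N - z.2.1) (by linarith)
  have h3 := S.gr_equiv (fun z => z + (0, ((N : ℤ) : ℝ), 0)) ((N : ℤ) : ℝ)
      (fun t z => S.tr_y _ t z) (fun z => by simp) (fun z => by simp) h2
  have e : ((z.1, -((N : ℝ) - z.2.1), z.2.2) : St) + (0, ((N : ℤ) : ℝ), 0) = z := by
    ext
    · simp
    · simp
    · simp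
  simp only [e, zero_add] at h3
  have h4 := S.Tm_pos h3.1 (by push_cast; exact hN1)
  have h5 := S.Y_le K z h4.le
  have h6 := h3.1.gr_y
  rw [gr] at h6
  rw [h6] at h5
  push_cast at h5
  have h7 : t ≤ Tm F z ((N : ℤ) : ℝ) := by
    by_contra hcon
    push Not at hcon
    have h8 : M * Tm F z ((N : ℤ) : ℝ) ≤ M * t := mul_le_mul_of_nonneg_left hcon.le hM.le
    push_cast at h8
    linarith
  exact h3.1.tm_In.mono (by rw [uIcc_of_le h4.le]; exact ⟨ht, h7⟩)

end

end MP4c42bd.Mir
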