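import Mathlib
import Pool.Agent.Lib.MP_4c42bd_gt.Mir.Low

set_option autoImplicit false

/-!
# The volume argument
-/

open Set Filter Topology Real MeasureTheory

namespace MP4c42bd.Mir

section
variable {A B : ℝ → ℝ → ℝ} {C : ℝ → ℝ → ℝ → ℝ} {F : ℝ → St → St} {ε c M m : ℝ}

/-- backward exit -/
theorem Sys.back_exit (S : Sys A B C F) (K : Cst A B C ε c M m) {z : St} (h : z.2.2 ≤ ε)
    {t : ℝ} (ht : 2 * ε / c ≤ t) : (F (-t) z).2.2 ≤ 0 := by
  have h1 : π - ε ≤ (r1 z).2.2 := by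
    show π - ε ≤ π - z.2.2
    linarith
  have h2 := S.zexit K h1 ht
  have h3 := S.hr1 (-t) z
  rw [neg_neg] at h3
  rw [h3] at h2
  have h4 : π ≤ π - (F (-t) z).2.2 := h2
  linarith

theorem Sys.tr_xy (S : Sys A B C F) (i j : ℤ) (t : ℝ) (z : St) :
    F t (z + ((i : ℝ), (j : ℝ), 0)) = F t z + ((i : ℝ), (j : ℝ), 0) := by
  have e : ((i : ℝ), (j : ℝ), (0 : ℝ)) = ((i : ℝ), 0, 0) + (0, (j : ℝ), 0) := by simp
  rw [e, ← add_assoc, S.tr_y, S.tr_x, add_assoc]

theorem Sys.inv (S : Sys A B C F) (t : ℝ) (z : St) : F (-t) (F t z) = z := by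
  rw [S.group, neg_add_cancel, S.zero]

theorem Sys.inv' (S : Sys A B C F) (t : ℝ) (z : St) : F t (F (-t) z) = z := by
  rw [S.group, add_neg_cancel, S.zero]

theorem Sys.final (S : Sys A B C F) (μ : Measure St) [μ.IsAddHaarMeasure]
    (hvol : ∃ c0 : ℝ, 0 < c0 ∧ ∀ (t : ℝ) (O : Set St),
    IsOpen O → ENNReal.ofReal c0 * μ O ≤ μ (F t '' O)) :
    ∃ (z : St) (t : ℝ) (n j : ℤ), 0 < t ∧ |n| ≤ 1 ∧
      F t z = z + (0, (n : ℝ), 2 * π * (j : ℝ)) := by
  by_contra hcon
  have hN : NoC F := by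
    intro z t n j ht hn h
    exact hcon ⟨z, t, n, j, ht, hn, h⟩
  obtain ⟨ε, c, M, m, K⟩ := S.exists_cst
  obtain ⟨c0, hc0, hvol⟩ := hvol
  have hε := K.ε0
  have hc := K.c0
  have hpi := Real.pi_pos
  set κ : ℝ := 2 * ε / c with hκ
  have hκ0 : 0 < κ := by positivity
  set O : Set St := Ioo (1 / 4) (3 / 4) ×ˢ Ioo (1 / 4) (3 / 4) ×ˢ Ioo 0 ε with hO
  have hOo : IsOpen O := isOpen_Ioo.prod (isOpen_Ioo.prod isOpen_Ioo)
  have hOθ : ∀ z ∈ O, 0 < z.2.2 ∧ z.2.2 < ε := fun z hz => hz.2.2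
  have hOv : μ O ≠ 0 := by
    have : O.Nonempty := ⟨(1 / 2, 1 / 2, ε / 2), ⟨by norm_num, by norm_num⟩,
      ⟨by norm_num, by norm_num⟩, ⟨by show 0 < ε / 2; positivity, by show ε / 2 < ε; linarith⟩⟩
    exact (hOo.measure_pos μ this).ne'
  set D0 : Set St := Ico 0 1 ×ˢ Ico 0 1 ×ˢ Ioo 0 π with hD0
  have hD0m : MeasurableSet D0 :=
    measurableSet_Ico.prod (measurableSet_Ico.prod measurableSet_Ioo)
  have hD0v : μ D0 ≠ ⊤ := by
    have hb : Bornology.IsBounded D0 :=
      (Metric.isBounded_Ico 0 1).prod ((Metric.isBounded_Ico 0 1).prod (Metric.isBounded_Ioo 0 π))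
    exact hb.measure_lt_top.ne
  set g : ℤ × ℤ → St := fun p => ((p.1 : ℝ), (p.2 : ℝ), 0) with hg
  set A' : ℕ → Set St := fun n => F (n * κ) '' O with hA'
  have hcont : ∀ t, Continuous (F t) := fun t => S.cF.comp (continuous_const.prodMk continuous_id)
  have hA'eq : ∀ n, A' n = F (-(n * κ)) ⁻¹' O := by
    intro n
    ext a
    constructor
    · rintro ⟨z, hz, rfl⟩
      show F (-(n * κ)) (F (n * κ) z) ∈ O
      rw [S.inv]
      exact hz
    · intro ha
      exact ⟨_, ha, S.inv' _ _⟩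
  have hA'o : ∀ n, IsOpen (A' n) := fun n => by
    rw [hA'eq]
    exact hOo.preimage (hcont _)
  have hA'θ : ∀ n, ∀ a ∈ A' n, 0 < a.2.2 ∧ a.2.2 < π := by
    rintro n _ ⟨z, hz, rfl⟩
    have hn : 0 ≤ (n : ℝ) * κ := by positivity
    exact S.low K hN (hOθ z hz).1 (hOθ z hz).2.le hn _ (by rw [uIcc_of_le hn]; exact ⟨hn, le_rfl⟩)
  -- the pieces
  set P : ℕ → ℤ × ℤ → Set St := fun n p => (fun w => w + g p) ⁻¹' A' n ∩ D0 with hP
  have hPm : ∀ n p, MeasurableSet (P n p) := fun n p =>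
    ((hA'o n).preimage (continuous_id.add continuous_const)).measurableSet.inter hD0m
  have hdisj : Pairwise (Function.onFun Disjoint fun q : ℕ × (ℤ × ℤ) => P q.1 q.2) := by
    have key : ∀ (n n' : ℕ) (p p' : ℤ × ℤ) (w : St), w ∈ P n p → w ∈ P n' p' → n ≤ n' →
        (n, p) = (n', p') := by
      rintro n n' p p' w ⟨⟨z, hz, h1⟩, hw⟩ ⟨⟨z', hz', h2⟩, -⟩ hnn
      -- `w = F (nκ) z - g p = F (n'κ) z' - g p'`
      have h1' : F (n * κ) z = w + g p := h1
      have h2' : F (n' * κ) z' = w + g p' := h2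
      have h3 : w = F (-(n * κ)) w → True := fun _ => trivial
      -- pull back
      have e1 : z = F (-(n * κ)) w + g p := by
        rw [← S.tr_xy p.1 p.2, ← S.inv (n * κ) z, h1']
      have e2 : z' = F (-(n' * κ)) w + g p' := by
        rw [← S.tr_xy p'.1 p'.2, ← S.inv (n' * κ) z', h2']
      rcases hnn.lt_or_eq with hlt | heq
      · exfalso
        -- `z' - g p' = F (-(n'-n)κ) (z - g p)`
        have hge : κ ≤ (n' : ℝ) * κ - n * κ := by
          have : (n : ℝ) + 1 ≤ n' := by exact_mod_cast hlt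
          nlinarith
        have e3 : F (-(n' * κ)) w = F (-((n' : ℝ) * κ - n * κ)) (F (-(n * κ)) w) := by
          rw [S.group]
          congr 1
          ring
        have e4 : (F (-(n * κ)) w).2.2 ≤ ε := by
          have := (hOθ z hz).2
          rw [e1] at this
          have h5 : (F (-(n * κ)) w + g p).2.2 = (F (-(n * κ)) w).2.2 := by simp [hg]
          rw [h5] at this
          exact this.le
        have e5 := S.back_exit K e4 hge
        rw [← e3] at e5
        have e6 := (hOθ z' hz').1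
        rw [e2] at e6
        have h5 : (F (-(n' * κ)) w + g p').2.2 = (F (-(n' * κ)) w).2.2 := by simp [hg]
        rw [h5] at e6
        linarith
      · subst heq
        have hx : z.1 - z'.1 = (p.1 : ℝ) - p'.1 := by
          rw [e1, e2]
          simp only [hg, Prod.fst_add]
          ring
        have hy : z.2.1 - z'.2.1 = (p.2 : ℝ) - p'.2 := by
          rw [e1, e2]
          simp only [hg, Prod.snd_add, Prod.fst_add]
          ring
        have b1 := hz.1
        have b2 := hz'.1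
        have b3 := hz.2.1
        have b4 := hz'.2.1
        have i1 : p.1 = p'.1 := by
          have a1 : ((p.1 - p'.1 : ℤ) : ℝ) < 1 := by push_cast; linarith [b1.2, b2.1]
          have a2 : (-1 : ℝ) < ((p.1 - p'.1 : ℤ) : ℝ) := by push_cast; linarith [b1.1, b2.2]
          have a3 : p.1 - p'.1 < 1 := by exact_mod_cast a1
          have a4 : -1 < p.1 - p'.1 := by exact_mod_cast a2
          omega
        have i2 : p.2 = p'.2 := by
          have a1 : ((p.2 - p'.2 : ℤ) : ℝ) < 1 := by push_cast; linarith [b3.2, b4.1]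
          have a2 : (-1 : ℝ) < ((p.2 - p'.2 : ℤ) : ℝ) := by push_cast; linarith [b3.1, b4.2]
          have a3 : p.2 - p'.2 < 1 := by exact_mod_cast a1
          have a4 : -1 < p.2 - p'.2 := by exact_mod_cast a2
          omega
        rw [Prod.mk.injEq]
        exact ⟨rfl, Prod.ext i1 i2⟩
    rintro ⟨n, p⟩ ⟨n', p'⟩ hne
    rw [Function.onFun, Set.disjoint_left]
    intro w hw hw'
    apply hne
    rcases le_total n n' with h | h
    · exact key n n' p p' w hw hw' h
    · exact (key n' n p' p w hw' hw h).symm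
  -- upper bound
  have hupper : ∑' q : ℕ × (ℤ × ℤ), μ (P q.1 q.2) ≤ μ D0 := by
    rw [← measure_iUnion hdisj (fun q => hPm q.1 q.2)]
    apply measure_mono
    intro w hw
    obtain ⟨q, hq⟩ := mem_iUnion.1 hw
    exact hq.2
  -- lower bound
  have hlower : ∀ n, ENNReal.ofReal c0 * μ O ≤ ∑' p : ℤ × ℤ, μ (P n p) := by
    intro n
    refine (hvol (n * κ) O hOo).trans ?_
    have h1 : ∀ p, μ (P n p) = μ (A' n ∩ (fun a => a + -(g p)) ⁻¹' D0) := by
      intro p
      have e : P n p = (fun w => w + g p) ⁻¹' (A' n ∩ (fun a => a + -(g p)) ⁻¹' D0) := by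
        ext w
        simp [hP]
      rw [e, measure_preimage_add_right]
    simp only [h1]
    refine le_trans (measure_mono ?_) (measure_iUnion_le _)
    intro a ha
    rw [mem_iUnion]
    refine ⟨(⌊a.1⌋, ⌊a.2.1⌋), ha, ?_⟩
    have h2 := hA'θ n a ha
    refine ⟨?_, ?_, ?_⟩
    · show a.1 + -((⌊a.1⌋ : ℤ) : ℝ) ∈ Ico (0 : ℝ) 1
      have := Int.floor_le a.1
      have := Int.lt_floor_add_one a.1
      constructor <;> linarith
    · show a.2.1 + -((⌊a.2.1⌋ : ℤ) : ℝ) ∈ Ico (0 : ℝ) 1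
      have := Int.floor_le a.2.1
      have := Int.lt_floor_add_one a.2.1
      constructor <;> linarith
    · show a.2.2 + -0 ∈ Ioo 0 π
      rw [neg_zero, add_zero]
      exact h2
  have htop : ∑' q : ℕ × (ℤ × ℤ), μ (P q.1 q.2) = ⊤ := by
    rw [ENNReal.tsum_prod']
    apply top_le_iff.1
    calc (⊤ : ENNReal) = ∑' _ : ℕ, ENNReal.ofReal c0 * μ O := by
          symm
          apply ENNReal.tsum_const_eq_top_of_ne_zero
          exact mul_ne_zero (by rw [Ne, ENNReal.ofReal_eq_zero]; linarith) hOv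
      _ ≤ ∑' n : ℕ, ∑' p : ℤ × ℤ, μ (P n p) := ENNReal.tsum_le_tsum hlower
  rw [htop] at hupper
  exact hD0v (top_le_iff.1 hupper)

end

end MP4c42bd.Mir
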