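import Pool.Agent.Lib.MP_4c42bd_gt.Mir.Liou
import Pool.Agent.Lib.MP_4c42bd_gt.Mir.Vol
import Pool.Agent.Lib.MP_fabde4_an.N.Tint
import Pool.Agent.Lib.MP_fabde4_an.F.EllD

set_option autoImplicit false

/-!
# The flow of a smooth system
-/

open Set Filter Topology MeasureTheory Real
open scoped ContDiff

namespace MP4c42bd.Mir

/-- Smooth data. -/
structure Fld (A B : ℝ → ℝ → ℝ) (C : ℝ → ℝ → ℝ → ℝ) (ρ : ℝ → ℝ → ℝ) : Prop where
  sA : ContDiff ℝ ∞ fun z : ℝ × ℝ => A z.1 z.2
  sB : ContDiff ℝ ∞ fun z : ℝ × ℝ => B z.1 z.2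
  sC : ContDiff ℝ ∞ fun z : ℝ × ℝ × ℝ => C z.1 z.2.1 z.2.2
  sρ : ContDiff ℝ ∞ fun z : ℝ × ℝ => ρ z.1 z.2
  posA : ∀ x y, 0 < A x y
  posB : ∀ x y, 0 < B x y
  perx : ∀ x y θ, A (x + 1) y = A x y ∧ B (x + 1) y = B x y ∧ C (x + 1) y θ = C x y θ
  pery : ∀ x y θ, A x (y + 1) = A x y ∧ B x (y + 1) = B x y ∧ C x (y + 1) θ = C x y θ
  perθ : ∀ x y θ, C x y (θ + 2 * π) = C x y θ
  C0 : ∀ x y, 0 < C x y 0
  Cpi : ∀ x y, 0 < C x y π
  Cb : ∀ y, 0 < C 0 y (π / 2)
  bd : ∃ R : ℝ, ∀ x y θ, |A x y| ≤ R ∧ |B x y| ≤ R ∧ |C x y θ| ≤ R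
  bρ : ∃ r R : ℝ, 0 < r ∧ ∀ x y, r ≤ ρ x y ∧ ρ x y ≤ R
  e1 : ∀ x y θ, A x (-y) = A x y ∧ B x (-y) = B x y ∧ C x (-y) (π - θ) = C x y θ
  e2 : ∀ x y θ, A (-x) y = A x y ∧ B (-x) y = B x y ∧ C (-x) y (-θ) = C x y θ
  liou : ∀ x y θ, ∃ dA dB dC : ℝ,
    HasDerivAt (fun u => ρ u y * A u y) dA x ∧ HasDerivAt (fun u => ρ x u * B x u) dB y ∧
    HasDerivAt (fun u => C x y u) dC θ ∧ dA * cos θ + dB * sin θ + ρ x y * dC = 0

abbrev E3 := MPfab.E

/-- coordinates -/
noncomputable def Lc : E3 ≃ₗ[ℝ] St where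
  toFun v := (v 0, v 1, v 2)
  invFun z := !₂[z.1, z.2.1, z.2.2]
  map_add' v w := rfl
  map_smul' a v := rfl
  left_inv v := by
    ext i
    fin_cases i <;> rfl
  right_inv z := rfl

theorem Lc_apply (v : E3) : Lc v = (v 0, v 1, v 2) := rfl

theorem Lc_symm_apply (z : St) : Lc.symm z = !₂[z.1, z.2.1, z.2.2] := rfl

theorem Lc_cont : Continuous Lc := by
  have : Continuous fun v : E3 => (v 0, v 1, v 2) := by fun_prop
  exact this

theorem Lc_symm_cont : Continuous Lc.symm := LinearMap.continuous_of_finiteDimensional _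

section
variable {A B : ℝ → ℝ → ℝ} {C : ℝ → ℝ → ℝ → ℝ} {ρ : ℝ → ℝ → ℝ}

/-- the vector field -/
noncomputable def fld (A B : ℝ → ℝ → ℝ) (C : ℝ → ℝ → ℝ → ℝ) (v : E3) : E3 :=
  !₂[A (v 0) (v 1) * cos (v 2), B (v 0) (v 1) * sin (v 2), C (v 0) (v 1) (v 2)]

theorem co_sm (i : Fin 3) : MPfab.Sm fun v : E3 => v i := by
  have : MPfab.Sm fun v : E3 => (EuclideanSpace.proj (𝕜 := ℝ) i : E3 →L[ℝ] ℝ) v :=
    ContinuousLinearMap.contDiff _
  exact this

theorem Fld.smA (D : Fld A B C ρ) : MPfab.Sm fun v : E3 => A (v 0) (v 1) :=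
  D.sA.comp (f := fun v : E3 => (v 0, v 1)) ((co_sm 0).prodMk (co_sm 1))

theorem Fld.smB (D : Fld A B C ρ) : MPfab.Sm fun v : E3 => B (v 0) (v 1) :=
  D.sB.comp (f := fun v : E3 => (v 0, v 1)) ((co_sm 0).prodMk (co_sm 1))

theorem Fld.smρ (D : Fld A B C ρ) : MPfab.Sm fun v : E3 => ρ (v 0) (v 1) :=
  D.sρ.comp (f := fun v : E3 => (v 0, v 1)) ((co_sm 0).prodMk (co_sm 1))

theorem Fld.smC (D : Fld A B C ρ) : MPfab.Sm fun v : E3 => C (v 0) (v 1) (v 2) :=
  D.sC.comp (f := fun v : E3 => (v 0, v 1, v 2)) ((co_sm 0).prodMk ((co_sm 1).prodMk (co_sm 2)))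

theorem fld_0 (v : E3) : (fld A B C v) 0 = A (v 0) (v 1) * cos (v 2) := rfl
theorem fld_1 (v : E3) : (fld A B C v) 1 = B (v 0) (v 1) * sin (v 2) := rfl
theorem fld_2 (v : E3) : (fld A B C v) 2 = C (v 0) (v 1) (v 2) := rfl

theorem Fld.sm (D : Fld A B C ρ) : MPfab.Sm (fld A B C) := by
  unfold MPfab.Sm
  rw [contDiff_euclidean]
  intro i
  fin_cases i
  · exact D.smA.mul ((contDiff_cos.of_le le_top).comp (co_sm 2))
  · exact D.smB.mul ((contDiff_sin.of_le le_top).comp (co_sm 2))
  · exact D.smC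

theorem Fld.lin (D : Fld A B C ρ) : ∃ K : ℝ, ∀ v, ‖fld A B C v‖ ≤ K * (1 + ‖v‖) := by
  obtain ⟨R, hR⟩ := D.bd
  refine ⟨3 * R, fun v => ?_⟩
  have h1 := hR (v 0) (v 1) (v 2)
  have hR0 : 0 ≤ R := (abs_nonneg _).trans h1.1
  have h2 : ‖fld A B C v‖ ≤ 3 * R := by
    rw [EuclideanSpace.norm_eq, Fin.sum_univ_three, fld_0, fld_1, fld_2]
    rw [Real.sqrt_le_left (by positivity)]
    simp only [Real.norm_eq_abs, abs_mul, sq_abs, mul_pow]
    have a1 : A (v 0) (v 1) ^ 2 ≤ R ^ 2 := sq_le_sq' (by linarith [(abs_le.1 h1.1).1])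
      (abs_le.1 h1.1).2
    have a2 : B (v 0) (v 1) ^ 2 ≤ R ^ 2 := sq_le_sq' (by linarith [(abs_le.1 h1.2.1).1])
      (abs_le.1 h1.2.1).2
    have a3 : C (v 0) (v 1) (v 2) ^ 2 ≤ R ^ 2 := sq_le_sq' (by linarith [(abs_le.1 h1.2.2).1])
      (abs_le.1 h1.2.2).2
    have c1 : cos (v 2) ^ 2 ≤ 1 := by
      have := cos_sq_add_sin_sq (v 2)
      nlinarith [sq_nonneg (sin (v 2))]
    have c2 : sin (v 2) ^ 2 ≤ 1 := by
      have := cos_sq_add_sin_sq (v 2)
      nlinarith [sq_nonneg (cos (v 2))]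
    have b1 : A (v 0) (v 1) ^ 2 * cos (v 2) ^ 2 ≤ R ^ 2 := by
      nlinarith [sq_nonneg (A (v 0) (v 1)), sq_nonneg (cos (v 2))]
    have b2 : B (v 0) (v 1) ^ 2 * sin (v 2) ^ 2 ≤ R ^ 2 := by
      nlinarith [sq_nonneg (B (v 0) (v 1)), sq_nonneg (sin (v 2))]
    nlinarith [sq_nonneg R]
  have h3 : 3 * R * 1 ≤ 3 * R * (1 + ‖v‖) :=
    mul_le_mul_of_nonneg_left (by linarith [norm_nonneg v]) (by positivity)
  linarith

theorem hasDerivAt_E3 {γ : ℝ → E3} {v : E3} {t : ℝ} (h : ∀ i, HasDerivAt (fun s => γ s i) (v i) t) :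
    HasDerivAt γ v t := by
  rw [← hasDerivWithinAt_univ, hasDerivWithinAt_iff_hasFDerivWithinAt,
    hasFDerivWithinAt_euclidean]
  intro i
  refine ((h i).hasFDerivAt.hasFDerivWithinAt (s := univ)).congr_fderiv ?_
  ext
  simp

theorem hasDerivAt_comp_neg' {f : ℝ → ℝ} {f' s : ℝ} (h : HasDerivAt f f' (-s)) :
    HasDerivAt (fun s => f (-s)) (-f') s := by
  have := h.scomp s (hasDerivAt_neg s)
  simpa [Function.comp_def] using this

theorem hasDerivAt_co {γ : ℝ → E3} {v : E3} {t : ℝ} (h : HasDerivAt γ v t) (i : Fin 3) :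
    HasDerivAt (fun s => γ s i) (v i) t :=
  ((EuclideanSpace.proj (𝕜 := ℝ) i : E3 →L[ℝ] ℝ).hasFDerivAt).comp_hasDerivAt t h

/-- uniqueness in coordinates -/
theorem Fld.uniq (D : Fld A B C ρ) {γ γ' : ℝ → E3} (h : ∀ t, HasDerivAt γ (fld A B C (γ t)) t)
    (h' : ∀ t, HasDerivAt γ' (fld A B C (γ' t)) t) (h0 : γ 0 = γ' 0) (t : ℝ) : γ t = γ' t :=
  MPfab.FlowC.uniq (D.sm.of_le (by simp)) (t₀ := 0) h h' h0 t

theorem Fld.divergence (D : Fld A B C ρ) (v : E3) :
    fderiv ℝ (fun v : E3 => ρ (v 0) (v 1)) v (fld A B C v) + ρ (v 0) (v 1) *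
      (∑ i, (fderiv ℝ (fld A B C) v (MPfab.eb i)) i) = 0 := by
  -- reduce to one variable derivatives
  have hdir : ∀ (f : E3 → ℝ), MPfab.Sm f → ∀ w : E3,
      HasDerivAt (fun s : ℝ => f (v + s • w)) (fderiv ℝ f v w) 0 := by
    intro f hf w
    have h1 : HasFDerivAt f (fderiv ℝ f v) (v + (0 : ℝ) • w) := by
      rw [zero_smul, add_zero]
      exact (hf.differentiable v).hasFDerivAt
    have h2 : HasDerivAt (fun s : ℝ => v + s • w) ((1 : ℝ) • w) 0 :=
      ((hasDerivAt_id (0 : ℝ)).smul_const w).const_add v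
    rw [one_smul] at h2
    exact h1.comp_hasDerivAt 0 h2
  have hcomp : ∀ (i : Fin 3) (w : E3), (fderiv ℝ (fld A B C) v w) i =
      fderiv ℝ (fun u : E3 => (fld A B C u) i) v w := by
    intro i w
    have h1 : HasFDerivAt (fld A B C) (fderiv ℝ (fld A B C) v) v :=
      (D.sm.differentiable v).hasFDerivAt
    have h2 := ((EuclideanSpace.proj (𝕜 := ℝ) i : E3 →L[ℝ] ℝ).hasFDerivAt).comp v h1
    have h3 : fderiv ℝ (fun u : E3 => (fld A B C u) i) v =
        (EuclideanSpace.proj (𝕜 := ℝ) i : E3 →L[ℝ] ℝ).comp (fderiv ℝ (fld A B C) v) := h2.fderiv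
    rw [h3]
    rfl
  rw [Fin.sum_univ_three, hcomp, hcomp, hcomp]
  obtain ⟨dA, dB, dC, hA, hB, hC, hsum⟩ := D.liou (v 0) (v 1) (v 2)
  have smc : MPfab.Sm fun u : E3 => (fld A B C u) 0 :=
    D.smA.mul ((contDiff_cos.of_le le_top).comp (co_sm 2))
  have sms : MPfab.Sm fun u : E3 => (fld A B C u) 1 :=
    D.smB.mul ((contDiff_sin.of_le le_top).comp (co_sm 2))
  -- third component
  have k3 : fderiv ℝ (fun u : E3 => (fld A B C u) 2) v (MPfab.eb 2) = dC := by
    have h1 := hdir _ D.smC (MPfab.eb 2)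
    have h2 : (fun s : ℝ => (fun v : E3 => C (v 0) (v 1) (v 2)) (v + s • MPfab.eb 2)) =
        fun s => C (v 0) (v 1) (v 2 + s) := by
      funext s
      simp [MPfab.eb]
    rw [h2] at h1
    have h3 : HasDerivAt (fun s : ℝ => C (v 0) (v 1) (v 2 + s)) dC 0 := by
      have h4 : HasDerivAt (fun u => C (v 0) (v 1) u) dC (v 2 + 0) := by rw [add_zero]; exact hC
      exact h4.comp_const_add (v 2) 0
    exact h1.unique h3
  -- first component
  have k1 : fderiv ℝ (fun v : E3 => ρ (v 0) (v 1)) v (MPfab.eb 0) * A (v 0) (v 1) * cos (v 2) +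
      ρ (v 0) (v 1) * fderiv ℝ (fun u : E3 => (fld A B C u) 0) v (MPfab.eb 0) =
      dA * cos (v 2) := by
    have h1 := hdir _ D.smρ (MPfab.eb 0)
    have h2 := hdir _ smc (MPfab.eb 0)
    have h3 := h1.mul h2
    have e3 : ((fun s : ℝ => (fun v : E3 => ρ (v 0) (v 1)) (v + s • MPfab.eb 0)) *
        fun s : ℝ => (fun u : E3 => (fld A B C u) 0) (v + s • MPfab.eb 0)) =
        fun s => (ρ (v 0 + s) (v 1) * A (v 0 + s) (v 1)) * cos (v 2) := by
      funext s
      simp [MPfab.eb, fld_0]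
      ring
    rw [e3] at h3
    have h4 : HasDerivAt (fun s : ℝ => (ρ (v 0 + s) (v 1) * A (v 0 + s) (v 1)) * cos (v 2))
        (dA * cos (v 2)) 0 := by
      have h5 : HasDerivAt (fun u => ρ u (v 1) * A u (v 1)) dA (v 0 + 0) := by
        rw [add_zero]; exact hA
      exact (h5.comp_const_add (v 0) 0).mul_const _
    have h5 := h3.unique h4
    simp only [zero_smul, add_zero] at h5
    rw [← h5]
    simp only [fld_0]
    ring
  have k2 : fderiv ℝ (fun v : E3 => ρ (v 0) (v 1)) v (MPfab.eb 1) * B (v 0) (v 1) * sin (v 2) +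
      ρ (v 0) (v 1) * fderiv ℝ (fun u : E3 => (fld A B C u) 1) v (MPfab.eb 1) =
      dB * sin (v 2) := by
    have h1 := hdir _ D.smρ (MPfab.eb 1)
    have h2 := hdir _ sms (MPfab.eb 1)
    have h3 := h1.mul h2
    have e3 : ((fun s : ℝ => (fun v : E3 => ρ (v 0) (v 1)) (v + s • MPfab.eb 1)) *
        fun s : ℝ => (fun u : E3 => (fld A B C u) 1) (v + s • MPfab.eb 1)) =
        fun s => (ρ (v 0) (v 1 + s) * B (v 0) (v 1 + s)) * sin (v 2) := by
      funext s
      simp [MPfab.eb, fld_1]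
      ring
    rw [e3] at h3
    have h4 : HasDerivAt (fun s : ℝ => (ρ (v 0) (v 1 + s) * B (v 0) (v 1 + s)) * sin (v 2))
        (dB * sin (v 2)) 0 := by
      have h5 : HasDerivAt (fun u => ρ (v 0) u * B (v 0) u) dB (v 1 + 0) := by
        rw [add_zero]; exact hB
      exact (h5.comp_const_add (v 1) 0).mul_const _
    have h5 := h3.unique h4
    simp only [zero_smul, add_zero] at h5
    rw [← h5]
    simp only [fld_1]
    ring
  -- the density does not depend on the angle
  have k0 : fderiv ℝ (fun v : E3 => ρ (v 0) (v 1)) v (MPfab.eb 2) = 0 := by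
    have h1 := hdir _ D.smρ (MPfab.eb 2)
    have h2 : (fun s : ℝ => (fun v : E3 => ρ (v 0) (v 1)) (v + s • MPfab.eb 2)) =
        fun _ => ρ (v 0) (v 1) := by
      funext s
      simp [MPfab.eb]
    rw [h2] at h1
    exact h1.unique (hasDerivAt_const _ _)
  have kT : fld A B C v = (A (v 0) (v 1) * cos (v 2)) • MPfab.eb 0 +
      (B (v 0) (v 1) * sin (v 2)) • MPfab.eb 1 + (C (v 0) (v 1) (v 2)) • MPfab.eb 2 := by
    ext i
    fin_cases i <;> simp [fld, MPfab.eb]
  rw [kT, map_add, map_add, map_smul, map_smul, map_smul, k0]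
  simp only [smul_eq_mul, mul_zero, add_zero]
  rw [k3]
  linear_combination k1 + k2 + hsum

theorem Fld.exists_sys (D : Fld A B C ρ) : ∃ F : ℝ → St → St, Sys A B C F ∧
    ∃ (z : St) (t : ℝ) (n j : ℤ), 0 < t ∧ |n| ≤ 1 ∧
      F t z = z + (0, (n : ℝ), 2 * π * (j : ℝ)) := by
  obtain ⟨K, hK⟩ := D.lin
  obtain ⟨G, hG0, hGd⟩ := MPfab.specGlob E3 (fld A B C) K (D.sm.of_le (by simp)) hK
  have hG := MPfab.specFlowC MPfab.specGlob E3 (fld A B C) G D.sm hG0 hGd
  set F : ℝ → St → St := fun t z => Lc (G (t, Lc.symm z)) with hF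
  have hGF : ∀ t z, G (t, Lc.symm z) = Lc.symm (F t z) := fun t z => by
    rw [hF]; simp
  -- equality of flow lines
  have huniq : ∀ (z w : St) (γ : ℝ → St) (t : ℝ), γ 0 = w →
      (∀ s, HasDerivAt (fun s => (γ s).1) (A (γ s).1 (γ s).2.1 * cos (γ s).2.2) s) →
      (∀ s, HasDerivAt (fun s => (γ s).2.1) (B (γ s).1 (γ s).2.1 * sin (γ s).2.2) s) →
      (∀ s, HasDerivAt (fun s => (γ s).2.2) (C (γ s).1 (γ s).2.1 (γ s).2.2) s) →
      F t w = γ t := by
    intro z w γ t h0 h1 h2 h3
    have h4 := D.uniq (γ := fun s => G (s, Lc.symm w)) (γ' := fun s => Lc.symm (γ s))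
      (fun s => hGd s _) (fun s => by
        apply hasDerivAt_E3
        intro i
        fin_cases i
        · exact h1 s
        · exact h2 s
        · exact h3 s) (by rw [hG0, h0]) t
    show Lc (G (t, Lc.symm w)) = γ t
    rw [h4]
    simp
  have dx : ∀ t z, HasDerivAt (fun s => (F s z).1)
      (A (F t z).1 (F t z).2.1 * cos (F t z).2.2) t := fun t z =>
    hasDerivAt_co (hGd t (Lc.symm z)) 0
  have dy : ∀ t z, HasDerivAt (fun s => (F s z).2.1)
      (B (F t z).1 (F t z).2.1 * sin (F t z).2.2) t := fun t z =>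
    hasDerivAt_co (hGd t (Lc.symm z)) 1
  have dθ : ∀ t z, HasDerivAt (fun s => (F s z).2.2)
      (C (F t z).1 (F t z).2.1 (F t z).2.2) t := fun t z =>
    hasDerivAt_co (hGd t (Lc.symm z)) 2
  have hzero : ∀ z, F 0 z = z := fun z => by
    show Lc (G (0, Lc.symm z)) = z
    rw [hG0]; simp
  have S : Sys A B C F :=
    { cA := D.sA.continuous
      cB := D.sB.continuous
      cC := D.sC.continuous
      posA := D.posA
      posB := D.posB
      perx := D.perx
      pery := D.pery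
      C0 := D.C0
      Cpi := D.Cpi
      Cb := D.Cb
      cF := by
        have h1 : Continuous fun p : ℝ × St => (p.1, Lc.symm p.2) :=
          continuous_fst.prodMk (Lc_symm_cont.comp continuous_snd)
        exact Lc_cont.comp (hG.smooth.continuous.comp h1)
      zero := hzero
      group := by
        intro s t z
        show Lc (G (s, Lc.symm (Lc (G (t, Lc.symm z))))) = Lc (G (s + t, Lc.symm z))
        rw [LinearEquiv.symm_apply_apply, hG.group]
      dx := dx
      dy := dy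
      dθ := dθ
      trx := by
        intro t z
        refine huniq z (z + (1, 0, 0)) (fun s => F s z + (1, 0, 0)) t (by rw [hzero]) ?_ ?_ ?_
        · intro s
          have := (dx s z).add_const 1
          simp only [Prod.fst_add, Prod.snd_add, add_zero]
          rw [(D.perx _ _ 0).1]
          exact this
        · intro s
          simp only [Prod.fst_add, Prod.snd_add, add_zero]
          rw [(D.perx _ _ 0).2.1]
          exact dy s z
        · intro s
          simp only [Prod.fst_add, Prod.snd_add, add_zero]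
          rw [(D.perx _ _ _).2.2]
          exact dθ s z
      tryy := by
        intro t z
        refine huniq z (z + (0, 1, 0)) (fun s => F s z + (0, 1, 0)) t (by rw [hzero]) ?_ ?_ ?_
        · intro s
          simp only [Prod.fst_add, Prod.snd_add, add_zero]
          rw [(D.pery _ _ 0).1]
          exact dx s z
        · intro s
          have := (dy s z).add_const 1
          simp only [Prod.fst_add, Prod.snd_add, add_zero]
          rw [(D.pery _ _ 0).2.1]
          exact this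
        · intro s
          simp only [Prod.fst_add, Prod.snd_add, add_zero]
          rw [(D.pery _ _ _).2.2]
          exact dθ s z
      trθ := by
        intro t z
        refine huniq z (z + (0, 0, 2 * π)) (fun s => F s z + (0, 0, 2 * π)) t (by rw [hzero])
          ?_ ?_ ?_
        · intro s
          simp only [Prod.fst_add, Prod.snd_add, add_zero, cos_add_two_pi]
          exact dx s z
        · intro s
          simp only [Prod.fst_add, Prod.snd_add, add_zero, sin_add_two_pi]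
          exact dy s z
        · intro s
          have := (dθ s z).add_const (2 * π)
          simp only [Prod.fst_add, Prod.snd_add, add_zero]
          rw [D.perθ]
          exact this
      hr1 := by
        intro t z
        have key := huniq z (r1 z) (fun s => r1 (F (-s) z)) (-t) (by rw [neg_zero, hzero])
          (fun s => by
            have h1 : HasDerivAt (fun s => (F (-s) z).1) (-(A (F (-s) z).1 (F (-s) z).2.1 *
              cos (F (-s) z).2.2)) s :=
              hasDerivAt_comp_neg' (dx (-s) z)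
            refine h1.congr_deriv ?_
            simp only [r1]
            rw [(D.e1 _ _ 0).1, cos_pi_sub]
            ring)
          (fun s => by
            have h1 : HasDerivAt (fun s => (F (-s) z).2.1) (-(B (F (-s) z).1 (F (-s) z).2.1 *
              sin (F (-s) z).2.2)) s :=
              hasDerivAt_comp_neg' (dy (-s) z)
            refine h1.neg.congr_deriv ?_
            simp only [r1]
            rw [(D.e1 _ _ 0).2.1, sin_pi_sub]
            ring)
          (fun s => by
            have h1 : HasDerivAt (fun s => (F (-s) z).2.2) (-(C (F (-s) z).1 (F (-s) z).2.1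
              (F (-s) z).2.2)) s :=
              hasDerivAt_comp_neg' (dθ (-s) z)
            refine (h1.const_sub π).congr_deriv ?_
            simp only [r1]
            rw [(D.e1 _ _ _).2.2]
            ring)
        rw [neg_neg] at key
        exact key
      hr2 := by
        intro t z
        have key := huniq z (r2 z) (fun s => r2 (F (-s) z)) (-t) (by rw [neg_zero, hzero])
          (fun s => by
            have h1 : HasDerivAt (fun s => (F (-s) z).1) (-(A (F (-s) z).1 (F (-s) z).2.1 *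
              cos (F (-s) z).2.2)) s :=
              hasDerivAt_comp_neg' (dx (-s) z)
            refine h1.neg.congr_deriv ?_
            simp only [r2]
            rw [(D.e2 _ _ 0).1, cos_neg]
            ring)
          (fun s => by
            have h1 : HasDerivAt (fun s => (F (-s) z).2.1) (-(B (F (-s) z).1 (F (-s) z).2.1 *
              sin (F (-s) z).2.2)) s :=
              hasDerivAt_comp_neg' (dy (-s) z)
            refine h1.congr_deriv ?_
            simp only [r2]
            rw [(D.e2 _ _ 0).2.1, sin_neg]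
            ring)
          (fun s => by
            have h1 : HasDerivAt (fun s => (F (-s) z).2.2) (-(C (F (-s) z).1 (F (-s) z).2.1
              (F (-s) z).2.2)) s :=
              hasDerivAt_comp_neg' (dθ (-s) z)
            refine h1.neg.congr_deriv ?_
            simp only [r2]
            rw [(D.e2 _ _ _).2.2]
            ring)
        rw [neg_neg] at key
        exact key }
  refine ⟨F, S, ?_⟩
  -- the volume
  obtain ⟨r, R, hr, hρ⟩ := D.bρ
  have hvol := vol_lower hG D.smρ D.divergence hr (fun v => (hρ _ _).1) (fun v => (hρ _ _).2)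
  set μ : Measure St := (volume : Measure E3).map Lc with hμ
  have hμi : μ.IsAddHaarMeasure := by
    rw [hμ]
    infer_instance
  have hmeas : Measurable (Lc : E3 → St) := Lc_cont.measurable
  have hR0 : 0 < R := hr.trans_le ((hρ 0 0).1.trans (hρ 0 0).2)
  refine S.final μ ⟨r / R, div_pos hr hR0, ?_⟩
  intro t O hO
  have hcont : Continuous (F t) := S.cF.comp (continuous_const.prodMk continuous_id)
  have himage : F t '' O = F (-t) ⁻¹' O := by
    ext a
    constructor
    · rintro ⟨z, hz, rfl⟩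
      show F (-t) (F t z) ∈ O
      rw [S.inv]
      exact hz
    · intro ha
      exact ⟨_, ha, S.inv' _ _⟩
  have hFO : IsOpen (F t '' O) := by
    rw [himage]
    exact hO.preimage (S.cF.comp (continuous_const.prodMk continuous_id))
  rw [hμ, Measure.map_apply hmeas hO.measurableSet, Measure.map_apply hmeas hFO.measurableSet]
  refine (hvol t _ (hO.preimage Lc_cont)).trans (measure_mono ?_)
  rintro _ ⟨v, hv, rfl⟩
  refine ⟨Lc v, hv, ?_⟩
  show Lc (G (t, Lc.symm (Lc v))) = Lc (G (t, v))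
  rw [LinearEquiv.symm_apply_apply]

end

end MP4c42bd.Mir
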