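import Pool.Agent.Lib.MP_fabde4_an.M.Lop

set_option autoImplicit false

/-!
# Liouville's theorem with a density
-/

open Set Filter Topology MeasureTheory MPfab MPfab.PullM

namespace MP4c42bd.Mir

/-- the matrix entries -/
theorem det_three (A : E →L[ℝ] E) : A.det =
    (A (eb 0)) 0 * (A (eb 1)) 1 * (A (eb 2)) 2 - (A (eb 0)) 0 * (A (eb 2)) 1 * (A (eb 1)) 2
    - (A (eb 1)) 0 * (A (eb 0)) 1 * (A (eb 2)) 2 + (A (eb 1)) 0 * (A (eb 2)) 1 * (A (eb 0)) 2
    + (A (eb 2)) 0 * (A (eb 0)) 1 * (A (eb 1)) 2 - (A (eb 2)) 0 * (A (eb 1)) 1 * (A (eb 0)) 2 := by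
  have h1 : A.det = (Matrix.of fun i j : Fin 3 => (A (eb j)) i).det := by
    rw [det_eq, Matrix.det_apply]
    rfl
  rw [h1, Matrix.det_fin_three]
  rfl

theorem entry_deriv {T : E → E} {F : ℝ × E → E} (hF : IsFlow T F) (x : E) (i j : Fin 3) :
    HasDerivAt (fun s => (J F s x (eb j)) i) ((fderiv ℝ T x (eb j)) i) 0 := by
  have h1 := (J_deriv hF x).clm_apply (hasDerivAt_const (0 : ℝ) (eb j))
  simp only [map_zero, add_zero] at h1
  exact ((EuclideanSpace.proj (𝕜 := ℝ) i : E →L[ℝ] ℝ).hasFDerivAt).comp_hasDerivAt 0 h1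

theorem entry_zero {T : E → E} {F : ℝ × E → E} (hF : IsFlow T F) (x : E) (i j : Fin 3) :
    (J F 0 x (eb j)) i = if i = j then 1 else 0 := by
  rw [J_zero hF]
  simp [eb]

theorem det_deriv {T : E → E} {F : ℝ × E → E} (hF : IsFlow T F) (x : E) :
    HasDerivAt (fun s => (J F s x).det) (∑ i, (fderiv ℝ T x (eb i)) i) 0 := by
  have e : (fun s => (J F s x).det) = fun s =>
      (J F s x (eb 0)) 0 * (J F s x (eb 1)) 1 * (J F s x (eb 2)) 2
      - (J F s x (eb 0)) 0 * (J F s x (eb 2)) 1 * (J F s x (eb 1)) 2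
      - (J F s x (eb 1)) 0 * (J F s x (eb 0)) 1 * (J F s x (eb 2)) 2
      + (J F s x (eb 1)) 0 * (J F s x (eb 2)) 1 * (J F s x (eb 0)) 2
      + (J F s x (eb 2)) 0 * (J F s x (eb 0)) 1 * (J F s x (eb 1)) 2
      - (J F s x (eb 2)) 0 * (J F s x (eb 1)) 1 * (J F s x (eb 0)) 2 := by
    funext s
    exact det_three _
  rw [e]
  have d := entry_deriv hF x
  have h := ((((((((d 0 0).mul (d 1 1)).mul (d 2 2)).sub (((d 0 0).mul (d 1 2)).mul (d 2 1))).sub
    (((d 0 1).mul (d 1 0)).mul (d 2 2))).add (((d 0 1).mul (d 1 2)).mul (d 2 0))).add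
    (((d 0 2).mul (d 1 0)).mul (d 2 1))).sub (((d 0 2).mul (d 1 1)).mul (d 2 0)))
  refine h.congr_deriv ?_
  simp only [Pi.mul_apply, entry_zero hF, Fin.sum_univ_three]
  simp

/-- Liouville's theorem: `ρ(F_t z) det DF_t(z) = ρ(z)`. -/
theorem liouville {T : E → E} {F : ℝ × E → E} (hF : IsFlow T F) {ρ : E → ℝ} (hρ : Sm ρ)
    (hdiv : ∀ v, fderiv ℝ ρ v (T v) + ρ v * (∑ i, (fderiv ℝ T v (eb i)) i) = 0) (t : ℝ) (x : E) :
    ρ (F (t, x)) * (J F t x).det = ρ x := by
  have hder : ∀ t, HasDerivAt (fun s => ρ (F (s, x)) * (J F s x).det) 0 t := by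
    intro t
    set w := F (t, x) with hw
    have h1 : HasDerivAt (fun s => ρ (F (s, w))) (fderiv ℝ ρ w (T w)) 0 := by
      have e1 : HasFDerivAt ρ (fderiv ℝ ρ w) (F (0, w)) := by
        rw [hF.zero]
        exact (hρ.differentiable w).hasFDerivAt
      have e2 := hF.deriv 0 w
      rw [hF.zero] at e2
      exact e1.comp_hasDerivAt 0 e2
    have h2 := h1.mul (det_deriv hF w)
    have e0 : (fderiv ℝ ρ w (T w) * (J F 0 w).det +
        ρ (F (0, w)) * ∑ i, (fderiv ℝ T w (eb i)) i) * (J F t x).det = 0 := by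
      rw [J_zero hF, hF.zero]
      have : (ContinuousLinearMap.id ℝ E).det = 1 := by
        rw [det_three]
        simp [eb]
      rw [this, mul_one, hdiv w, zero_mul]
    have h3 : HasDerivAt (fun s => ρ (F (s, w)) * (J F s w).det * (J F t x).det) 0 0 :=
      (h2.mul_const ((J F t x).det)).congr_deriv e0
    have h4 : (fun s => ρ (F (s, w)) * (J F s w).det * (J F t x).det) =
        fun s => ρ (F (s + t, x)) * (J F (s + t) x).det := by
      funext s
      rw [J_comp hF s t x, ← hF.group s t x, ← hw, mul_assoc]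
      congr 1
      show _ = LinearMap.det ((J F s w : E →ₗ[ℝ] E) ∘ₗ (J F t x : E →ₗ[ℝ] E))
      rw [LinearMap.det_comp]
    rw [h4] at h3
    have h5 := HasDerivAt.comp_sub_const t t (by rw [sub_self]; exact h3)
    simpa only [sub_add_cancel] using h5
  have hconst := is_const_of_deriv_eq_zero (fun s => (hder s).differentiableAt)
    (fun s => (hder s).deriv) t 0
  rw [hconst, hF.zero, J_zero hF]
  have : (ContinuousLinearMap.id ℝ E).det = 1 := by
    rw [det_three]
    simp [eb]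
  rw [this, mul_one]

theorem vol_lower {T : E → E} {F : ℝ × E → E} (hF : IsFlow T F) {ρ : E → ℝ} (hρ : Sm ρ)
    (hdiv : ∀ v, fderiv ℝ ρ v (T v) + ρ v * (∑ i, (fderiv ℝ T v (eb i)) i) = 0) {r R : ℝ}
    (hr : 0 < r) (hlo : ∀ v, r ≤ ρ v) (hhi : ∀ v, ρ v ≤ R) (t : ℝ) (O : Set E) (hO : IsOpen O) :
    ENNReal.ofReal (r / R) * volume O ≤ volume ((fun v => F (t, v)) '' O) := by
  have hR : 0 < R := hr.trans_le ((hlo 0).trans (hhi 0))
  have hinj : Function.Injective fun v => F (t, v) := by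
    intro v w h
    have h' : F (t, v) = F (t, w) := h
    have h1 := hF.group (-t) t v
    have h2 := hF.group (-t) t w
    rw [neg_add_cancel, hF.zero] at h1 h2
    rw [← h1, ← h2, h']
  have hsm : Sm fun v => F (t, v) := hF.smooth.comp (contDiff_const.prodMk contDiff_id)
  have h1 := lintegral_abs_det_fderiv_eq_addHaar_image volume hO.measurableSet
    (f := fun v => F (t, v)) (f' := fun v => J F t v)
    (fun v _ => ((hsm.differentiable v).hasFDerivAt).hasFDerivWithinAt)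
    hinj.injOn
  rw [← h1]
  calc ENNReal.ofReal (r / R) * volume O = ∫⁻ _ in O, ENNReal.ofReal (r / R) := by
        rw [setLIntegral_const]
    _ ≤ ∫⁻ v in O, ENNReal.ofReal |(J F t v).det| := by
        refine lintegral_mono fun v => ENNReal.ofReal_le_ofReal ?_
        have h2 := liouville hF hρ hdiv t v
        have h3 : 0 < ρ (F (t, v)) := hr.trans_le (hlo _)
        have h4 : (J F t v).det = ρ v / ρ (F (t, v)) := by
          rw [eq_div_iff h3.ne', mul_comm]
          exact h2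
        rw [h4, abs_of_pos (div_pos (hr.trans_le (hlo _)) h3)]
        exact div_le_div₀ (hr.le.trans (hlo _)) (hlo _) h3 (hhi _)

end MP4c42bd.Mir
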