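import Pool.Agent.Lib.MP_4c42bd_gt.Mir.Flow
import Pool.Agent.Lib.MP_4c42bd_gt.Defs

set_option autoImplicit false

/-!
# From the torus to the reversible systems
-/

open Set Filter Topology Real
open scoped ContDiff

namespace MP4c42bd.Mir

/-! ### Functions of two variables -/

/-- partial derivative in `x` -/
noncomputable def px (f : ℝ × ℝ → ℝ) (x y : ℝ) : ℝ := fderiv ℝ f (x, y) (1, 0)

/-- partial derivative in `y` -/
noncomputable def py (f : ℝ × ℝ → ℝ) (x y : ℝ) : ℝ := fderiv ℝ f (x, y) (0, 1)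

section
variable {f : ℝ × ℝ → ℝ}

theorem px_sm (hf : ContDiff ℝ ∞ f) : ContDiff ℝ ∞ fun z : ℝ × ℝ => px f z.1 z.2 := by
  have h1 : ContDiff ℝ ∞ (fderiv ℝ f) := hf.fderiv_right (m := ∞) (by simp)
  exact h1.clm_apply contDiff_const

theorem py_sm (hf : ContDiff ℝ ∞ f) : ContDiff ℝ ∞ fun z : ℝ × ℝ => py f z.1 z.2 := by
  have h1 : ContDiff ℝ ∞ (fderiv ℝ f) := hf.fderiv_right (m := ∞) (by simp)
  exact h1.clm_apply contDiff_const

theorem chain (hf : ContDiff ℝ ∞ f) {x y : ℝ → ℝ} {x' y' s : ℝ} (hx : HasDerivAt x x' s)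
    (hy : HasDerivAt y y' s) : HasDerivAt (fun s => f (x s, y s))
      (px f (x s) (y s) * x' + py f (x s) (y s) * y') s := by
  have h1 : HasFDerivAt f (fderiv ℝ f (x s, y s)) (x s, y s) :=
    ((hf.differentiable (by simp)) _).hasFDerivAt
  have h2 : HasDerivAt (fun s => (x s, y s)) (x', y') s := hx.prodMk hy
  have h3 := h1.comp_hasDerivAt s h2
  refine h3.congr_deriv ?_
  have e : ((x', y') : ℝ × ℝ) = x' • ((1, 0) : ℝ × ℝ) + y' • ((0, 1) : ℝ × ℝ) := by simp
  rw [e, map_add, map_smul, map_smul]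
  simp only [px, py, smul_eq_mul]
  ring

theorem px_deriv (hf : ContDiff ℝ ∞ f) (x y : ℝ) : HasDerivAt (fun u => f (u, y)) (px f x y) x := by
  have := chain hf (hasDerivAt_id x) (hasDerivAt_const x y)
  simpa using this

theorem py_deriv (hf : ContDiff ℝ ∞ f) (x y : ℝ) : HasDerivAt (fun u => f (x, u)) (py f x y) y := by
  have := chain hf (hasDerivAt_const y x) (hasDerivAt_id y)
  simpa using this

theorem bdd_of_per (hc : Continuous f) (hx : ∀ x y, f (x + 1, y) = f (x, y))
    (hy : ∀ x y, f (x, y + 1) = f (x, y)) : ∃ R : ℝ, ∀ x y, |f (x, y)| ≤ R := by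
  have hK : IsCompact (Icc (0 : ℝ) 1 ×ˢ Icc (0 : ℝ) 1) := isCompact_Icc.prod isCompact_Icc
  obtain ⟨R, hR⟩ := hK.exists_bound_of_continuousOn hc.continuousOn
  refine ⟨R, fun x y => ?_⟩
  rw [per_red (f := fun x => f (x, y)) (fun x => hx x y) x,
      per_red (f := fun y => f (Int.fract x, y)) (fun y => hy _ y) y]
  exact hR _ ⟨⟨Int.fract_nonneg x, (Int.fract_lt_one x).le⟩,
    ⟨Int.fract_nonneg y, (Int.fract_lt_one y).le⟩⟩

end

/-- The level `H = k` carries a closed magnetic geodesic of the homology class `(m, n)`. -/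
def OrbitClass (S : TorusSystem) (k : ℝ) (m n : ℤ) : Prop :=
  ∃ x y p q : ℝ → ℝ, S.IsTrajectory x y p q ∧ (∀ t, S.H (x t) (y t) (p t) (q t) = k) ∧
    ∃ T > 0, ∀ t, x (t + T) = x t + m ∧ y (t + T) = y t + n ∧ p (t + T) = p t ∧
      q (t + T) = q t

/-- Data on the torus with a negative form. -/
structure Tor (S : TorusSystem) (k : ℝ) : Prop where
  k0 : 0 < k
  F0 : ∀ x y, S.F x y = 0
  ex : ∀ x y, S.E (-x) y = S.E x y ∧ S.G (-x) y = S.G x y ∧ S.b (-x) y = S.b x y
  ey : ∀ x y, S.E x (-y) = S.E x y ∧ S.G x (-y) = S.G x y ∧ S.b x (-y) = S.b x y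
  bneg : ∀ x y, S.b x y < 0
  curv : ∀ x y, k * (deriv (fun u => S.E x u) y) ^ 2 < 4 * S.E x y * S.b x y ^ 2

section
variable (S : TorusSystem) (k : ℝ)

/-- square root of the first coefficient -/
noncomputable def se (z : ℝ × ℝ) : ℝ := √(S.E z.1 z.2)

/-- square root of the second coefficient -/
noncomputable def sg (z : ℝ × ℝ) : ℝ := √(S.G z.1 z.2)

/-- the fields -/
noncomputable def tA (x y : ℝ) : ℝ := 2 * √k / se S (x, y)

noncomputable def tB (x y : ℝ) : ℝ := 2 * √k / sg S (x, y)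

noncomputable def tC (x y θ : ℝ) : ℝ := 2 * √k / (se S (x, y) * sg S (x, y)) *
  (-S.b x y / √k + py (se S) x y * cos θ - px (sg S) x y * sin θ)

noncomputable def tρ (x y : ℝ) : ℝ := se S (x, y) * sg S (x, y)

end

section
variable {S : TorusSystem} {k : ℝ}

theorem Tor.posG (D : Tor S k) (x y : ℝ) : 0 < S.G x y := by
  have h1 := S.posdet x y
  rw [D.F0] at h1
  have h2 := S.posE x y
  by_contra hcon
  push Not at hcon
  nlinarith

theorem se_pos (x y : ℝ) : 0 < se S (x, y) := Real.sqrt_pos.2 (S.posE x y)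

theorem Tor.sg_pos (D : Tor S k) (x y : ℝ) : 0 < sg S (x, y) := Real.sqrt_pos.2 (D.posG x y)

theorem Tor.K_pos (D : Tor S k) : 0 < √k := Real.sqrt_pos.2 D.k0

theorem se_sm : ContDiff ℝ ∞ (se S) := S.smoothE.sqrt fun z => (S.posE z.1 z.2).ne'

theorem Tor.sg_sm (D : Tor S k) : ContDiff ℝ ∞ (sg S) :=
  S.smoothG.sqrt fun z => (D.posG z.1 z.2).ne'

theorem se_perx (x y : ℝ) : se S (x + 1, y) = se S (x, y) := by
  simp only [se, (S.perx x y).1]

theorem se_pery (x y : ℝ) : se S (x, y + 1) = se S (x, y) := by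
  simp only [se, (S.pery x y).1]

theorem sg_perx (x y : ℝ) : sg S (x + 1, y) = sg S (x, y) := by
  simp only [sg, (S.perx x y).2.2.1]

theorem sg_pery (x y : ℝ) : sg S (x, y + 1) = sg S (x, y) := by
  simp only [sg, (S.pery x y).2.2.1]

theorem py_perx {f : ℝ × ℝ → ℝ} (hf : ContDiff ℝ ∞ f) (h : ∀ x y, f (x + 1, y) = f (x, y))
    (x y : ℝ) : py f (x + 1) y = py f x y := by
  have h1 := py_deriv hf (x + 1) y
  simp only [h] at h1
  exact h1.unique (py_deriv hf x y)

theorem py_pery {f : ℝ × ℝ → ℝ} (hf : ContDiff ℝ ∞ f) (h : ∀ x y, f (x, y + 1) = f (x, y))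
    (x y : ℝ) : py f x (y + 1) = py f x y := by
  have h1 := (py_deriv hf x (y + 1)).comp_add_const y 1
  simp only [h] at h1
  exact h1.unique (py_deriv hf x y)

theorem px_pery {f : ℝ × ℝ → ℝ} (hf : ContDiff ℝ ∞ f) (h : ∀ x y, f (x, y + 1) = f (x, y))
    (x y : ℝ) : px f x (y + 1) = px f x y := by
  have h1 := px_deriv hf x (y + 1)
  simp only [h] at h1
  exact h1.unique (px_deriv hf x y)

theorem px_perx {f : ℝ × ℝ → ℝ} (hf : ContDiff ℝ ∞ f) (h : ∀ x y, f (x + 1, y) = f (x, y))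
    (x y : ℝ) : px f (x + 1) y = px f x y := by
  have h1 := (px_deriv hf (x + 1) y).comp_add_const x 1
  simp only [h] at h1
  exact h1.unique (px_deriv hf x y)

theorem py_evenx {f : ℝ × ℝ → ℝ} (hf : ContDiff ℝ ∞ f) (h : ∀ x y, f (-x, y) = f (x, y))
    (x y : ℝ) : py f (-x) y = py f x y := by
  have h1 := py_deriv hf (-x) y
  simp only [h] at h1
  exact h1.unique (py_deriv hf x y)

theorem py_eveny {f : ℝ × ℝ → ℝ} (hf : ContDiff ℝ ∞ f) (h : ∀ x y, f (x, -y) = f (x, y))
    (x y : ℝ) : py f x (-y) = -py f x y := by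
  have h1 := hasDerivAt_comp_neg' (py_deriv hf x (-y))
  simp only [h] at h1
  have := h1.unique (py_deriv hf x y)
  linarith

theorem px_eveny {f : ℝ × ℝ → ℝ} (hf : ContDiff ℝ ∞ f) (h : ∀ x y, f (x, -y) = f (x, y))
    (x y : ℝ) : px f x (-y) = px f x y := by
  have h1 := px_deriv hf x (-y)
  simp only [h] at h1
  exact h1.unique (px_deriv hf x y)

theorem px_evenx {f : ℝ × ℝ → ℝ} (hf : ContDiff ℝ ∞ f) (h : ∀ x y, f (-x, y) = f (x, y))
    (x y : ℝ) : px f (-x) y = -px f x y := by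
  have h1 := hasDerivAt_comp_neg' (px_deriv hf (-x) y)
  simp only [h] at h1
  have := h1.unique (px_deriv hf x y)
  linarith

theorem Tor.curv' (D : Tor S k) (x y : ℝ) : |py (se S) x y| < -S.b x y / √k := by
  have he := se_pos (S := S) x y
  have hK := D.K_pos
  have hb := D.bneg x y
  have h1 : deriv (fun u => S.E x u) y = 2 * se S (x, y) * py (se S) x y := by
    have h2 := (py_deriv (se_sm (S := S)) x y).mul (py_deriv (se_sm (S := S)) x y)
    have h3 : ((fun u => se S (x, u)) * fun u => se S (x, u)) = fun u => S.E x u := by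
      funext u
      exact Real.mul_self_sqrt (S.posE x u).le
    rw [h3] at h2
    rw [h2.deriv]
    ring
  have h4 := D.curv x y
  have h5 : S.E x y = se S (x, y) ^ 2 := (Real.sq_sqrt (S.posE x y).le).symm
  have h6 : k = √k ^ 2 := (Real.sq_sqrt D.k0.le).symm
  rw [h1, h5] at h4
  have h7 : (√k * py (se S) x y) ^ 2 < (-S.b x y) ^ 2 := by
    have h8 : 4 * se S (x, y) ^ 2 * (√k * py (se S) x y) ^ 2 <
        4 * se S (x, y) ^ 2 * (-S.b x y) ^ 2 := by
      have : k * (2 * se S (x, y) * py (se S) x y) ^ 2 =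
          4 * se S (x, y) ^ 2 * (√k * py (se S) x y) ^ 2 := by
        rw [mul_pow √k, ← h6]
        ring
      rw [this] at h4
      linarith [h4, (by ring : (-S.b x y) ^ 2 = S.b x y ^ 2)]
    exact lt_of_mul_lt_mul_left h8 (by positivity)
  have h9 := abs_lt_of_sq_lt_sq h7 (by linarith)
  rw [abs_mul, abs_of_pos hK] at h9
  rw [lt_div_iff₀ hK, mul_comm]
  exact h9

theorem Tor.fld (D : Tor S k) : Fld (tA S k) (tB S k) (tC S k) (tρ S) := by
  have hK := D.K_pos
  have hse := se_sm (S := S)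
  have hsg := D.sg_sm
  have hpe := fun x y => (se_pos (S := S) x y)
  have hpg := D.sg_pos
  have ex1 : ∀ x y, se S (-x, y) = se S (x, y) := fun x y => by simp only [se, (D.ex x y).1]
  have ex2 : ∀ x y, sg S (-x, y) = sg S (x, y) := fun x y => by simp only [sg, (D.ex x y).2.1]
  have ey1 : ∀ x y, se S (x, -y) = se S (x, y) := fun x y => by simp only [se, (D.ey x y).1]
  have ey2 : ∀ x y, sg S (x, -y) = sg S (x, y) := fun x y => by simp only [sg, (D.ey x y).2.1]
  have smA : ContDiff ℝ ∞ fun z : ℝ × ℝ => tA S k z.1 z.2 :=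
    contDiff_const.div hse fun z => (hpe z.1 z.2).ne'
  have smB : ContDiff ℝ ∞ fun z : ℝ × ℝ => tB S k z.1 z.2 :=
    contDiff_const.div hsg fun z => (hpg z.1 z.2).ne'
  have smρ : ContDiff ℝ ∞ fun z : ℝ × ℝ => tρ S z.1 z.2 := hse.mul hsg
  have smβ : ContDiff ℝ ∞ fun z : ℝ × ℝ => -S.b z.1 z.2 / √k := S.smoothb.neg.div_const _
  have smP : ContDiff ℝ ∞ fun z : ℝ × ℝ => 2 * √k / (se S z * sg S z) :=
    contDiff_const.div (hse.mul hsg) fun z => (mul_pos (hpe z.1 z.2) (hpg z.1 z.2)).ne'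
  have hπ : ContDiff ℝ ∞ fun z : ℝ × ℝ × ℝ => (z.1, z.2.1) :=
    contDiff_fst.prodMk (contDiff_fst.comp contDiff_snd)
  have hθ : ContDiff ℝ ∞ fun z : ℝ × ℝ × ℝ => z.2.2 := contDiff_snd.comp contDiff_snd
  obtain ⟨R1, hR1⟩ := bdd_of_per (f := fun z => tA S k z.1 z.2) smA.continuous
    (fun x y => by simp only [tA, se_perx]) (fun x y => by simp only [tA, se_pery])
  obtain ⟨R2, hR2⟩ := bdd_of_per (f := fun z => tB S k z.1 z.2) smB.continuous
    (fun x y => by simp only [tB, sg_perx]) (fun x y => by simp only [tB, sg_pery])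
  obtain ⟨R3, hR3⟩ := bdd_of_per (f := fun z => 2 * √k / (se S z * sg S z)) smP.continuous
    (fun x y => by simp only [se_perx, sg_perx]) (fun x y => by simp only [se_pery, sg_pery])
  obtain ⟨R4, hR4⟩ := bdd_of_per (f := fun z => -S.b z.1 z.2 / √k) smβ.continuous
    (fun x y => by simp only [(S.perx x y).2.2.2]) (fun x y => by simp only [(S.pery x y).2.2.2])
  obtain ⟨R5, hR5⟩ := bdd_of_per (f := fun z => py (se S) z.1 z.2) (py_sm hse).continuous
    (fun x y => py_perx hse se_perx x y) (fun x y => py_pery hse se_pery x y)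
  obtain ⟨R6, hR6⟩ := bdd_of_per (f := fun z => px (sg S) z.1 z.2) (px_sm hsg).continuous
    (fun x y => px_perx hsg sg_perx x y) (fun x y => px_pery hsg sg_pery x y)
  obtain ⟨R7, hR7⟩ := bdd_of_per (f := fun z => tρ S z.1 z.2) smρ.continuous
    (fun x y => by simp only [tρ, se_perx, sg_perx])
    (fun x y => by simp only [tρ, se_pery, sg_pery])
  refine
    { sA := smA
      sB := smB
      sC := ?_
      sρ := smρ
      posA := fun x y => div_pos (by positivity) (hpe x y)
      posB := fun x y => div_pos (by positivity) (hpg x y)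
      perx := ?_
      pery := ?_
      perθ := ?_
      C0 := ?_
      Cpi := ?_
      Cb := ?_
      bd := ?_
      bρ := ?_
      e1 := ?_
      e2 := ?_
      liou := ?_ }
  · have h1 := (smP.comp hπ).mul (((smβ.comp hπ).add (((py_sm hse).comp hπ).mul
      ((contDiff_cos.of_le le_top).comp hθ))).sub (((px_sm hsg).comp hπ).mul
      ((contDiff_sin.of_le le_top).comp hθ)))
    exact h1
  · intro x y θ
    refine ⟨by simp only [tA, se_perx], by simp only [tB, sg_perx], ?_⟩
    simp only [tC, se_perx, sg_perx, (S.perx x y).2.2.2, py_perx hse se_perx,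
      px_perx hsg sg_perx]
  · intro x y θ
    refine ⟨by simp only [tA, se_pery], by simp only [tB, sg_pery], ?_⟩
    simp only [tC, se_pery, sg_pery, (S.pery x y).2.2.2, py_pery hse se_pery,
      px_pery hsg sg_pery]
  · intro x y θ
    simp only [tC, cos_add_two_pi, sin_add_two_pi]
  · intro x y
    have h1 := D.curv' x y
    rw [abs_lt] at h1
    refine mul_pos (div_pos (by positivity) (mul_pos (hpe x y) (hpg x y))) ?_
    rw [cos_zero, sin_zero]
    linarith [h1.1]
  · intro x y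
    have h1 := D.curv' x y
    rw [abs_lt] at h1
    refine mul_pos (div_pos (by positivity) (mul_pos (hpe x y) (hpg x y))) ?_
    rw [cos_pi, sin_pi]
    linarith [h1.2]
  · intro y
    refine mul_pos (div_pos (by positivity) (mul_pos (hpe 0 y) (hpg 0 y))) ?_
    rw [cos_pi_div_two, sin_pi_div_two]
    have h1 := px_evenx hsg ex2 0 y
    rw [neg_zero] at h1
    have h2 : px (sg S) 0 y = 0 := by linarith
    rw [h2]
    have h3 : 0 < -S.b 0 y / √k := div_pos (by linarith [D.bneg 0 y]) hK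
    linarith
  · refine ⟨max R1 (max R2 (R3 * (R4 + R5 + R6))), fun x y θ => ⟨(hR1 x y).trans (le_max_left _ _),
      ((hR2 x y).trans (le_max_left _ _)).trans (le_max_right _ _), ?_⟩⟩
    refine le_trans ?_ ((le_max_right _ _).trans (le_max_right _ _))
    rw [tC, abs_mul]
    have h3 := hR3 x y
    have h4 := hR4 x y
    have h5 := hR5 x y
    have h6 := hR6 x y
    have c1 := abs_cos_le_one θ
    have c2 := abs_sin_le_one θ
    refine mul_le_mul h3 ?_ (abs_nonneg _) ((abs_nonneg _).trans h3)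
    refine (abs_sub _ _).trans (add_le_add ((abs_add_le _ _).trans (add_le_add h4 ?_)) ?_)
    · rw [abs_mul]
      calc |py (se S) x y| * |cos θ| ≤ |py (se S) x y| * 1 :=
            mul_le_mul_of_nonneg_left c1 (abs_nonneg _)
        _ ≤ R5 := by rw [mul_one]; exact h5
    · rw [abs_mul]
      calc |px (sg S) x y| * |sin θ| ≤ |px (sg S) x y| * 1 :=
            mul_le_mul_of_nonneg_left c2 (abs_nonneg _)
        _ ≤ R6 := by rw [mul_one]; exact h6
  · have hR3' : 0 < R3 := by
      refine lt_of_lt_of_le ?_ (hR3 0 0)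
      exact abs_pos.2 (div_pos (by positivity) (mul_pos (hpe 0 0) (hpg 0 0))).ne'
    refine ⟨2 * √k / R3, R7, by positivity, fun x y => ⟨?_, (le_abs_self _).trans (hR7 x y)⟩⟩
    have h1 := hR3 x y
    have h2 : 0 < se S (x, y) * sg S (x, y) := mul_pos (hpe x y) (hpg x y)
    rw [abs_of_pos (div_pos (by positivity) h2), div_le_iff₀ h2] at h1
    rw [div_le_iff₀ hR3', tρ]
    linarith
  · intro x y θ
    refine ⟨by simp only [tA, ey1], by simp only [tB, ey2], ?_⟩
    simp only [tC, ey1, ey2, (D.ey x y).2.2, py_eveny hse ey1, px_eveny hsg ey2, cos_pi_sub,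
      sin_pi_sub]
    ring
  · intro x y θ
    refine ⟨by simp only [tA, ex1], by simp only [tB, ex2], ?_⟩
    simp only [tC, ex1, ex2, (D.ex x y).2.2, py_evenx hse ex1, px_evenx hsg ex2, cos_neg,
      sin_neg]
    ring
  · intro x y θ
    refine ⟨2 * √k * px (sg S) x y, 2 * √k * py (se S) x y,
      2 * √k / (se S (x, y) * sg S (x, y)) * (-py (se S) x y * sin θ - px (sg S) x y * cos θ),
      ?_, ?_, ?_, ?_⟩
    · have h1 := (px_deriv hsg x y).const_mul (2 * √k)
      have e : (fun u => tρ S u y * tA S k u y) = fun u => 2 * √k * sg S (u, y) := by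
        funext u
        have := (hpe u y).ne'
        simp only [tρ, tA]
        field_simp
      rw [e]
      exact h1
    · have h1 := (py_deriv hse x y).const_mul (2 * √k)
      have e : (fun u => tρ S x u * tB S k x u) = fun u => 2 * √k * se S (x, u) := by
        funext u
        have := (hpg x u).ne'
        simp only [tρ, tB]
        field_simp
      rw [e]
      exact h1
    · have h1 := (((hasDerivAt_cos θ).const_mul (py (se S) x y)).const_add
        (-S.b x y / √k)).sub ((hasDerivAt_sin θ).const_mul (px (sg S) x y))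
      have h2 := h1.const_mul (2 * √k / (se S (x, y) * sg S (x, y)))
      refine h2.congr_deriv ?_
      ring
    · have h1 := (hpe x y).ne'
      have h2 := (hpg x y).ne'
      simp only [tρ]
      field_simp
      ring

/-- integer periods -/
theorem int_per {f : ℝ → ℝ} (h : ∀ x, f (x + 1) = f x) (x : ℝ) (n : ℤ) : f (x + n) = f x := by
  have h1 : Function.Periodic f 1 := h
  have h2 := h1.zsmul n x
  rw [zsmul_eq_mul, mul_one] at h2
  exact h2

theorem Tor.H_eq (D : Tor S k) (x y p q : ℝ) : S.H x y p q =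
    p ^ 2 / se S (x, y) ^ 2 + q ^ 2 / sg S (x, y) ^ 2 := by
  have h1 : se S (x, y) ^ 2 = S.E x y := Real.sq_sqrt (S.posE x y).le
  have h2 : sg S (x, y) ^ 2 = S.G x y := Real.sq_sqrt (D.posG x y).le
  rw [h1, h2, TorusSystem.H, D.F0]
  have h3 := (S.posE x y).ne'
  have h4 := (D.posG x y).ne'
  field_simp
  ring

theorem div_sq_deriv {r : ℝ → ℝ} {r' x c : ℝ} (h : HasDerivAt r r' x) (h0 : r x ≠ 0) :
    HasDerivAt (fun u => c / r u ^ 2) (-(2 * c * r' / r x ^ 3)) x := by
  have h1 : HasDerivAt (fun u => r u ^ 2) (2 * r x * r') x := by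
    refine (h.pow 2).congr_deriv ?_
    simp
  have h2 := (hasDerivAt_const x c).div h1 (pow_ne_zero 2 h0)
  refine h2.congr_deriv ?_
  field_simp
  ring

/-- The reduced equations give trajectories. -/
theorem Tor.traj (D : Tor S k) {x y θ : ℝ → ℝ}
    (hx : ∀ t, HasDerivAt x (tA S k (x t) (y t) * cos (θ t)) t)
    (hy : ∀ t, HasDerivAt y (tB S k (x t) (y t) * sin (θ t)) t)
    (hθ : ∀ t, HasDerivAt θ (tC S k (x t) (y t) (θ t)) t) :
    S.IsTrajectory x y (fun t => √k * se S (x t, y t) * cos (θ t))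
      (fun t => √k * sg S (x t, y t) * sin (θ t)) := by
  have hse := se_sm (S := S)
  have hsg := D.sg_sm
  have hK := D.K_pos
  intro t
  have he := se_pos (S := S) (x t) (y t)
  have hg := D.sg_pos (x t) (y t)
  have dp : ∀ X Y P Q, deriv (fun u => S.H X Y u Q) P = 2 * P / se S (X, Y) ^ 2 := by
    intro X Y P Q
    have e1 : (fun u => S.H X Y u Q) =
        fun u => u ^ 2 / se S (X, Y) ^ 2 + Q ^ 2 / sg S (X, Y) ^ 2 := by
      funext u; rw [D.H_eq]
    rw [e1]
    have d2 := (((hasDerivAt_id P).pow 2).div_const (se S (X, Y) ^ 2)).add_const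
      (Q ^ 2 / sg S (X, Y) ^ 2)
    refine d2.deriv.trans ?_
    simp
  have dq : ∀ X Y P Q, deriv (fun u => S.H X Y P u) Q = 2 * Q / sg S (X, Y) ^ 2 := by
    intro X Y P Q
    have e1 : (fun u => S.H X Y P u) =
        fun u => P ^ 2 / se S (X, Y) ^ 2 + u ^ 2 / sg S (X, Y) ^ 2 := by
      funext u; rw [D.H_eq]
    rw [e1]
    have d2 := (((hasDerivAt_id Q).pow 2).div_const (sg S (X, Y) ^ 2)).const_add
      (P ^ 2 / se S (X, Y) ^ 2)
    refine d2.deriv.trans ?_
    simp
  have dX : ∀ X Y P Q, deriv (fun u => S.H u Y P Q) X =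
      -(2 * P ^ 2 * px (se S) X Y / se S (X, Y) ^ 3) -
        2 * Q ^ 2 * px (sg S) X Y / sg S (X, Y) ^ 3 := by
    intro X Y P Q
    have e1 : (fun u => S.H u Y P Q) =
        fun u => P ^ 2 / se S (u, Y) ^ 2 + Q ^ 2 / sg S (u, Y) ^ 2 := by
      funext u; rw [D.H_eq]
    rw [e1]
    have q1 := (se_pos (S := S) X Y).ne'
    have q2 := (D.sg_pos X Y).ne'
    have d1 := div_sq_deriv (c := P ^ 2) (px_deriv hse X Y) q1
    have d2 := div_sq_deriv (c := Q ^ 2) (px_deriv hsg X Y) q2
    refine (d1.add d2).deriv.trans ?_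
    ring
  have dY : ∀ X Y P Q, deriv (fun u => S.H X u P Q) Y =
      -(2 * P ^ 2 * py (se S) X Y / se S (X, Y) ^ 3) -
        2 * Q ^ 2 * py (sg S) X Y / sg S (X, Y) ^ 3 := by
    intro X Y P Q
    have e1 : (fun u => S.H X u P Q) =
        fun u => P ^ 2 / se S (X, u) ^ 2 + Q ^ 2 / sg S (X, u) ^ 2 := by
      funext u; rw [D.H_eq]
    rw [e1]
    have q1 := (se_pos (S := S) X Y).ne'
    have q2 := (D.sg_pos X Y).ne'
    have d1 := div_sq_deriv (c := P ^ 2) (py_deriv hse X Y) q1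
    have d2 := div_sq_deriv (c := Q ^ 2) (py_deriv hsg X Y) q2
    refine (d1.add d2).deriv.trans ?_
    ring
  simp only [dp, dq, dX, dY]
  have c1 := chain hse (hx t) (hy t)
  have c2 := chain hsg (hx t) (hy t)
  have cc := (hasDerivAt_cos (θ t)).comp t (hθ t)
  have cs := (hasDerivAt_sin (θ t)).comp t (hθ t)
  set ee := se S (x t, y t) with hee
  set gg := sg S (x t, y t) with hgg
  refine ⟨(hx t).congr_deriv ?_, (hy t).congr_deriv ?_, ?_, ?_⟩
  · simp only [tA]
    rw [← hee]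
    field_simp
  · simp only [tB]
    rw [← hgg]
    field_simp
  · refine ((c1.const_mul (√k)).mul cc).congr_deriv ?_
    simp only [tA, tB, tC, Function.comp]
    rw [← hee, ← hgg]
    field_simp
    ring
  · refine ((c2.const_mul (√k)).mul cs).congr_deriv ?_
    simp only [tA, tB, tC, Function.comp]
    rw [← hee, ← hgg]
    field_simp
    ring

theorem Tor.closed (D : Tor S k) : ∃ n : ℤ, |n| ≤ 1 ∧ OrbitClass S k 0 n := by
  obtain ⟨F, hS, z, T, n, j, hT, hn, hz'⟩ := D.fld.exists_sys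
  have hz : F T z = z + (((0 : ℤ) : ℝ), (n : ℝ), 2 * π * (j : ℝ)) := by
    rw [hz', Int.cast_zero]
  obtain ⟨m, hm⟩ : ∃ m : ℤ, m = 0 := ⟨0, rfl⟩
  rw [← hm] at hz ⊢
  have hK := D.K_pos
  refine ⟨n, hn, fun t => (F t z).1, fun t => (F t z).2.1, _, _,
    D.traj (fun t => hS.dx t z) (fun t => hS.dy t z) (fun t => hS.dθ t z), ?_, T, hT, ?_⟩
  · intro t
    rw [D.H_eq]
    have he := (se_pos (S := S) (F t z).1 (F t z).2.1).ne'
    have hg := (D.sg_pos (F t z).1 (F t z).2.1).ne'
    have h6 : √k ^ 2 = k := Real.sq_sqrt D.k0.le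
    have h7 := cos_sq_add_sin_sq (F t z).2.2
    have e : (√k * se S ((F t z).1, (F t z).2.1) * cos (F t z).2.2) ^ 2 /
        se S ((F t z).1, (F t z).2.1) ^ 2 + (√k * sg S ((F t z).1, (F t z).2.1) *
        sin (F t z).2.2) ^ 2 / sg S ((F t z).1, (F t z).2.1) ^ 2 =
        √k ^ 2 * (cos (F t z).2.2 ^ 2 + sin (F t z).2.2 ^ 2) := by
      field_simp
    rw [e, h6, h7, mul_one]
  · have trθ : ∀ t w, F t (w + (0, 0, 2 * π * (j : ℝ))) = F t w + (0, 0, 2 * π * (j : ℝ)) := by
      intro t w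
      have h := tr_int hS.trθ j t w
      have e : j • ((0 : ℝ), (0 : ℝ), 2 * π) = (0, 0, 2 * π * (j : ℝ)) := by
        ext <;> simp [mul_comm]
      rwa [e] at h
    have hshift : ∀ t, F (t + T) z = F t z + ((m : ℝ), (n : ℝ), 2 * π * (j : ℝ)) := by
      intro t
      rw [← hS.group, hz]
      have e : ((m : ℝ), (n : ℝ), 2 * π * (j : ℝ)) = ((m : ℝ), (n : ℝ), 0) +
          (0, 0, 2 * π * (j : ℝ)) := by simp
      rw [e, ← add_assoc, trθ, hS.tr_xy, add_assoc]
    intro t
    have hs := hshift t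
    have e1 : ∀ X Y : ℝ, se S (X + m, Y + n) = se S (X, Y) := fun X Y => by
      rw [int_per (f := fun x => se S (x, Y + n)) (fun x => se_perx x _) X m,
        int_per (f := fun y => se S (X, y)) (fun y => se_pery X y) Y n]
    have e2 : ∀ X Y : ℝ, sg S (X + m, Y + n) = sg S (X, Y) := fun X Y => by
      rw [int_per (f := fun x => sg S (x, Y + n)) (fun x => sg_perx x _) X m,
        int_per (f := fun y => sg S (X, y)) (fun y => sg_pery X y) Y n]
    have e3 : ∀ a : ℝ, cos (a + 2 * π * (j : ℝ)) = cos a := fun a => by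
      rw [mul_comm (2 * π)]; exact cos_add_int_mul_two_pi a j
    have e4 : ∀ a : ℝ, sin (a + 2 * π * (j : ℝ)) = sin a := fun a => by
      rw [mul_comm (2 * π)]; exact sin_add_int_mul_two_pi a j
    simp only [hs, Prod.fst_add, Prod.snd_add, e1, e2, e3, e4, and_self]

end

/-! ### Time reversal and exchange of the coordinates -/

/-- the system with the opposite form -/
def revS (S : TorusSystem) : TorusSystem where
  E := S.E
  F := S.F
  G := S.G
  b x y := -S.b x y
  smoothE := S.smoothE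
  smoothF := S.smoothF
  smoothG := S.smoothG
  smoothb := S.smoothb.neg
  perx x y := ⟨(S.perx x y).1, (S.perx x y).2.1, (S.perx x y).2.2.1, by rw [(S.perx x y).2.2.2]⟩
  pery x y := ⟨(S.pery x y).1, (S.pery x y).2.1, (S.pery x y).2.2.1, by rw [(S.pery x y).2.2.2]⟩
  posE := S.posE
  posdet := S.posdet

theorem H_rev (S : TorusSystem) (x y p q : ℝ) : (revS S).H x y p q = S.H x y p q := rfl

theorem H_neg (S : TorusSystem) (x y p q : ℝ) : S.H x y (-p) (-q) = S.H x y p q := by
  unfold TorusSystem.H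
  congr 1
  ring

theorem rev_closed {S : TorusSystem} {k : ℝ} {m n : ℤ} (h : OrbitClass (revS S) k m n) :
    OrbitClass S k (-m) (-n) := by
  obtain ⟨x, y, p, q, htr, hE, T, hT, hper⟩ := h
  refine ⟨fun t => x (-t), fun t => y (-t), fun t => -p (-t), fun t => -q (-t), ?_, ?_, T, hT,
    ?_⟩
  · intro t
    obtain ⟨h1, h2, h3, h4⟩ := htr (-t)
    simp only [H_rev] at h1 h2 h3 h4
    have hp : ∀ X Y P Q, deriv (fun u => S.H X Y u (-Q)) (-P) =
        -deriv (fun u => S.H X Y u Q) P := by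
      intro X Y P Q
      have e : (fun u => S.H X Y u (-Q)) = fun u => (fun v => S.H X Y v Q) (-u) := by
        funext u
        show _ = S.H X Y (-u) Q
        rw [← H_neg S X Y (-u) Q, neg_neg]
      rw [e]
      have h5 := deriv_comp_neg (fun v => S.H X Y v Q) (-P)
      rw [neg_neg] at h5
      exact h5
    have hq : ∀ X Y P Q, deriv (fun u => S.H X Y (-P) u) (-Q) =
        -deriv (fun u => S.H X Y P u) Q := by
      intro X Y P Q
      have e : (fun u => S.H X Y (-P) u) = fun u => (fun v => S.H X Y P v) (-u) := by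
        funext u
        show _ = S.H X Y P (-u)
        rw [← H_neg S X Y P (-u), neg_neg]
      rw [e]
      have h5 := deriv_comp_neg (fun v => S.H X Y P v) (-Q)
      rw [neg_neg] at h5
      exact h5
    simp only [hp, hq, H_neg]
    refine ⟨hasDerivAt_comp_neg' h1, hasDerivAt_comp_neg' h2, ?_, ?_⟩
    · refine (hasDerivAt_comp_neg' h3).neg.congr_deriv ?_
      simp only [revS]
      ring
    · refine (hasDerivAt_comp_neg' h4).neg.congr_deriv ?_
      simp only [revS]
      ring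
  · intro t
    rw [H_neg]
    exact hE (-t)
  · intro t
    have h := hper (-(t + T))
    rw [show -(t + T) + T = -t by ring] at h
    obtain ⟨h1, h2, h3, h4⟩ := h
    refine ⟨?_, ?_, by show -p (-(t + T)) = -p (-t); rw [h3],
      by show -q (-(t + T)) = -q (-t); rw [h4]⟩
    · push_cast
      linarith
    · push_cast
      linarith

/-- the system with exchanged coordinates -/
def swapS (S : TorusSystem) : TorusSystem where
  E x y := S.G y x
  F x y := S.F y x
  G x y := S.E y x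
  b x y := -S.b y x
  smoothE := S.smoothG.comp (contDiff_snd.prodMk contDiff_fst)
  smoothF := S.smoothF.comp (contDiff_snd.prodMk contDiff_fst)
  smoothG := S.smoothE.comp (contDiff_snd.prodMk contDiff_fst)
  smoothb := (S.smoothb.comp (contDiff_snd.prodMk contDiff_fst)).neg
  perx x y := ⟨(S.pery y x).2.2.1, (S.pery y x).2.1, (S.pery y x).1, by rw [(S.pery y x).2.2.2]⟩
  pery x y := ⟨(S.perx y x).2.2.1, (S.perx y x).2.1, (S.perx y x).1, by rw [(S.perx y x).2.2.2]⟩
  posE x y := by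
    have h1 := S.posdet y x
    have h2 := S.posE y x
    by_contra hcon
    push Not at hcon
    nlinarith [sq_nonneg (S.F y x)]
  posdet x y := by
    have := S.posdet y x
    linarith

theorem H_swap (S : TorusSystem) (x y p q : ℝ) : (swapS S).H x y p q = S.H y x q p := by
  simp only [TorusSystem.H, swapS]
  congr 1 <;> ring

theorem swap_closed {S : TorusSystem} {k : ℝ} {m n : ℤ} (h : OrbitClass (swapS S) k m n) :
    OrbitClass S k n m := by
  obtain ⟨x, y, p, q, htr, hE, T, hT, hper⟩ := h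
  refine ⟨y, x, q, p, ?_, ?_, T, hT, ?_⟩
  · intro t
    obtain ⟨h1, h2, h3, h4⟩ := htr t
    simp only [H_swap] at h1 h2 h3 h4
    refine ⟨h2, h1, h4.congr_deriv ?_, h3.congr_deriv ?_⟩
    · simp only [swapS]
      ring
    · simp only [swapS]
      ring
  · intro t
    rw [← H_swap]
    exact hE t
  · intro t
    obtain ⟨h1, h2, h3, h4⟩ := hper t
    exact ⟨h2, h1, h4, h3⟩

/-- a function without zeros has a constant sign -/
theorem const_sign (S : TorusSystem) (hb : ∀ x y, S.b x y ≠ 0) :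
    (∀ x y, S.b x y < 0) ∨ ∀ x y, 0 < S.b x y := by
  by_contra hcon
  push Not at hcon
  obtain ⟨⟨x1, y1, h1⟩, x2, y2, h2⟩ := hcon
  have hc : Continuous fun z : ℝ × ℝ => S.b z.1 z.2 := S.smoothb.continuous
  have h3 := isPreconnected_univ.intermediate_value (mem_univ ((x2, y2) : ℝ × ℝ))
    (mem_univ ((x1, y1) : ℝ × ℝ)) hc.continuousOn
  obtain ⟨z, -, hz⟩ := h3 ⟨h2, h1⟩
  exact hb z.1 z.2 hz

theorem main_y (S : TorusSystem) (k : ℝ) (hk : 0 < k) (hF : ∀ x y, S.F x y = 0)
    (hx : ∀ x y, S.E (-x) y = S.E x y ∧ S.G (-x) y = S.G x y ∧ S.b (-x) y = S.b x y)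
    (hy : ∀ x y, S.E x (-y) = S.E x y ∧ S.G x (-y) = S.G x y ∧ S.b x (-y) = S.b x y)
    (hb : ∀ x y, S.b x y ≠ 0)
    (hc : ∀ x y, k * (deriv (fun u => S.E x u) y) ^ 2 < 4 * S.E x y * S.b x y ^ 2) :
    ∃ n : ℤ, |n| ≤ 1 ∧ OrbitClass S k 0 n := by
  rcases const_sign S hb with h | h
  · exact Tor.closed ⟨hk, hF, hx, hy, h, hc⟩
  · have h1 : Tor (revS S) k := by
      refine ⟨hk, hF, fun x y => ⟨(hx x y).1, (hx x y).2.1, ?_⟩,
        fun x y => ⟨(hy x y).1, (hy x y).2.1, ?_⟩, fun x y => ?_, fun x y => ?_⟩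
      · show -S.b (-x) y = -S.b x y
        rw [(hx x y).2.2]
      · show -S.b x (-y) = -S.b x y
        rw [(hy x y).2.2]
      · show -S.b x y < 0
        linarith [h x y]
      · show k * (deriv (fun u => S.E x u) y) ^ 2 < 4 * S.E x y * (-S.b x y) ^ 2
        rw [neg_sq]
        exact hc x y
    obtain ⟨n, hn, h2⟩ := h1.closed
    refine ⟨-n, by rwa [abs_neg], ?_⟩
    have := rev_closed h2
    rwa [neg_zero] at this

theorem main_x (S : TorusSystem) (k : ℝ) (hk : 0 < k) (hF : ∀ x y, S.F x y = 0)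
    (hx : ∀ x y, S.E (-x) y = S.E x y ∧ S.G (-x) y = S.G x y ∧ S.b (-x) y = S.b x y)
    (hy : ∀ x y, S.E x (-y) = S.E x y ∧ S.G x (-y) = S.G x y ∧ S.b x (-y) = S.b x y)
    (hb : ∀ x y, S.b x y ≠ 0)
    (hc : ∀ x y, k * (deriv (fun u => S.G u y) x) ^ 2 < 4 * S.G x y * S.b x y ^ 2) :
    ∃ m : ℤ, |m| ≤ 1 ∧ OrbitClass S k m 0 := by
  obtain ⟨n, hn, h⟩ := main_y (swapS S) k hk (fun x y => hF y x) (fun x y => by
      refine ⟨(hy y x).2.1, (hy y x).1, ?_⟩
      show -S.b y (-x) = -S.b y x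
      rw [(hy y x).2.2]) (fun x y => by
      refine ⟨(hx y x).2.1, (hx y x).1, ?_⟩
      show -S.b (-y) x = -S.b y x
      rw [(hx y x).2.2]) (fun x y => by
      show -S.b y x ≠ 0
      exact neg_ne_zero.2 (hb y x)) (fun x y => by
      show k * (deriv (fun u => S.G u x) y) ^ 2 < 4 * S.G y x * (-S.b y x) ^ 2
      rw [neg_sq]
      exact hc y x)
  exact ⟨n, hn, swap_closed h⟩

end MP4c42bd.Mir
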